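import Pool.Agent.Q216.RK.Defs2

/-!
# Learning read-k DNF formulas with noise: the statements of the lemmas
-/

namespace Pool.Agent.Q216.RK

/-- The statistic `v / M` is close to the probabilities for `F`, the test `Z` compares `v / M`
with the precision, the list `X` consists of points and contains a point of every term of not too
small measure, and the statistic of unsatisfiable conjunctions is small. -/
def GoodV {n : ℕ} (τ : ℝ) (F : Finset (Tm n)) (v : Sta) (Z : Cj → Bool) (M : ℝ)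
    (X : List (List Bool)) : Prop :=
  0 < M ∧
  (∀ (K : Cj) (T : Tm n) (b : Bool), (∀ x : Pt n, satB K (List.ofFn x) = satT T x) →
    |(v K b : ℝ) / M - prb F T b| ≤ τ) ∧
  (∀ (K : Cj) (T : Tm n), (∀ x : Pt n, satB K (List.ofFn x) = satT T x) →
    (Z K = true ↔ (v K false : ℝ) / M ≤ τ)) ∧
  (∀ T : Tm n, 4 * τ ≤ (1 / 2) ^ len T → ∃ x : Pt n, List.ofFn x ∈ X ∧ satT T x = true) ∧
  (∀ x ∈ X, ∃ y : Pt n, x = List.ofFn y) ∧
  (∀ (K : Cj) (b : Bool), (∀ x : Pt n, satB K (List.ofFn x) = false) → (v K b : ℝ) / M ≤ τ)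

/-- The rule of the algorithm is fair. -/
def S_FAIR2 : Prop := ∀ (n m : ℕ) (Z : Cj → Bool), Fair n m (admV Z (conjs (lits n) m))

/-- What happens at the points that are not alive. -/
def S_STOP2 : Prop := ∀ (Z : Cj → Bool) (C : Cj) (m t : ℕ) (x : List Bool),
  aliveB (admV Z (conjs C m)) x t = false →
  admV Z (conjs C m) (path (admV Z (conjs C m)) x t) = none ∨
    Z (path (admV Z (conjs C m)) x t) = true

/-- The number of different candidates. -/
def S_NCAND2 : Prop := ∀ (v : Sta) (Z : Cj → Bool) (X : List (List Bool)) (n m t k B : ℕ),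
  (candsV v Z X n m t k B).toFinset.card ≤
  (ctxsV Z X n m t).toFinset.card * ((2 * n + 1) ^ k * (n * 2 ^ B))

/-- The algorithm runs in polynomial time. -/
def S_POLY2 : Prop := ∀ k m : ℕ, NPC.Poly (algN k m)

/-- The statistics find the terms of the context. -/
def S_LEAF2 : Prop := ∀ (k l m n e : ℕ) (F F' : Finset (Tm n)) (v : Sta) (Z : Cj → Bool) (M : ℝ)
  (X : List (List Bool)) (π : Cj) (T : Tm n), 1 ≤ k → 1 ≤ l → 10 * k * (3 / 4 : ℝ) ^ l ≤ 1 →
  4 * k * l ≤ m → 1 ≤ e → GoodV (1 / (Rr k m n e : ℝ)) F v Z M X →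
  π ∈ ctxsV Z X n m (tT m e) → Wf n π → π.length ≤ m * tT m e →
  ¬ 8 * e * v π false ≤ v π false + v π true →
  ReadK k F' → Irr F' → (∀ T ∈ F', Disjoint (vars T) (vars (tm n π))) →
  (∀ x, satT (tm n π) x = true → on F x = on F' x) → (∀ T ∈ F', m ≤ len T) → T ∈ F' →
  len T < Nat.size (8 * (k * n + 1) * e) →
  ∃ K ∈ candsV v Z X n m (tT m e) k (bB k n e),
    ∀ x : Pt n, satB K (List.ofFn x) = (satT (tm n π) x && satT T x)

/-- The error of the algorithm on good statistics. -/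
def S_ERR2 : Prop := ∀ (k l m n e : ℕ) (F : Finset (Tm n)) (v : Sta) (Z : Cj → Bool) (M : ℝ)
  (X : List (List Bool)), 1 ≤ k → 1 ≤ l → 10 * k * (3 / 4 : ℝ) ^ l ≤ 1 → 4 * k * l ≤ m → 1 ≤ e →
  ReadK k F → GoodV (1 / (Rr k m n e : ℝ)) F v Z M X →
  err F (algV v Z X n m (tT m e) k (bB k n e) e) ≤ 3 / (4 * e)

/-- Hoeffding's bound in terms of numbers of samples. -/
def S_HOEF : Prop := ∀ (Ω : Type) [Fintype Ω] [Nonempty Ω] (N : ℕ) (E : Ω → Bool) (τ : ℝ),
  0 < τ → τ ≤ 1 → 1 ≤ N →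
  (Nat.card {xs : Fin N → Ω // τ < |((Finset.univ.filter (fun j => E (xs j) = true)).card : ℝ) / N -
    ((Finset.univ.filter (fun x => E x = true)).card : ℝ) / Fintype.card Ω|} : ℝ) ≤
    2 * Real.exp (- (τ ^ 2 * N / 4)) * (Fintype.card Ω : ℝ) ^ N

/-- Samples with noise are good, with few exceptions. -/
def S_GOOD2 : Prop := ∀ (n N d p q w R : ℕ) (F : Finset (Tm n)) (f : Pt n → Bool), 2 * p < q →
  q ≤ w * (q - 2 * p) → 1 ≤ R → 2 * R * (Finset.univ.filter (fun x => f x ≠ on F x)).card ≤ 2 ^ n →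
  32 * w ^ 2 * R ^ 2 * (2 * n + d + 4) ≤ N →
  2 ^ d * Nat.card {xs : Fin N → Pt n × Fin q // ¬ GoodV (1 / (R : ℝ)) F
    (valS p q (smpN p f xs)) (zerS p q R (smpN p f xs)) (N * ((q : ℝ) - 2 * p))
    ((smpN p f xs).map Prod.fst)} ≤ (2 ^ n * q) ^ N

/-- The main theorem. -/
def S_MAIN : Prop := ∀ k : ℕ, ∃ (A : List Unit × (ℕ × ℕ) × Smp → List Cj) (c : ℕ), NPC.Poly A ∧
  ∀ n e d w p q N : ℕ, 1 ≤ e → 2 * p < q → q ≤ w * (q - 2 * p) → (n + e + d + w + 2) ^ c ≤ N →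
  ∀ F : Finset (Tm n), ReadK k F → ∀ f : Pt n → Bool,
  (n + e + 2) ^ c * (Finset.univ.filter (fun x => f x ≠ on F x)).card ≤ 2 ^ n →
  2 ^ d * Nat.card {xs : Fin N → Pt n × Fin q // (1 : ℝ) / e <
    errf f (A (List.replicate e (), (p, q), smpN p f xs))} ≤ (2 ^ n * q) ^ N

end Pool.Agent.Q216.RK
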