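import Pool.Agent.Q216.RK.Basic
import Pool.Agent.Q216.RK.Stm2

/-!
# Samples with noise are good

The exponential moment argument follows `Pool.Agent.Q153.RK.GOOD` (helper153).
-/

namespace Pool.Agent.Q216.RK

section Hoef

variable {Ω : Type} [Fintype Ω] [Nonempty Ω]

/-- The exponential moment. -/
theorem mgfO_le {g : Ω → ℝ} (hg : ∀ x, |g x| ≤ 1) (h0 : ∑ x, g x = 0) {s : ℝ}
    (hs0 : 0 ≤ s) (hs1 : s ≤ 1) :
    ∑ x, Real.exp (s * g x) ≤ (Fintype.card Ω : ℝ) * Real.exp (s ^ 2) := by
  have h1 : ∀ x : Ω, Real.exp (s * g x) ≤ 1 + s * g x + s ^ 2 := by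
    intro x
    have ha : |s * g x| ≤ 1 := by
      rw [abs_mul, abs_of_nonneg hs0]
      exact mul_le_one₀ hs1 (abs_nonneg _) (hg x)
    have h2 := Real.abs_exp_sub_one_sub_id_le ha
    have h3 := (abs_le.mp h2).2
    have h4 : (s * g x) ^ 2 ≤ s ^ 2 := by
      rw [mul_pow]
      have : g x ^ 2 ≤ 1 := by
        rw [← sq_abs]
        exact pow_le_one₀ (abs_nonneg _) (hg x)
      nlinarith [sq_nonneg s]
    linarith
  calc ∑ x, Real.exp (s * g x) ≤ ∑ x : Ω, (1 + s * g x + s ^ 2) :=
        Finset.sum_le_sum fun x _ => h1 x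
    _ = (Fintype.card Ω : ℝ) * (1 + s ^ 2) := by
        rw [Finset.sum_add_distrib, Finset.sum_add_distrib, ← Finset.mul_sum, h0]
        simp only [Finset.sum_const, Finset.card_univ, nsmul_eq_mul]
        ring
    _ ≤ (Fintype.card Ω : ℝ) * Real.exp (s ^ 2) := by
        refine mul_le_mul_of_nonneg_left ?_ (by positivity)
        linarith [Real.add_one_le_exp (s ^ 2)]

open Classical in
/-- Chernoff's bound. -/
theorem chernoffO {N : ℕ} {g : Ω → ℝ} (hg : ∀ x, |g x| ≤ 1) (h0 : ∑ x, g x = 0) {τ : ℝ}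
    (ht0 : 0 < τ) (ht1 : τ ≤ 1) :
    (((Finset.univ : Finset (Fin N → Ω)).filter
      (fun xs => N * τ < ∑ j, g (xs j))).card : ℝ) ≤
      (Fintype.card Ω : ℝ) ^ N * Real.exp (-(τ ^ 2 * N / 4)) := by
  set s : ℝ := τ / 2 with hs
  have hs0 : 0 ≤ s := by linarith
  have hs1 : s ≤ 1 := by linarith
  have h1 : (((Finset.univ : Finset (Fin N → Ω)).filter
      (fun xs => N * τ < ∑ j, g (xs j))).card : ℝ) ≤
      ∑ xs : Fin N → Ω, Real.exp (s * (∑ j, g (xs j) - N * τ)) := by
    rw [Finset.card_eq_sum_ones, Nat.cast_sum, Nat.cast_one]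
    calc ∑ xs ∈ (Finset.univ : Finset (Fin N → Ω)).filter
          (fun xs => N * τ < ∑ j, g (xs j)), (1 : ℝ)
        ≤ ∑ xs ∈ (Finset.univ : Finset (Fin N → Ω)).filter
          (fun xs => N * τ < ∑ j, g (xs j)), Real.exp (s * (∑ j, g (xs j) - N * τ)) := by
          refine Finset.sum_le_sum fun xs hx => ?_
          rw [Finset.mem_filter] at hx
          exact Real.one_le_exp (mul_nonneg hs0 (by linarith [hx.2]))
      _ ≤ _ := Finset.sum_le_sum_of_subset_of_nonneg (Finset.filter_subset _ _)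
          fun _ _ _ => (Real.exp_pos _).le
  refine h1.trans ?_
  have h2 : ∀ xs : Fin N → Ω, Real.exp (s * (∑ j, g (xs j) - N * τ)) =
      Real.exp (-(s * (N * τ))) * ∏ j, Real.exp (s * g (xs j)) := by
    intro xs
    rw [← Real.exp_sum, ← Real.exp_add, ← Finset.mul_sum]
    congr 1
    ring
  simp only [h2]
  rw [← Finset.mul_sum, ← Fintype.sum_pow (fun x => Real.exp (s * g x)) N]
  have h3 : (∑ x, Real.exp (s * g x)) ^ N ≤ ((Fintype.card Ω : ℝ) * Real.exp (s ^ 2)) ^ N :=
    pow_le_pow_left₀ (Finset.sum_nonneg fun _ _ => (Real.exp_pos _).le)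
      (mgfO_le hg h0 hs0 hs1) N
  refine (mul_le_mul_of_nonneg_left h3 (Real.exp_pos _).le).trans (le_of_eq ?_)
  rw [mul_pow, ← Real.exp_nat_mul, mul_left_comm, ← Real.exp_add]
  congr 2
  rw [hs]
  ring

/-- The number of the `j` with `E (xs j)`. -/
def cE {N : ℕ} (E : Ω → Bool) (xs : Fin N → Ω) : ℕ :=
  (Finset.univ.filter (fun j => E (xs j) = true)).card

/-- The probability of `E`. -/
noncomputable def pE (E : Ω → Bool) : ℝ :=
  ((Finset.univ.filter (fun x => E x = true)).card : ℝ) / Fintype.card Ω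

omit [Fintype Ω] [Nonempty Ω] in
theorem cE_eq {N : ℕ} (E : Ω → Bool) (xs : Fin N → Ω) : (cE E xs : ℝ) = ∑ j, ind (E (xs j)) := by
  unfold cE
  rw [Finset.card_eq_sum_ones, Nat.cast_sum, Nat.cast_one, Finset.sum_filter]
  refine Finset.sum_congr rfl fun j _ => ?_
  cases E (xs j) <;> simp [ind]

theorem pE_eq (E : Ω → Bool) : pE E * Fintype.card Ω = ∑ x, ind (E x) := by
  unfold pE
  have h : (0 : ℝ) < Fintype.card Ω := by exact_mod_cast Fintype.card_pos
  rw [div_mul_cancel₀ _ h.ne', Finset.card_eq_sum_ones, Nat.cast_sum, Nat.cast_one,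
    Finset.sum_filter]
  refine Finset.sum_congr rfl fun j _ => ?_
  cases E j <;> simp [ind]

theorem pE_mem (E : Ω → Bool) : 0 ≤ pE E ∧ pE E ≤ 1 := by
  have h : (0 : ℝ) < Fintype.card Ω := by exact_mod_cast Fintype.card_pos
  constructor
  · unfold pE; positivity
  · unfold pE
    rw [div_le_one h]
    have := Finset.card_filter_le (Finset.univ : Finset Ω) (fun x => E x = true)
    rw [Finset.card_univ] at this
    exact_mod_cast this

open Classical in
/-- Union bound for the frequencies of finitely many events. -/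
theorem unionO {ι : Type} [Fintype ι] {N : ℕ} (hN : 1 ≤ N) (E : ι → Ω → Bool) {τ : ℝ}
    (hτ : 0 < τ) (hτ1 : τ ≤ 1) :
    ((Finset.univ.filter (fun xs : Fin N → Ω =>
      ∃ i, τ < |(cE (E i) xs : ℝ) / N - pE (E i)|)).card : ℝ) ≤
      Fintype.card ι * (2 * ((Fintype.card Ω : ℝ) ^ N * Real.exp (-(τ ^ 2 * N / 4)))) := by
  have hN0 : (0 : ℝ) < N := by exact_mod_cast hN
  set g : ι → Ω → ℝ := fun i x => ind (E i x) - pE (E i) with hg
  have hgm : ∀ i, ∑ x, g i x = 0 := by
    intro i
    simp only [hg]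
    rw [Finset.sum_sub_distrib, ← pE_eq]
    simp only [Finset.sum_const, Finset.card_univ, nsmul_eq_mul]
    ring
  have hgb : ∀ i x, |g i x| ≤ 1 := by
    intro i x
    obtain ⟨p0, p1⟩ := pE_mem (E i)
    have i0 := ind_nonneg (E i x)
    have i1 := ind_le_one (E i x)
    simp only [hg]
    rw [abs_le]
    constructor <;> linarith
  set P : ι → Finset (Fin N → Ω) := fun i =>
    Finset.univ.filter (fun xs => N * τ < ∑ j, g i (xs j)) with hP
  set M : ι → Finset (Fin N → Ω) := fun i =>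
    Finset.univ.filter (fun xs => N * τ < ∑ j, (-(g i (xs j)))) with hM
  have hsub : (Finset.univ.filter (fun xs : Fin N → Ω =>
      ∃ i, τ < |(cE (E i) xs : ℝ) / N - pE (E i)|)) ⊆
      (Finset.univ : Finset ι).biUnion (fun i => P i ∪ M i) := by
    intro xs hxs
    rw [Finset.mem_filter] at hxs
    obtain ⟨i, hi⟩ := hxs.2
    rw [Finset.mem_biUnion]
    refine ⟨i, Finset.mem_univ _, ?_⟩
    have hsum : ∑ j, g i (xs j) = (cE (E i) xs : ℝ) - N * pE (E i) := by
      simp only [hg]
      rw [Finset.sum_sub_distrib, ← cE_eq]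
      simp
    rw [Finset.mem_union]
    rcases lt_abs.mp hi with h | h
    · left
      simp only [hP, Finset.mem_filter, Finset.mem_univ, true_and]
      rw [hsum]
      have : τ * N < ((cE (E i) xs : ℝ) / N - pE (E i)) * N := mul_lt_mul_of_pos_right h hN0
      rw [sub_mul, div_mul_cancel₀ _ hN0.ne'] at this
      linarith
    · right
      simp only [hM, Finset.mem_filter, Finset.mem_univ, true_and]
      rw [Finset.sum_neg_distrib, hsum]
      have : τ * N < -((cE (E i) xs : ℝ) / N - pE (E i)) * N := mul_lt_mul_of_pos_right h hN0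
      rw [neg_mul, sub_mul, div_mul_cancel₀ _ hN0.ne'] at this
      linarith
  set Bd : ℝ := (Fintype.card Ω : ℝ) ^ N * Real.exp (-(τ ^ 2 * N / 4)) with hBd
  have h1 : ((Finset.univ.filter (fun xs : Fin N → Ω =>
      ∃ i, τ < |(cE (E i) xs : ℝ) / N - pE (E i)|)).card : ℝ) ≤
      ∑ i : ι, (((P i).card : ℝ) + ((M i).card : ℝ)) := by
    have h2 := (Finset.card_le_card hsub).trans Finset.card_biUnion_le
    have h3 : ∑ i : ι, (P i ∪ M i).card ≤ ∑ i : ι, ((P i).card + (M i).card) :=
      Finset.sum_le_sum fun q _ => Finset.card_union_le _ _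
    exact_mod_cast h2.trans h3
  refine h1.trans ?_
  calc ∑ i : ι, (((P i).card : ℝ) + ((M i).card : ℝ)) ≤ ∑ _i : ι, (Bd + Bd) := by
        refine Finset.sum_le_sum fun i _ => add_le_add ?_ ?_
        · exact chernoffO (hgb i) (hgm i) hτ hτ1
        · refine chernoffO (g := fun x => -(g i x)) (fun x => ?_) ?_ hτ hτ1
          · rw [abs_neg]; exact hgb i x
          · rw [Finset.sum_neg_distrib, hgm, neg_zero]
    _ = Fintype.card ι * (2 * Bd) := by
        rw [Finset.sum_const, nsmul_eq_mul, Finset.card_univ]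
        ring

end Hoef

theorem card_TmN (n : ℕ) : Fintype.card (Tm n) = 3 ^ n := by
  simp [Tm, Fintype.card_option]

/-! ## The events -/

/-- The example satisfies the term `T` and has the observed label `b`. -/
def evN {n : ℕ} (p q : ℕ) (f : Pt n → Bool) (T : Tm n) (b : Bool) (ω : Pt n × Fin q) : Bool :=
  satT T ω.1 && decide ((f ω.1 ^^ decide ((ω.2 : ℕ) < p)) = b)

/-- The fraction of the points satisfying `T` where `f` has the value `b`. -/
noncomputable def pf {n : ℕ} (f : Pt n → Bool) (T : Tm n) (b : Bool) : ℝ :=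
  Ex (fun x => ind (satT T x) * ind (decide (f x = b)))

theorem cnt_smpN {n N p q : ℕ} (f : Pt n → Bool) (xs : Fin N → Pt n × Fin q) (K : Cj) (T : Tm n)
    (b : Bool) (h : ∀ x : Pt n, satB K (List.ofFn x) = satT T x) :
    cnt (smpN p f xs) K b = cE (evN p q f T b) xs := by
  unfold cnt smpN cE evN
  rw [List.ofFn_eq_map, List.filter_map, List.length_map]
  have h1 : (Finset.univ.filter (fun j => (satT T (xs j).1 &&
      decide ((f (xs j).1 ^^ decide (((xs j).2 : ℕ) < p)) = b)) = true)) =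
      ((List.finRange N).filter ((fun p : List Bool × Bool => satB K p.1 && decide (p.2 = b)) ∘
        fun j => (List.ofFn (xs j).1, f (xs j).1 ^^ decide (((xs j).2 : ℕ) < p)))).toFinset := by
    ext j
    simp [h]
  rw [h1, List.toFinset_card_of_nodup ((List.nodup_finRange N).filter _)]

theorem sum_fin_lt {p q : ℕ} (hpq : p ≤ q) (c d : ℝ) :
    ∑ u : Fin q, (if (u : ℕ) < p then c else d) = p * c + (q - p) * d := by
  have h1 : ∀ u : Fin q, (if (u : ℕ) < p then c else d) =
      (if (u : ℕ) < p then 1 else 0) * (c - d) + d := by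
    intro u; split_ifs <;> ring
  simp only [h1]
  rw [Finset.sum_add_distrib, ← Finset.sum_mul]
  have h2 : ∑ u : Fin q, (if (u : ℕ) < p then (1 : ℝ) else 0) = p := by
    rw [Finset.sum_boole]
    have h3 : (Finset.univ.filter (fun u : Fin q => (u : ℕ) < p)).card = p := by
      rw [Fin.card_filter_val_lt]
      exact min_eq_right hpq
    exact_mod_cast h3
  rw [h2]
  simp only [Finset.sum_const, Finset.card_univ, Fintype.card_fin, nsmul_eq_mul]
  ring

theorem pE_evN {n p q : ℕ} (hpq : 2 * p < q) (f : Pt n → Bool) (T : Tm n) (b : Bool) :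
    q * pE (evN p q f T b) = (q - p) * pf f T b + p * pf f T (!b) := by
  have : Nonempty (Fin q) := ⟨⟨0, by omega⟩⟩
  have hq : (0 : ℝ) < q := by exact_mod_cast (by omega : 0 < q)
  have h1 := pE_eq (evN p q f T b)
  have h2 : ∑ ω : Pt n × Fin q, ind (evN p q f T b ω) =
      ∑ x : Pt n, (ind (satT T x) * (p * ind (decide (f x = !b)) +
        (q - p) * ind (decide (f x = b)))) := by
    rw [Fintype.sum_prod_type]
    refine Finset.sum_congr rfl fun x _ => ?_
    rw [← sum_fin_lt (by omega : p ≤ q), Finset.mul_sum]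
    refine Finset.sum_congr rfl fun u _ => ?_
    unfold evN
    by_cases hu : (u : ℕ) < p
    · cases f x <;> cases b <;> cases satT T x <;> simp [hu, ind]
    · cases f x <;> cases b <;> cases satT T x <;> simp [hu, ind]
  rw [h2] at h1
  have hcard : (Fintype.card (Pt n × Fin q) : ℝ) = 2 ^ n * q := by
    simp [Fintype.card_prod]
  rw [hcard] at h1
  have h3 : (q - p) * pf f T b + p * pf f T (!b) =
      (∑ x : Pt n, (ind (satT T x) * (p * ind (decide (f x = !b)) +
        (q - p) * ind (decide (f x = b))))) / 2 ^ n := by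
    unfold pf Ex
    rw [mul_div_assoc', mul_div_assoc', ← add_div, Finset.mul_sum, Finset.mul_sum,
      ← Finset.sum_add_distrib]
    congr 1
    refine Finset.sum_congr rfl fun x _ => ?_
    ring
  rw [h3, ← h1]
  field_simp

theorem pf_close {n : ℕ} (F : Finset (Tm n)) (f : Pt n → Bool) (T : Tm n) (b : Bool) :
    |pf f T b - prb F T b| ≤ (Finset.univ.filter (fun x => f x ≠ on F x)).card / 2 ^ n := by
  have h1 : ((Finset.univ.filter (fun x => f x ≠ on F x)).card : ℝ) / 2 ^ n =
      Ex (fun x => if f x ≠ on F x then 1 else 0) := by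
    unfold Ex
    rw [Finset.sum_boole]
  rw [h1]
  unfold pf prb
  rw [← Ex_sub]
  refine (abs_Ex_le _).trans (Ex_mono fun x => ?_)
  by_cases h2 : f x = on F x
  · rw [h2]; simp
  · rw [if_pos h2, ← mul_sub, abs_mul]
    have h3 : |ind (satT T x)| ≤ 1 := by
      rw [abs_of_nonneg (ind_nonneg _)]; exact ind_le_one _
    have h4 : |ind (decide (f x = b)) - ind (decide (on F x = b))| ≤ 1 := by
      have a1 := ind_nonneg (decide (f x = b))
      have a2 := ind_le_one (decide (f x = b))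
      have a3 := ind_nonneg (decide (on F x = b))
      have a4 := ind_le_one (decide (on F x = b))
      rw [abs_le]; constructor <;> linarith
    exact mul_le_one₀ h3 (abs_nonneg _) h4

theorem prb_nonnegN {n : ℕ} (F : Finset (Tm n)) (T : Tm n) (b : Bool) : 0 ≤ prb F T b :=
  Ex_nonneg fun _ => mul_nonneg (ind_nonneg _) (ind_nonneg _)

/-- If all frequencies are close to the probabilities then the statistics are good. -/
theorem good_of_close {n N p q w R : ℕ} (F : Finset (Tm n)) (f : Pt n → Bool)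
    (xs : Fin N → Pt n × Fin q) (hpq : 2 * p < q) (hw : q ≤ w * (q - 2 * p)) (hR : 1 ≤ R)
    (hf : 2 * R * (Finset.univ.filter (fun x => f x ≠ on F x)).card ≤ 2 ^ n) (hN : 1 ≤ N)
    (hc : ∀ T b, |(cE (evN p q f T b) xs : ℝ) / N - pE (evN p q f T b)| ≤ 1 / (2 * w * R)) :
    GoodV (1 / (R : ℝ)) F (valS p q (smpN p f xs)) (zerS p q R (smpN p f xs))
      (N * ((q : ℝ) - 2 * p)) ((smpN p f xs).map Prod.fst) := by
  have : Nonempty (Fin q) := ⟨⟨0, by omega⟩⟩
  have hw1 : 1 ≤ w := by
    rcases Nat.eq_zero_or_pos w with h | h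
    · subst h; omega
    · exact h
  have hN0 : (0 : ℝ) < N := by exact_mod_cast hN
  have hR0 : (0 : ℝ) < R := by exact_mod_cast hR
  have hw0 : (0 : ℝ) < w := by exact_mod_cast hw1
  have hp0 : (0 : ℝ) ≤ p := by positivity
  have hq0 : (0 : ℝ) < (q : ℝ) - 2 * p := by
    have : ((2 * p : ℕ) : ℝ) < q := by exact_mod_cast hpq
    push_cast at this
    linarith
  have hw' : (q : ℝ) ≤ w * ((q : ℝ) - 2 * p) := by
    have h1 : ((q : ℕ) : ℝ) ≤ ((w * (q - 2 * p) : ℕ) : ℝ) := by exact_mod_cast hw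
    rw [Nat.cast_mul, Nat.cast_sub hpq.le] at h1
    push_cast at h1
    exact h1
  have hM : (0 : ℝ) < N * ((q : ℝ) - 2 * p) := by positivity
  have hρ : ((Finset.univ.filter (fun x => f x ≠ on F x)).card : ℝ) / 2 ^ n ≤ 1 / (2 * R) := by
    rw [div_le_div_iff₀ (by positivity) (by positivity)]
    have : ((2 * R * (Finset.univ.filter (fun x => f x ≠ on F x)).card : ℕ) : ℝ) ≤
      ((2 ^ n : ℕ) : ℝ) := by exact_mod_cast hf
    push_cast at this
    linarith
  -- the real value
  have hV : ∀ T b, |((q : ℝ) * cE (evN p q f T b) xs - p * (cE (evN p q f T b) xs +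
      cE (evN p q f T (!b)) xs)) / (N * ((q : ℝ) - 2 * p)) - prb F T b| ≤ 1 / R := by
    intro T b
    have h1 := hc T b
    have h2 := hc T (!b)
    have h3 := pE_evN hpq f T b
    have h4 := pE_evN hpq f T (!b)
    rw [Bool.not_not] at h4
    have h5 := pf_close F f T b
    set c1 := (cE (evN p q f T b) xs : ℝ) with hc1
    set c2 := (cE (evN p q f T (!b)) xs : ℝ) with hc2
    set P1 := pE (evN p q f T b)
    set P2 := pE (evN p q f T (!b))
    set x1 := pf f T b
    set x2 := pf f T (!b)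
    have h6 : ((q : ℝ) - p) * P1 - p * P2 = (q - 2 * p) * x1 := by
      have hq' : (0 : ℝ) < q := by linarith
      have h7 : (q : ℝ) * (((q : ℝ) - p) * P1 - p * P2) = q * ((q - 2 * p) * x1) := by
        calc (q : ℝ) * (((q : ℝ) - p) * P1 - p * P2) = (q - p) * (q * P1) - p * (q * P2) := by ring
          _ = _ := by rw [h3, h4]; ring
      exact mul_left_cancel₀ hq'.ne' h7
    have h8 : ((q : ℝ) * c1 - p * (c1 + c2)) / (N * ((q : ℝ) - 2 * p)) - x1 =
        ((q - p) * (c1 / N - P1) - p * (c2 / N - P2)) / ((q : ℝ) - 2 * p) := by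
      rw [eq_div_iff hq0.ne']
      have h9 : ((q : ℝ) * c1 - p * (c1 + c2)) / (N * ((q : ℝ) - 2 * p)) * ((q : ℝ) - 2 * p) =
          ((q : ℝ) * c1 - p * (c1 + c2)) / N := by
        rw [← div_div, div_mul_cancel₀ _ hq0.ne']
      rw [sub_mul, h9]
      have h10 : x1 * ((q : ℝ) - 2 * p) = ((q : ℝ) - p) * P1 - p * P2 := by rw [h6]; ring
      rw [h10]
      field_simp
      ring
    have h11 : |((q : ℝ) * c1 - p * (c1 + c2)) / (N * ((q : ℝ) - 2 * p)) - x1| ≤ 1 / (2 * R) := by
      rw [h8, abs_div, abs_of_pos hq0, div_le_iff₀ hq0]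
      have hqp : (0 : ℝ) ≤ (q : ℝ) - p := by linarith
      have h12 : |((q : ℝ) - p) * (c1 / N - P1) - p * (c2 / N - P2)| ≤
          (q - p) * (1 / (2 * w * R)) + p * (1 / (2 * w * R)) := by
        refine (abs_sub _ _).trans ?_
        rw [abs_mul, abs_mul, abs_of_nonneg hqp, abs_of_nonneg hp0]
        gcongr
      refine h12.trans ?_
      have h13 : (q - p) * (1 / (2 * (w : ℝ) * R)) + p * (1 / (2 * w * R)) = q / (2 * w * R) := by
        ring
      rw [h13, div_le_iff₀ (by positivity)]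
      calc (q : ℝ) ≤ w * ((q : ℝ) - 2 * p) := hw'
        _ = 1 / (2 * R) * ((q : ℝ) - 2 * p) * (2 * w * R) := by field_simp
    have h14 : (1 : ℝ) / R = 1 / (2 * R) + 1 / (2 * R) := by field_simp; norm_num
    rw [h14]
    calc _ ≤ |((q : ℝ) * c1 - p * (c1 + c2)) / (N * ((q : ℝ) - 2 * p)) - x1| +
          |x1 - prb F T b| := abs_sub_le _ _ _
      _ ≤ _ := add_le_add h11 (h5.trans hρ)
  -- truncation
  have hval : ∀ (K : Cj) (T : Tm n) (b : Bool), (∀ x : Pt n, satB K (List.ofFn x) = satT T x) →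
      |(valS p q (smpN p f xs) K b : ℝ) / (N * ((q : ℝ) - 2 * p)) - prb F T b| ≤ 1 / R := by
    intro K T b hK
    have h1 := hV T b
    have h2 : cnt (smpN p f xs) K false + cnt (smpN p f xs) K true =
        cE (evN p q f T b) xs + cE (evN p q f T (!b)) xs := by
      rw [cnt_smpN f xs K T false hK, cnt_smpN f xs K T true hK]
      cases b
      · rfl
      · rw [Bool.not_true]; exact Nat.add_comm _ _
    have h3 : valS p q (smpN p f xs) K b = q * cE (evN p q f T b) xs -
        p * (cE (evN p q f T b) xs + cE (evN p q f T (!b)) xs) := by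
      unfold valS
      rw [h2, cnt_smpN f xs K T b hK]
    rw [h3]
    by_cases h4 : p * (cE (evN p q f T b) xs + cE (evN p q f T (!b)) xs) ≤
        q * cE (evN p q f T b) xs
    · rw [Nat.cast_sub h4]
      push_cast
      exact h1
    · push Not at h4
      rw [Nat.sub_eq_zero_of_le h4.le, Nat.cast_zero, zero_div, zero_sub, abs_neg,
        abs_of_nonneg (prb_nonnegN _ _ _)]
      have h5 : ((q * cE (evN p q f T b) xs : ℕ) : ℝ) <
          ((p * (cE (evN p q f T b) xs + cE (evN p q f T (!b)) xs) : ℕ) : ℝ) := by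
        exact_mod_cast h4
      push_cast at h5
      have h6 : ((q : ℝ) * cE (evN p q f T b) xs - p * (cE (evN p q f T b) xs +
        cE (evN p q f T (!b)) xs)) / (N * ((q : ℝ) - 2 * p)) ≤ 0 :=
        div_nonpos_of_nonpos_of_nonneg (by linarith) hM.le
      rw [abs_le] at h1
      linarith [h1.1]
  refine ⟨hM, hval, ?_, ?_, ?_, ?_⟩
  · intro K T _
    unfold zerS
    have hlen : (smpN p f xs).length = N := by simp [smpN]
    rw [hlen, decide_eq_true_eq, div_le_div_iff₀ hM hR0, one_mul]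
    have h1 : (N : ℝ) * ((q : ℝ) - 2 * p) = (((q - 2 * p) * N : ℕ) : ℝ) := by
      rw [Nat.cast_mul, Nat.cast_sub hpq.le]
      push_cast
      ring
    rw [h1]
    constructor
    · intro h
      have : ((R * valS p q (smpN p f xs) K false : ℕ) : ℝ) ≤ (((q - 2 * p) * N : ℕ) : ℝ) := by
        exact_mod_cast h
      push_cast at this ⊢
      linarith
    · intro h
      have : ((R * valS p q (smpN p f xs) K false : ℕ) : ℝ) ≤ (((q - 2 * p) * N : ℕ) : ℝ) := by
        push_cast at h ⊢
        linarith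
      exact_mod_cast this
  · intro T hT
    by_contra hno
    push Not at hno
    have h0 : ∀ b, cE (evN p q f T b) xs = 0 := by
      intro b
      unfold cE
      rw [Finset.card_eq_zero, Finset.filter_eq_empty_iff]
      intro j _ hj
      unfold evN at hj
      rw [Bool.and_eq_true] at hj
      refine hno (xs j).1 ?_ hj.1
      rw [List.mem_map]
      refine ⟨(List.ofFn (xs j).1, f (xs j).1 ^^ decide (((xs j).2 : ℕ) < p)), ?_, rfl⟩
      unfold smpN
      rw [List.mem_ofFn]
      exact ⟨j, rfl⟩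
    have h1 := hV T false
    have h2 := hV T true
    rw [h0, h0] at h1 h2
    simp only [Nat.cast_zero, mul_zero, add_zero, sub_zero, zero_div, zero_sub, abs_neg] at h1 h2
    rw [abs_of_nonneg (prb_nonnegN _ _ _)] at h1 h2
    have h3 : prb F T false + prb F T true = (1 / 2) ^ len T := by
      rw [← Ex_satT, prb, prb, ← Ex_add]
      refine Ex_congr fun x => ?_
      cases on F x <;> simp [ind]
    have h4 : (0 : ℝ) < 1 / R := by positivity
    linarith
  · intro x hx
    rw [List.mem_map] at hx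
    obtain ⟨a, ha, rfl⟩ := hx
    unfold smpN at ha
    rw [List.mem_ofFn] at ha
    obtain ⟨j, rfl⟩ := ha
    exact ⟨(xs j).1, rfl⟩
  · intro K b hK
    have h0 : cnt (smpN p f xs) K b = 0 := by
      unfold cnt
      rw [List.length_eq_zero_iff, List.filter_eq_nil_iff]
      intro a ha
      unfold smpN at ha
      rw [List.mem_ofFn] at ha
      obtain ⟨j, rfl⟩ := ha
      simp [hK (xs j).1]
    unfold valS
    rw [h0, mul_zero, Nat.zero_sub, Nat.cast_zero, zero_div]
    positivity

theorem t_GOOD2 : S_GOOD2 := by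
  classical
  intro n N d p q w R F f hpq hw hR hf hN
  have : Nonempty (Fin q) := ⟨⟨0, by omega⟩⟩
  have hw1 : 1 ≤ w := by
    rcases Nat.eq_zero_or_pos w with h | h
    · subst h; omega
    · exact h
  have hN1 : 1 ≤ N := by
    refine le_trans ?_ hN
    have : 0 < 32 * w ^ 2 * R ^ 2 * (2 * n + d + 4) := by positivity
    omega
  have hR0 : (0 : ℝ) < R := by exact_mod_cast hR
  have hw0 : (0 : ℝ) < w := by exact_mod_cast hw1
  have hR1' : (1 : ℝ) ≤ R := by exact_mod_cast hR
  have hw1' : (1 : ℝ) ≤ w := by exact_mod_cast hw1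
  set τ : ℝ := 1 / (2 * w * R) with hτ
  have hτ0 : 0 < τ := by rw [hτ]; positivity
  have hτ1 : τ ≤ 1 := by
    rw [hτ, div_le_one (by positivity)]
    nlinarith
  have h1 := unionO (Ω := Pt n × Fin q) hN1 (fun i : Tm n × Bool => evN p q f i.1 i.2) hτ0 hτ1
  have hcard : Nat.card {xs : Fin N → Pt n × Fin q // ¬ GoodV (1 / (R : ℝ)) F
      (valS p q (smpN p f xs)) (zerS p q R (smpN p f xs)) (N * ((q : ℝ) - 2 * p))
      ((smpN p f xs).map Prod.fst)} ≤ (Finset.univ.filter (fun xs : Fin N → Pt n × Fin q =>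
      ∃ i : Tm n × Bool, τ < |(cE (evN p q f i.1 i.2) xs : ℝ) / N - pE (evN p q f i.1 i.2)|)).card := by
    rw [Nat.card_eq_fintype_card, Fintype.card_subtype]
    refine Finset.card_le_card fun xs hxs => ?_
    rw [Finset.mem_filter] at hxs ⊢
    refine ⟨Finset.mem_univ _, ?_⟩
    by_contra hc
    push Not at hc
    exact hxs.2 (good_of_close F f xs hpq hw hR hf hN1 fun T b => hc (T, b))
  have hΩ : (Fintype.card (Pt n × Fin q) : ℝ) = 2 ^ n * q := by
    simp [Fintype.card_prod]
  have hι : (Fintype.card (Tm n × Bool) : ℝ) = 3 ^ n * 2 := by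
    rw [Fintype.card_prod, card_TmN, Fintype.card_bool]
    push_cast
    ring
  rw [hΩ, hι] at h1
  have hexp : Real.exp (-(τ ^ 2 * N / 4)) ≤ Real.exp (-(2 * (2 * n + d + 4))) := by
    refine Real.exp_le_exp.mpr ?_
    have h2 : ((32 * w ^ 2 * R ^ 2 * (2 * n + d + 4) : ℕ) : ℝ) ≤ N := by exact_mod_cast hN
    push_cast at h2
    have h3 : 2 * (2 * (n : ℝ) + d + 4) ≤ τ ^ 2 * N / 4 := by
      have h4 : τ ^ 2 * (32 * (w : ℝ) ^ 2 * R ^ 2 * (2 * n + d + 4)) ≤ τ ^ 2 * N := by gcongr
      have h5 : τ ^ 2 * (32 * (w : ℝ) ^ 2 * R ^ 2 * (2 * n + d + 4)) =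
          8 * (2 * n + d + 4) := by
        rw [hτ]
        field_simp
        ring
      rw [h5] at h4
      linarith
    linarith
  have hnum : (2 : ℝ) ^ d * ((3 ^ n * 2) * (2 * Real.exp (-(2 * (2 * n + d + 4))))) ≤ 1 := by
    have e1 : (2 : ℝ) ≤ Real.exp 1 := by
      have := Real.exp_one_gt_d9
      linarith
    have e2 : (2 : ℝ) ^ d ≤ Real.exp d := by
      calc (2 : ℝ) ^ d ≤ Real.exp 1 ^ d := pow_le_pow_left₀ (by norm_num) e1 d
        _ = Real.exp d := by rw [← Real.exp_nat_mul, mul_one]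
    have e3 : (3 : ℝ) ^ n ≤ Real.exp (2 * n) := by
      calc (3 : ℝ) ^ n ≤ (Real.exp 1 * Real.exp 1) ^ n :=
            pow_le_pow_left₀ (by norm_num) (by nlinarith) n
        _ = Real.exp (2 * n) := by
            rw [← Real.exp_add, ← Real.exp_nat_mul]
            congr 1
            ring
    have e4 : (4 : ℝ) ≤ Real.exp 2 := by
      have : Real.exp 2 = Real.exp 1 * Real.exp 1 := by rw [← Real.exp_add]; norm_num
      rw [this]
      nlinarith
    calc (2 : ℝ) ^ d * ((3 ^ n * 2) * (2 * Real.exp (-(2 * (2 * n + d + 4)))))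
        = (2 ^ d * 3 ^ n * 4) * Real.exp (-(2 * (2 * n + d + 4))) := by ring
      _ ≤ (Real.exp d * Real.exp (2 * n) * Real.exp 2) * Real.exp (-(2 * (2 * n + d + 4))) := by
          refine mul_le_mul_of_nonneg_right ?_ (Real.exp_pos _).le
          refine mul_le_mul (mul_le_mul e2 e3 (by positivity) (Real.exp_pos _).le) e4
            (by norm_num) (by positivity)
      _ = Real.exp (-(2 * n + d + 6)) := by
          rw [← Real.exp_add, ← Real.exp_add, ← Real.exp_add]
          congr 1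
          ring
      _ ≤ 1 := by
          refine Real.exp_le_one_iff.mpr ?_
          have h2 : (0 : ℝ) ≤ n := Nat.cast_nonneg n
          have h3 : (0 : ℝ) ≤ d := Nat.cast_nonneg d
          linarith
  have hA : (0 : ℝ) ≤ (2 ^ n * q) ^ N := by positivity
  have hfin : (2 : ℝ) ^ d * (Nat.card {xs : Fin N → Pt n × Fin q // ¬ GoodV (1 / (R : ℝ)) F
      (valS p q (smpN p f xs)) (zerS p q R (smpN p f xs)) (N * ((q : ℝ) - 2 * p))
      ((smpN p f xs).map Prod.fst)} : ℝ) ≤ (2 ^ n * q) ^ N := by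
    calc (2 : ℝ) ^ d * (Nat.card {xs : Fin N → Pt n × Fin q // ¬ GoodV (1 / (R : ℝ)) F
        (valS p q (smpN p f xs)) (zerS p q R (smpN p f xs)) (N * ((q : ℝ) - 2 * p))
        ((smpN p f xs).map Prod.fst)} : ℝ)
        ≤ 2 ^ d * ((3 ^ n * 2) * (2 * ((2 ^ n * q) ^ N * Real.exp (-(τ ^ 2 * N / 4))))) := by
          refine mul_le_mul_of_nonneg_left (le_trans ?_ h1) (by positivity)
          exact_mod_cast hcard
      _ ≤ 2 ^ d * ((3 ^ n * 2) * (2 * ((2 ^ n * q) ^ N *
            Real.exp (-(2 * (2 * n + d + 4)))))) := by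
          gcongr
      _ = (2 ^ n * q) ^ N * (2 ^ d * ((3 ^ n * 2) * (2 * Real.exp (-(2 * (2 * n + d + 4)))))) := by
          ring
      _ ≤ (2 ^ n * q) ^ N * 1 := mul_le_mul_of_nonneg_left hnum hA
      _ = _ := mul_one _
  exact_mod_cast hfin

end Pool.Agent.Q216.RK
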