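import Pool.Agent.Q216.RK.Stm2

/-!
# The algorithm runs in polynomial time
-/

namespace Pool.Agent.Q216.RK

open Pool.Agent.NPC Pool.Agent.NPC.Poly

variable {α γ : Type} [TEnc α] [TEnc γ]

theorem poly_litB {x : γ → List Bool} {l : γ → ℕ × Bool} (hx : Poly x) (hl : Poly l) :
    Poly (fun c => litB (x c) (l c)) :=
  Poly.decide_eq (Poly.getElem? hx (Poly.fst hl)) (Poly.some (Poly.snd hl))

theorem poly_satB {K : γ → Cj} {x : γ → List Bool} (hK : Poly K) (hx : Poly x) :
    Poly (fun c => satB (K c) (x c)) :=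
  Poly.all (p := fun c l => litB (x c) l) hK (poly_litB (hx.comp (fst id)) (snd id))

theorem poly_cnt {S : γ → Smp} {K : γ → Cj} {b : γ → Bool} (hS : Poly S) (hK : Poly K)
    (hb : Poly b) : Poly (fun c => cnt (S c) (K c) (b c)) :=
  Poly.length (Poly.filter (p := fun c (p : List Bool × Bool) =>
    satB (K c) p.1 && decide (p.2 = b c)) hS
    (Poly.and (poly_satB (hK.comp (fst id)) (fst (snd id)))
      (Poly.decide_eq (snd (snd id)) (hb.comp (fst id)))))

theorem poly_lits {n : γ → ℕ} (hn : UPoly n) : Poly (fun c => lits (n c)) := by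
  unfold lits
  refine Poly.flatMap (F := fun _ j => [(j, false), (j, true)]) hn.range ?_
  exact cons (pair (snd id) (const false)) (cons (pair (snd id) (const true)) (const []))

theorem poly_conjs {l : γ → Cj} (hl : Poly l) (m : ℕ) : Poly (fun c => conjs (l c) m) := by
  induction m with
  | zero => exact const [[]]
  | succ m ih =>
    refine cons (const []) (Poly.flatMap (F := fun c K => (l c).map (fun a => a :: K)) ih ?_)
    exact NPC.Poly.map (F := fun (x : γ × Cj) a => a :: x.2) (hl.comp (fst id))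
      (cons (snd id) (snd (fst id)))

theorem poly_hasVar {K : γ → Cj} {j : γ → ℕ} (hK : Poly K) (hj : Poly j) :
    Poly (fun c => hasVar (K c) (j c)) := by
  unfold hasVar
  exact Poly.any (p := fun c (l : ℕ × Bool) => decide (l.1 = j c)) hK
    (Poly.decide_eq (fst (snd id)) (hj.comp (fst id)))

theorem poly_freshB {π K : γ → Cj} (hπ : Poly π) (hK : Poly K) :
    Poly (fun c => freshB (π c) (K c)) := by
  unfold freshB
  refine Poly.all (p := fun c l => !(hasVar (π c) l.1) &&
    decide (((K c).filter (fun m => decide (m.1 = l.1))).length ≤ 1)) hK ?_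
  refine Poly.and (Poly.not (poly_hasVar (hπ.comp (fst id)) (fst (snd id)))) ?_
  refine Poly.decide_le (Poly.length (Poly.filter (p := fun (x : γ × ℕ × Bool) m =>
    decide (m.1 = x.2.1)) (hK.comp (fst id)) ?_)) (const 1)
  exact Poly.decide_eq (fst (snd id)) (fst (snd (fst id)))

section Gen

variable {vv : α → Sta} {zz : α → Cj → Bool} {u : γ → α}

theorem poly_adm (hz : Poly (fun x : α × Cj => zz x.1 x.2)) (hu : Poly u) {C : γ → List Cj}
    {π : γ → Cj} (hC : Poly C) (hπ : Poly π) : Poly (fun c => admV (zz (u c)) (C c) (π c)) := by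
  unfold admV
  refine head? (Poly.filter (p := fun c K => freshB (π c) K && zz (u c) (π c ++ K)) hC ?_)
  exact Poly.and (poly_freshB (hπ.comp (fst id)) (snd id))
    (hz.comp (pair (hu.comp (fst id)) (append (hπ.comp (fst id)) (snd id))))

theorem poly_stp (hz : Poly (fun x : α × Cj => zz x.1 x.2)) (hu : Poly u) {C : γ → List Cj}
    {x : γ → List Bool} {π : γ → Cj} (hC : Poly C) (hx : Poly x) (hπ : Poly π) :
    Poly (fun c => stp (admV (zz (u c)) (C c)) (x c) (π c)) := by
  refine (optCases (o := fun c => admV (zz (u c)) (C c) (π c)) (g := fun c => π c)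
    (h := fun c K => π c ++ K.map (fun l => (l.1, (x c).getD l.1 false)))
    (poly_adm hz hu hC hπ) hπ ?_).congr fun c => ?_
  · refine append (hπ.comp (fst id)) (NPC.Poly.map (F := fun (p : γ × Cj) (l : ℕ × Bool) =>
      (l.1, (x p.1).getD l.1 false)) (snd id) ?_)
    exact pair (fst (snd id)) (getD (hx.comp (fst (fst id))) (fst (snd id)) (const false))
  · unfold stp
    cases admV (zz (u c)) (C c) (π c) <;> rfl

theorem sz_map_le (K : Cj) (g : ℕ × Bool → Bool) :
    sz (K.map (fun l => (l.1, g l))) ≤ sz K + 2 * K.length := by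
  induction K with
  | nil => simp
  | cons l K ih =>
    have h1 : sz (l.1, g l) ≤ sz l + 2 := by
      obtain ⟨j, b⟩ := l
      have := sz_bool_le (g (j, b))
      have := sz_pos b
      simp only [sz_pair]
      omega
    simp only [List.map_cons, sz_list_cons, List.length_cons]
    omega

theorem sz_stp_le (Z : Cj → Bool) (C : List Cj) (x : List Bool) (π : Cj) :
    sz (stp (admV Z C) x π) ≤ sz π + 3 * sz C := by
  unfold stp
  cases h : admV Z C π with
  | none => simp
  | some K =>
    have hK : K ∈ C := by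
      unfold admV at h
      exact (List.mem_filter.1 (List.mem_of_mem_head? h)).1
    have h1 := sz_map_le K (fun l => x.getD l.1 false)
    have h2 := sz_le_of_mem hK
    have h3 := length_lt_sz K
    have h4 := sz_append π (K.map (fun l => (l.1, x.getD l.1 false)))
    simp only
    omega

theorem poly_path (hz : Poly (fun x : α × Cj => zz x.1 x.2)) (hu : Poly u) {C : γ → List Cj}
    {x : γ → List Bool} {t : γ → ℕ} (hC : Poly C) (hx : Poly x) (ht : UPoly t) :
    Poly (fun c => path (admV (zz (u c)) (C c)) (x c) (t c)) := by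
  obtain ⟨r, hr⟩ := hC.sz_le
  obtain ⟨r', hr'⟩ := (show Poly (fun c => List.replicate (t c) ()) from ht).sz_le
  refine (iterLen (l := fun c => List.replicate (t c) ()) (s := fun _ => ([] : Cj))
    (F := fun c π => stp (admV (zz (u c)) (C c)) (x c) π) ht (const [])
    (poly_stp hz (hu.comp (fst id)) (hC.comp (fst id)) (hx.comp (fst id)) (snd id))
    (Polynomial.C 1 + r' * (Polynomial.C 3 * r)) ?_).congr fun c => ?_
  · intro c k hk
    have h1 : ∀ k, sz ((fun π => stp (admV (zz (u c)) (C c)) (x c) π)^[k] []) ≤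
        1 + k * (3 * sz (C c)) := by
      intro k
      induction k with
      | zero => simp
      | succ k ih =>
        rw [Function.iterate_succ_apply']
        have := sz_stp_le (zz (u c)) (C c) (x c)
          ((fun π => stp (admV (zz (u c)) (C c)) (x c) π)^[k] [])
        calc _ ≤ _ := this
          _ ≤ 1 + k * (3 * sz (C c)) + 3 * sz (C c) := by omega
          _ = _ := by ring
    refine (h1 k).trans ?_
    simp only [Polynomial.eval_add, Polynomial.eval_mul, Polynomial.eval_C]
    have h2 := hr c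
    have h3 := hr' c
    have h4 := length_lt_sz (List.replicate (t c) ())
    have h5 : k ≤ r'.eval (sz c) := by omega
    gcongr
  · unfold path
    simp

theorem poly_v (hv : Poly (fun x : α × Cj × Bool => vv x.1 x.2.1 x.2.2)) (hu : Poly u)
    {K : γ → Cj} {b : γ → Bool} (hK : Poly K) (hb : Poly b) :
    Poly (fun c => vv (u c) (K c) (b c)) := hv.comp (pair hu (pair hK hb))

theorem poly_agr (hv : Poly (fun x : α × Cj × Bool => vv x.1 x.2.1 x.2.2)) (hu : Poly u)
    {K : γ → Cj} {i j : γ → ℕ} {b : γ → Bool} (hK : Poly K) (hi : Poly i) (hj : Poly j)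
    (hb : Poly b) : Poly (fun c => agrV (vv (u c)) (K c) (i c) (j c) (b c)) := by
  unfold agrV
  refine add (poly_v hv hu (append hK (cons (pair hi (const true)) (cons (pair hj hb)
    (const [])))) (const true)) (poly_v hv hu (append hK (cons (pair hi (const false))
      (cons (pair hj (not hb)) (const [])))) (const true))

theorem poly_adf {a b : γ → ℕ} (ha : Poly a) (hb : Poly b) : Poly (fun c => adf (a c) (b c)) :=
  add (sub ha hb) (sub hb ha)

/-- The list of `P0` and `N0`. -/
theorem poly_PN (hv : Poly (fun x : α × Cj × Bool => vv x.1 x.2.1 x.2.2)) (hu : Poly u)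
    {π Q : γ → Cj} {i : γ → ℕ} {b : γ → Bool} (hπ : Poly π) (hQ : Poly Q) (hi : Poly i)
    (hb : Poly b) : Poly (fun c => vv (u c) (π c ++ Q c ++ [(i c, b c)]) true) :=
  poly_v hv hu (append (append hπ hQ) (cons (pair hi hb) (const []))) (const true)

theorem poly_lam (hv : Poly (fun x : α × Cj × Bool => vv x.1 x.2.1 x.2.2)) (hu : Poly u)
    {n : γ → ℕ} {π Q : γ → Cj} {i : γ → ℕ} (hn : UPoly n) (hπ : Poly π) (hQ : Poly Q)
    (hi : Poly i) : Poly (fun c => lamV (vv (u c)) (n c) (π c) (Q c) (i c)) := by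
  unfold lamV
  refine NPC.Poly.map (F := fun c j => (j, decide (decide (vv (u c) (π c ++ Q c ++ [(i c, false)]) true <
      vv (u c) (π c ++ Q c ++ [(i c, true)]) true) =
      decide (agrV (vv (u c)) (π c ++ Q c) (i c) j false <
        agrV (vv (u c)) (π c ++ Q c) (i c) j true)))) ?_ ?_
  · refine Poly.filter (p := fun c j => !(decide (j = i c)) && !(hasVar (π c) j) &&
      decide (adf (vv (u c) (π c ++ Q c ++ [(i c, true)]) true)
        (vv (u c) (π c ++ Q c ++ [(i c, false)]) true) ≤
      2 * adf (agrV (vv (u c)) (π c ++ Q c) (i c) j true)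
        (agrV (vv (u c)) (π c ++ Q c) (i c) j false))) hn.range ?_
    have hu' : Poly (fun p : γ × ℕ => u p.1) := hu.comp (fst id)
    have hπ' : Poly (fun p : γ × ℕ => π p.1) := hπ.comp (fst id)
    have hQ' : Poly (fun p : γ × ℕ => Q p.1) := hQ.comp (fst id)
    have hi' : Poly (fun p : γ × ℕ => i p.1) := hi.comp (fst id)
    refine Poly.and (Poly.and (Poly.not (Poly.decide_eq (snd id) hi'))
      (Poly.not (poly_hasVar hπ' (snd id)))) ?_
    refine Poly.decide_le (poly_adf (poly_PN hv hu' hπ' hQ' hi' (const true))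
      (poly_PN hv hu' hπ' hQ' hi' (const false))) ?_
    exact mul (const 2) (poly_adf (poly_agr hv hu' (append hπ' hQ') hi' (snd id) (const true))
      (poly_agr hv hu' (append hπ' hQ') hi' (snd id) (const false)))
  · have hu' : Poly (fun p : γ × ℕ => u p.1) := hu.comp (fst id)
    have hπ' : Poly (fun p : γ × ℕ => π p.1) := hπ.comp (fst id)
    have hQ' : Poly (fun p : γ × ℕ => Q p.1) := hQ.comp (fst id)
    have hi' : Poly (fun p : γ × ℕ => i p.1) := hi.comp (fst id)
    refine pair (snd id) (Poly.decide_eq (Poly.decide_lt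
      (poly_PN hv hu' hπ' hQ' hi' (const false)) (poly_PN hv hu' hπ' hQ' hi' (const true)))
      (Poly.decide_lt (poly_agr hv hu' (append hπ' hQ') hi' (snd id) (const false))
        (poly_agr hv hu' (append hπ' hQ') hi' (snd id) (const true))))

theorem poly_cds (hv : Poly (fun x : α × Cj × Bool => vv x.1 x.2.1 x.2.2)) (hu : Poly u)
    {X : γ → List (List Bool)} {n B : γ → ℕ} {π Q : γ → Cj} {i : γ → ℕ} (hX : Poly X)
    (hn : UPoly n) (hB : Poly B) (hπ : Poly π) (hQ : Poly Q) (hi : Poly i) :
    Poly (fun c => cdsV (vv (u c)) (X c) (n c) (B c) (π c) (Q c) (i c)) := by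
  unfold cdsV
  have hlam := poly_lam hv hu hn hπ hQ hi
  refine Poly.ite (p := fun c => (lamV (vv (u c)) (n c) (π c) (Q c) (i c)).length ≤ B c)
    (Poly.decide_le (Poly.length hlam) hB) ?_ (const [])
  refine NPC.Poly.map (F := fun c x => π c ++ (i c, decide (vv (u c) (π c ++ Q c ++ [(i c, false)]) true <
      vv (u c) (π c ++ Q c ++ [(i c, true)]) true)) ::
      (lamV (vv (u c)) (n c) (π c) (Q c) (i c)).filter (fun l => litB x l)) hX ?_
  have hu' : Poly (fun p : γ × List Bool => u p.1) := hu.comp (fst id)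
  have hπ' : Poly (fun p : γ × List Bool => π p.1) := hπ.comp (fst id)
  have hQ' : Poly (fun p : γ × List Bool => Q p.1) := hQ.comp (fst id)
  have hi' : Poly (fun p : γ × List Bool => i p.1) := hi.comp (fst id)
  refine append hπ' (cons (pair hi' (Poly.decide_lt (poly_PN hv hu' hπ' hQ' hi' (const false))
    (poly_PN hv hu' hπ' hQ' hi' (const true)))) ?_)
  refine Poly.filter (p := fun (p : γ × List Bool) l => litB p.2 l) (hlam.comp (fst id)) ?_
  exact poly_litB (snd (fst id)) (snd id)

theorem poly_ctxs (hz : Poly (fun x : α × Cj => zz x.1 x.2)) (hu : Poly u)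
    {X : γ → List (List Bool)} {n t : γ → ℕ} (m : ℕ) (hX : Poly X) (hn : UPoly n) (ht : UPoly t) :
    Poly (fun c => ctxsV (zz (u c)) (X c) (n c) m (t c)) := by
  unfold ctxsV
  refine NPC.Poly.map (F := fun c x => path (admV (zz (u c)) (conjs (lits (n c)) m)) x (t c)) hX ?_
  exact poly_path hz (hu.comp (fst id)) (poly_conjs (poly_lits (hn.comp (fst id))) m) (snd id)
    (ht.comp (fst id))

theorem poly_cands (hv : Poly (fun x : α × Cj × Bool => vv x.1 x.2.1 x.2.2))
    (hz : Poly (fun x : α × Cj => zz x.1 x.2)) (hu : Poly u)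
    {X : γ → List (List Bool)} {n t B : γ → ℕ} (m k : ℕ) (hX : Poly X) (hn : UPoly n)
    (ht : UPoly t) (hB : Poly B) :
    Poly (fun c => candsV (vv (u c)) (zz (u c)) (X c) (n c) m (t c) k (B c)) := by
  unfold candsV
  refine Poly.flatMap (F := fun c π => (conjs (lits (n c)) k).flatMap (fun Q =>
    (List.range (n c)).flatMap (fun i => cdsV (vv (u c)) (X c) (n c) (B c) π Q i)))
    (poly_ctxs hz hu m hX hn ht) ?_
  refine Poly.flatMap (F := fun (p : γ × Cj) Q =>
    (List.range (n p.1)).flatMap (fun i => cdsV (vv (u p.1)) (X p.1) (n p.1) (B p.1) p.2 Q i))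
    (poly_conjs (poly_lits (hn.comp (fst id))) k) ?_
  refine Poly.flatMap (F := fun (p : (γ × Cj) × Cj) i =>
    cdsV (vv (u p.1.1)) (X p.1.1) (n p.1.1) (B p.1.1) p.1.2 p.2 i)
    (UPoly.range (hn.comp (fst (fst id)))) ?_
  exact poly_cds hv (hu.comp (fst (fst (fst id)))) (hX.comp (fst (fst (fst id))))
    (hn.comp (fst (fst (fst id)))) (hB.comp (fst (fst (fst id)))) (snd (fst (fst id)))
    (snd (fst id)) (snd id)

theorem poly_alg (hv : Poly (fun x : α × Cj × Bool => vv x.1 x.2.1 x.2.2))
    (hz : Poly (fun x : α × Cj => zz x.1 x.2)) (hu : Poly u)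
    {X : γ → List (List Bool)} {n t B e : γ → ℕ} (m k : ℕ) (hX : Poly X) (hn : UPoly n)
    (ht : UPoly t) (hB : Poly B) (he : Poly e) :
    Poly (fun c => algV (vv (u c)) (zz (u c)) (X c) (n c) m (t c) k (B c) (e c)) := by
  unfold algV
  refine append ?_ ?_
  · refine Poly.filter (p := fun c π => decide (8 * e c * vv (u c) π false ≤
      vv (u c) π false + vv (u c) π true)) (poly_ctxs hz hu m hX hn ht) ?_
    have hu' : Poly (fun p : γ × Cj => u p.1) := hu.comp (fst id)
    exact Poly.decide_le (mul (mul (const 8) (he.comp (fst id)))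
      (poly_v hv hu' (snd id) (const false)))
      (add (poly_v hv hu' (snd id) (const false)) (poly_v hv hu' (snd id) (const true)))
  · exact Poly.filter (p := fun c K => zz (u c) K) (poly_cands hv hz hu m k hX hn ht hB)
      (hz.comp (pair (hu.comp (fst id)) (snd id)))

end Gen

/-! ## Numbers -/

theorem poly_two_pow {x : γ → ℕ} (hx : UPoly x) : Poly (fun c => 2 ^ x c) := by
  have h1 : Poly (fun c => List.replicate (x c) false ++ [true]) := by
    refine append ?_ (const [true])
    exact (NPC.Poly.map (F := fun _ _ => false) hx (const false)).congr fun c => by simp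
  refine (valBits h1).congr fun c => ?_
  rw [valB_append]
  have h2 : ∀ k : ℕ, valB (List.replicate k false) = 0 := by
    intro k
    induction k with
    | zero => rfl
    | succ k ih => simp [List.replicate_succ, ih]
  rw [h2]
  simp [valB]

theorem poly_pow_const {x : γ → ℕ} (hx : Poly x) (k : ℕ) : Poly (fun c => x c ^ k) := by
  induction k with
  | zero => exact (const 1).congr fun c => by simp
  | succ k ih => exact (mul ih hx).congr fun c => by rw [pow_succ]

theorem upoly_size {x : γ → ℕ} (hx : Poly x) : UPoly (fun c => Nat.size (x c)) :=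
  (UPoly.length (natBits hx)).congr fun c => by
    show List.replicate ((x c).bits.length) () = List.replicate ((x c).size) ()
    rw [Nat.size_eq_bits_len]

theorem upoly_tT {e : γ → ℕ} (he : Poly e) (m : ℕ) : UPoly (fun c => tT m (e c)) :=
  UPoly.mul (UPoly.const (2 ^ m)) (upoly_size (mul (const 8) he))

theorem upoly_bB {n e : γ → ℕ} (hn : Poly n) (he : Poly e) (k : ℕ) :
    UPoly (fun c => bB k (n c) (e c)) :=
  UPoly.mul (UPoly.const 2) (UPoly.add
    (upoly_size (mul (mul (const 8) (succ (mul (const k) hn))) he)) (UPoly.const k))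

theorem poly_Rr {n e : γ → ℕ} (hn : Poly n) (he : Poly e) (k m : ℕ) :
    Poly (fun c => Rr k m (n c) (e c)) := by
  unfold Rr
  refine mul (mul (mul (mul (mul (const 1024) he) (poly_two_pow (UPoly.mul (UPoly.const m)
    (upoly_tT he m)))) ?_) (poly_pow_const (succ (mul (const 2) hn)) k)) (succ hn)
  have h1 := poly_two_pow (upoly_bB hn he k)
  refine (mul h1 h1).congr fun c => ?_
  rw [← mul_pow]
  norm_num

theorem poly_valS {p q : γ → ℕ} {S : γ → Smp} {K : γ → Cj} {b : γ → Bool} (hp : Poly p)
    (hq : Poly q) (hS : Poly S) (hK : Poly K) (hb : Poly b) :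
    Poly (fun c => valS (p c) (q c) (S c) (K c) (b c)) := by
  unfold valS
  exact sub (mul hq (poly_cnt hS hK hb)) (mul hp (add (poly_cnt hS hK (const false))
    (poly_cnt hS hK (const true))))

theorem poly_zerS {p q R : γ → ℕ} {S : γ → Smp} {K : γ → Cj} (hp : Poly p)
    (hq : Poly q) (hR : Poly R) (hS : Poly S) (hK : Poly K) :
    Poly (fun c => zerS (p c) (q c) (R c) (S c) (K c)) := by
  unfold zerS
  exact Poly.decide_le (mul hR (poly_valS hp hq hS hK (const false)))
    (mul (sub hq (mul (const 2) hp)) (Poly.length hS))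

theorem upoly_dimS {S : γ → Smp} (hS : Poly S) : UPoly (fun c => dimS (S c)) :=
  UPoly.length (fst (head?_getD hS ([], false)))

theorem t_POLY2 : S_POLY2 := by
  intro k m
  have he : Poly (fun a : List Unit × (ℕ × ℕ) × Smp => a.1.length) := Poly.length (fst id)
  have hp : Poly (fun a : List Unit × (ℕ × ℕ) × Smp => a.2.1.1) := fst (fst (snd id))
  have hq : Poly (fun a : List Unit × (ℕ × ℕ) × Smp => a.2.1.2) := snd (fst (snd id))
  have hS : Poly (fun a : List Unit × (ℕ × ℕ) × Smp => a.2.2) := snd (snd id)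
  have hn : UPoly (fun a : List Unit × (ℕ × ℕ) × Smp => dimS a.2.2) := upoly_dimS hS
  unfold algN
  refine poly_alg (vv := fun a : List Unit × (ℕ × ℕ) × Smp => valS a.2.1.1 a.2.1.2 a.2.2)
    (zz := fun a : List Unit × (ℕ × ℕ) × Smp =>
      zerS a.2.1.1 a.2.1.2 (Rr k m (dimS a.2.2) a.1.length) a.2.2) (u := fun a => a)
    ?_ ?_ id m k ?_ hn (upoly_tT he m) (UPoly.toPoly (upoly_bB hn.toPoly he k)) he
  · exact poly_valS (hp.comp (fst id)) (hq.comp (fst id)) (hS.comp (fst id)) (fst (snd id))
      (snd (snd id))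
  · exact poly_zerS (hp.comp (fst id)) (hq.comp (fst id))
      ((poly_Rr hn.toPoly he k m).comp (fst id)) (hS.comp (fst id)) (snd id)
  · exact NPC.Poly.map (F := fun _ (s : List Bool × Bool) => s.1) hS (fst (snd id))

end Pool.Agent.Q216.RK
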