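import Pool.Agent.Q216.RK.Defs
import Pool.Agent.NPC.Num

/-!
# Read-k DNF formulas: the statements of the lemmas
-/

namespace Pool.Agent.Q216.RK

/-! ## Averages -/

/-- Functions of disjoint sets of coordinates are independent. -/
def S_IND : Prop := ∀ (n : ℕ) (A B : Finset (Fin n)) (f g : Pt n → ℝ), Dep A f → Dep B g →
  Disjoint A B → Ex (fun x => f x * g x) = Ex f * Ex g

/-- Choosing a point in two steps. -/
def S_OV : Prop := ∀ (n : ℕ) (Y : Finset (Fin n)) (f : Pt n → ℝ),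
  Ex f = Ex (fun y => Ex (fun x => f (ov Y y x)))

/-- The fraction of the cube satisfying a term. -/
def S_TERM : Prop := ∀ (n : ℕ) (T : Tm n), Ex (fun x => ind (satT T x)) = (1 / 2) ^ len T

/-! ## Read-k families of long terms -/

/-- A local lemma for read-k families of long terms. -/
def S_LLL : Prop := ∀ (k l n : ℕ) (F : Finset (Tm n)), ReadK k F → (∀ T ∈ F, l ≤ len T) →
  10 * k * (3 / 4 : ℝ) ^ l ≤ 1 →
  (∀ T : Tm n, Ex (fun x => ind (satT T x) * ind (!(on F x))) ≤ (3 / 4) ^ len T * off F) ∧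
  (∀ F1 ⊆ F, (1 - (3 / 4 : ℝ) ^ l) ^ (F \ F1).card * off F1 ≤ off F) ∧ (1 ≤ l → 0 < off F)

/-- Closures. -/
def S_CL : Prop := ∀ (k l m n : ℕ) (F : Finset (Tm n)), 1 ≤ k → 1 ≤ l → 4 * k * l ≤ m →
  ReadK k F → (∀ T ∈ F, m ≤ len T) → ∀ A : Finset (Fin n), ∃ Y : Finset (Fin n), A ⊆ Y ∧
  3 * Y.card ≤ 4 * A.card ∧ ∀ T ∈ F, vars T ⊆ Y ∨ l ≤ (vars T \ Y).card

/-- For every term there is a point where it is the only satisfied term. -/
def Irr {n : ℕ} (F : Finset (Tm n)) : Prop :=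
  ∀ T ∈ F, ∃ z : Pt n, ∀ T' ∈ F, satT T' z = true ↔ T' = T

/-- Sensitive points of the terms. -/
def S_SENS : Prop := ∀ (k l m n : ℕ) (F : Finset (Tm n)), 1 ≤ k → 1 ≤ l →
  10 * k * (3 / 4 : ℝ) ^ l ≤ 1 → 4 * k * l ≤ m → ReadK k F → (∀ T ∈ F, m ≤ len T) → Irr F →
  ∀ T ∈ F, ∃ (i : Fin n) (z : Pt n), T i ≠ none ∧ (∀ T' ∈ F, satT T' z = true ↔ T' = T) ∧
    on F (flp z i) = false

/-- `Q` kills all the terms except `T` that contain the variable `i`. -/
def Kill {n : ℕ} (F : Finset (Tm n)) (T Q : Tm n) (i : Fin n) : Prop :=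
  Q i = none ∧ ∀ T' ∈ F, T' ≠ T → T' i ≠ none → ∃ j b, j ≠ i ∧ Q j = some b ∧ T' j = some (!b)

/-- A short conjunction that isolates the term `T` at the variable `i`. -/
def S_ISO : Prop := ∀ (k n : ℕ) (F : Finset (Tm n)), ReadK k F → ∀ T ∈ F, ∀ (i : Fin n)
  (z : Pt n), T i ≠ none → (∀ T' ∈ F, satT T' z = true ↔ T' = T) → on F (flp z i) = false →
  ∃ Q : Tm n, len Q + 1 ≤ k ∧ satT Q z = true ∧ Kill F T Q i ∧
    ∀ j, Q j ≠ none → ∃ T' ∈ F, T' j ≠ none

/-- The correlation of the formula with the variable `i` on the points satisfying `Q`. -/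
noncomputable def C0 {n : ℕ} (F : Finset (Tm n)) (Q : Tm n) (i : Fin n) : ℝ :=
  Ex (fun x => ind (on F x) * ind (satT Q x) * sg (x i))

/-- The correlation of the formula with a product of two variables on the points satisfying
`Q`. -/
noncomputable def C1 {n : ℕ} (F : Finset (Tm n)) (Q : Tm n) (i j : Fin n) : ℝ :=
  Ex (fun x => ind (on F x) * ind (satT Q x) * (sg (x i) * sg (x j)))

/-- The pivotal identity. -/
def S_PIV : Prop := ∀ (n : ℕ) (F : Finset (Tm n)) (T Q : Tm n) (i : Fin n) (a : Bool)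
  (h : Pt n → ℝ), T ∈ F → T i = some a → Kill F T Q i → (∀ x, h (flp x i) = h x) →
  Ex (fun x => ind (on F x) * ind (satT Q x) * (sg (x i) * h x)) =
    sg a / 2 * Ex (fun x => ind (satT Q x) * ind (satT (cut T {i}) x) *
      ind (!(on (F.filter (fun T' => T' i = none)) x)) * h x)

/-- Lower bound for the fraction of the points satisfying `R` and no term. -/
def S_LOW : Prop := ∀ (k l n : ℕ) (F : Finset (Tm n)) (Y : Finset (Fin n)) (R : Tm n) (z : Pt n),
  ReadK k F → (∀ T ∈ F, l ≤ len T) → 10 * k * (3 / 4 : ℝ) ^ l ≤ 1 →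
  (∀ T ∈ F, vars T ⊆ Y ∨ l ≤ (vars T \ Y).card) → vars R ⊆ Y → satT R z = true →
  on F z = false → (1 / 4) ^ Y.card * off F ≤ Ex (fun x => ind (satT R x) * ind (!(on F x)))

/-- Variables are nearly uncorrelated with the event that no term is satisfied. -/
def S_UP0 : Prop := ∀ (k l n : ℕ) (F : Finset (Tm n)) (j : Fin n), ReadK k F →
  (∀ T ∈ F, l ≤ len T) → 10 * k * (3 / 4 : ℝ) ^ l ≤ 1 →
  |Ex (fun x => ind (!(on F x)) * sg (x j))| ≤ 1 / 4 * off F

/-- The same, on the points satisfying `R`, for variables outside a closed set. -/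
def S_UP : Prop := ∀ (k l n : ℕ) (F : Finset (Tm n)) (Y : Finset (Fin n)) (R : Tm n) (j : Fin n),
  ReadK k F → 10 * k * (3 / 4 : ℝ) ^ l ≤ 1 →
  (∀ T ∈ F, vars T ⊆ Y ∨ l ≤ (vars T \ Y).card) → vars R ⊆ Y → j ∉ Y →
  |Ex (fun x => ind (satT R x) * ind (!(on F x)) * sg (x j))| ≤
    1 / 4 * Ex (fun x => ind (satT R x) * ind (!(on F x)))

/-- The statistics at an isolated term. -/
def S_STAT : Prop := ∀ (k l m n : ℕ) (F : Finset (Tm n)) (T Q : Tm n) (i : Fin n) (a : Bool)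
  (z : Pt n), 1 ≤ k → 1 ≤ l → 10 * k * (3 / 4 : ℝ) ^ l ≤ 1 → 4 * k * l ≤ m → ReadK k F →
  (∀ T ∈ F, m ≤ len T) → T ∈ F → T i = some a → (∀ T' ∈ F, satT T' z = true ↔ T' = T) →
  satT Q z = true → Kill F T Q i →
  ∃ Y : Finset (Fin n), vars T ⊆ Y ∧ 3 * Y.card ≤ 4 * (len T + len Q) ∧
    1 / 2 * (1 / 4) ^ Y.card * off F ≤ sg a * C0 F Q i ∧
    (∀ j b, j ≠ i → T j = some b → C1 F Q i j = sg b * C0 F Q i) ∧
    (∀ j, j ∉ Y → |C1 F Q i j| ≤ |C0 F Q i| / 4)

/-- The number of terms of a read-k family. -/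
def S_CARD : Prop := ∀ (k n : ℕ) (F : Finset (Tm n)), ReadK k F → F.card ≤ k * n + 1

/-- Restriction to the points satisfying `R`, and an irredundant subfamily. -/
def S_RES : Prop := ∀ (k n : ℕ) (F : Finset (Tm n)) (R : Tm n), ReadK k F →
  ∃ F' : Finset (Tm n), ReadK k F' ∧ Irr F' ∧ (∀ T ∈ F', Disjoint (vars T) (vars R)) ∧
    (∀ x, satT R x = true → on F x = on F' x) ∧
    ∀ T ∈ F', ∃ T0 ∈ F, len T ≤ len T0 ∧ ∀ x, satT R x = true → satT T x = satT T0 x

/-! ## The decision tree -/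

/-- Each answer of `A` is a list of at most `m` literals with distinct variables below `n`, outside
the context. -/
def Fair (n m : ℕ) (A : Cj → Option Cj) : Prop :=
  ∀ π K, A π = some K → K.length ≤ m ∧ freshB π K = true ∧ ∀ l ∈ K, l.1 < n

/-- In each of the first `t` steps the point is asked for a nonempty conjunction that it does not
satisfy. -/
def aliveB (A : Cj → Option Cj) (x : List Bool) (t : ℕ) : Bool :=
  (List.range t).all (fun s =>
    match A (path A x s) with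
    | some K => !K.isEmpty && !(satB K x)
    | none => false)

/-- The fraction of the points alive after `t` steps. -/
def S_DEPTH : Prop := ∀ (n m : ℕ) (A : Cj → Option Cj), Fair n m A → ∀ t,
  Ex (fun x : Pt n => ind (aliveB A (List.ofFn x) t)) ≤ (1 - (1 / 2) ^ m) ^ t

/-- The rule of the algorithm is fair. -/
def S_FAIR : Prop := ∀ (n m : ℕ) (S : Smp), Fair n m (adm S (conjs (lits n) m))

/-- What happens at the points that are not alive. -/
def S_STOP : Prop := ∀ (S : Smp) (C : Cj) (m t : ℕ) (x : List Bool),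
  aliveB (adm S (conjs C m)) x t = false →
  adm S (conjs C m) (path (adm S (conjs C m)) x t) = none ∨
    cnt S (path (adm S (conjs C m)) x t) false = 0

/-- The context has distinct variables below `n`. -/
def Wf (n : ℕ) (K : Cj) : Prop := (K.map Prod.fst).Nodup ∧ ∀ l ∈ K, l.1 < n

/-- The structure of the tree of contexts. -/
def S_TREE : Prop := ∀ (n m : ℕ) (A : Cj → Option Cj), Fair n m A → ∀ t,
  (∀ x : Pt n, Wf n (path A (List.ofFn x) t) ∧ (path A (List.ofFn x) t).length ≤ m * t ∧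
    satB (path A (List.ofFn x) t) (List.ofFn x) = true) ∧
  (∀ x y : Pt n, satB (path A (List.ofFn y) t) (List.ofFn x) = true →
    path A (List.ofFn x) t = path A (List.ofFn y) t)

/-! ## Lists and terms -/

/-- Lists of literals as terms. -/
def S_BRI : Prop :=
  (∀ (n : ℕ) (K : Cj), Wf n K → len (tm n K) = K.length ∧
    (∀ x : Pt n, satB K (List.ofFn x) = satT (tm n K) x) ∧
    ∀ i : Fin n, tm n K i ≠ none ↔ hasVar K i = true) ∧
  (∀ (n : ℕ) (K : Cj), (∀ x : Pt n, satB K (List.ofFn x) = false) ∨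
    ∃ T : Tm n, ∀ x : Pt n, satB K (List.ofFn x) = satT T x) ∧
  (∀ (n : ℕ) (T : Tm n), (∀ x : Pt n, satB (tl T) (List.ofFn x) = satT T x) ∧
    (tl T).length = len T ∧ Wf n (tl T) ∧
    ∀ (i : Fin n) (b : Bool), ((i : ℕ), b) ∈ tl T ↔ T i = some b) ∧
  (∀ (n m : ℕ) (T : Tm n), len T ≤ m → tl T ∈ conjs (lits n) m)

/-! ## Samples -/

/-- The number of examples with label `b` satisfying the term `T`. -/
def frq {n N : ℕ} (F : Finset (Tm n)) (xs : Fin N → Pt n) (T : Tm n) (b : Bool) : ℕ :=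
  (Finset.univ.filter (fun j => satT T (xs j) = true ∧ on F (xs j) = b)).card

/-- The fraction of the points with label `b` satisfying the term `T`. -/
noncomputable def prb {n : ℕ} (F : Finset (Tm n)) (T : Tm n) (b : Bool) : ℝ :=
  Ex (fun x => ind (satT T x) * ind (decide (on F x = b)))

/-- All frequencies are close to the probabilities. -/
def Good {n N : ℕ} (τ : ℝ) (F : Finset (Tm n)) (xs : Fin N → Pt n) : Prop :=
  ∀ T b, |(frq F xs T b : ℝ) / N - prb F T b| ≤ τ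

/-- The number of bad samples. -/
def S_GOOD : Prop := ∀ (n N d : ℕ) (F : Finset (Tm n)) (τ : ℝ), 0 < τ →
  8 * (2 * n + d + 4) ≤ τ ^ 2 * N →
  2 ^ d * Nat.card {xs : Fin N → Pt n // ¬ Good τ F xs} ≤ (2 ^ n) ^ N

/-- Counting in the list of examples. -/
def S_CNT : Prop := ∀ (n N : ℕ) (F : Finset (Tm n)) (xs : Fin N → Pt n) (K : Cj) (T : Tm n)
  (b : Bool), (∀ x : Pt n, satB K (List.ofFn x) = satT T x) → cnt (smp F xs) K b = frq F xs T b

/-- The number of different candidates. -/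
def S_NCAND : Prop := ∀ (S : Smp) (m t k B : ℕ), (cands S m t k B).toFinset.card ≤
  (ctxs S m t).toFinset.card * ((2 * dimS S + 1) ^ k * (dimS S * 2 ^ B))

/-- The algorithm runs in polynomial time. -/
def S_POLY : Prop := ∀ k m : ℕ, NPC.Poly (alg k m)

/-- The inverse of the precision. -/
def Rr (k m n e : ℕ) : ℕ :=
  1024 * e * 2 ^ (m * tT m e) * 4 ^ (bB k n e) * (2 * n + 1) ^ k * (n + 1)

/-- The number of examples is polynomial. -/
def S_NUM : Prop := ∀ k m : ℕ, ∃ c : ℕ, ∀ n e d : ℕ, 1 ≤ e →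
  8 * (2 * n + d + 4) * Rr k m n e ^ 2 ≤ (n + e + d + 2) ^ c

/-- The statistics of the sample find the terms of the context. -/
def S_LEAF : Prop := ∀ (k l m n e N : ℕ) (F F' : Finset (Tm n)) (xs : Fin N → Pt n) (π : Cj)
  (T : Tm n), 1 ≤ k → 1 ≤ l → 10 * k * (3 / 4 : ℝ) ^ l ≤ 1 → 4 * k * l ≤ m → 1 ≤ e → 1 ≤ N →
  Good (1 / (Rr k m n e : ℝ)) F xs →
  π ∈ ctxs (smp F xs) m (tT m e) → Wf n π → π.length ≤ m * tT m e →
  ¬ 8 * e * cnt (smp F xs) π false ≤ cnt (smp F xs) π false + cnt (smp F xs) π true →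
  ReadK k F' → Irr F' → (∀ T ∈ F', Disjoint (vars T) (vars (tm n π))) →
  (∀ x, satT (tm n π) x = true → on F x = on F' x) → (∀ T ∈ F', m ≤ len T) → T ∈ F' →
  len T < Nat.size (8 * (k * n + 1) * e) →
  ∃ K ∈ cands (smp F xs) m (tT m e) k (bB k n e),
    ∀ x : Pt n, satB K (List.ofFn x) = (satT (tm n π) x && satT T x)

/-- The error of the algorithm on good samples. -/
def S_ERR : Prop := ∀ (k l m n e N : ℕ) (F : Finset (Tm n)) (xs : Fin N → Pt n), 1 ≤ k → 1 ≤ l →
  10 * k * (3 / 4 : ℝ) ^ l ≤ 1 → 4 * k * l ≤ m → 1 ≤ e → 1 ≤ N → ReadK k F →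
  Good (1 / (Rr k m n e : ℝ)) F xs →
  err F (alg k m (List.replicate e (), smp F xs)) ≤ 1 / e

end Pool.Agent.Q216.RK
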