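import Pool.Agent.Q216.RK.MainN
import Pool.Agent.Q216.RK.GoodN
import Pool.Agent.Q216.RK.PolyN
import Pool.Agent.Q75.RK.LLL
import Pool.Agent.Q121.RK.Comb
import Pool.Agent.Q153.RK.DEPTH
import Pool.Agent.Q153.RK.SENS
import Pool.Agent.Q129.RK.Lists
import Pool.Agent.Q280.RK.Fair2
import Pool.Agent.Q280.RK.Ncand2
import Pool.Agent.Q280.RK.Numb
import Pool.Agent.Q95.RK.Piv
import Pool.Agent.Q128.RK.Stat

/-!
# Learning read-k DNF formulas with noise: the main theorem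
-/

namespace Pool.Agent.Q216.RK

theorem all_LLL : S_LLL := Q75.RK.t_LLL
theorem all_CL : S_CL := Q121.RK.t_CL
theorem all_SENS : S_SENS := Q153.RK.t_SENS all_LLL all_CL
theorem all_ISO : S_ISO := Q121.RK.t_ISO
theorem all_STAT : S_STAT :=
  Q128.RK.t_STAT Q95.RK.piv (Q75.RK.t_LOW all_LLL) (Q75.RK.t_UP (Q75.RK.t_UP0 all_LLL)) all_CL
theorem all_BRI : S_BRI := Q129.RK.t_BRI
theorem all_TREE : S_TREE := Q129.RK.t_TREE

theorem main_of_leaf (h : S_LEAF2) : S_MAIN :=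
  t_MAIN (t_ERR2 h all_TREE Q280.RK.fair2 Q280.RK.stop2 (Q153.RK.t_DEPTH all_TREE all_BRI)
    Q121.RK.t_RES Q121.RK.t_CARD Q280.RK.ncand2 all_BRI) t_GOOD2 Q280.RK.num t_POLY2

end Pool.Agent.Q216.RK
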