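import Pool.Agent.Q216.RK.Stm

/-!
# Basic facts on averages over the cube, terms and DNF formulas
-/

namespace Pool.Agent.Q216.RK

open Finset

variable {n : ℕ}

/-! ## Indicators and signs -/

theorem ind_true : ind true = 1 := by simp [ind]
theorem ind_false : ind false = 0 := by simp [ind]
theorem sg_true : sg true = 1 := by simp [sg]
theorem sg_false : sg false = -1 := by simp [sg]
theorem ind_nonneg (b : Bool) : 0 ≤ ind b := by cases b <;> simp [ind]
theorem ind_le_one (b : Bool) : ind b ≤ 1 := by cases b <;> simp [ind]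
theorem ind_not (b : Bool) : ind (!b) = 1 - ind b := by cases b <;> simp [ind]
theorem ind_and (a b : Bool) : ind (a && b) = ind a * ind b := by cases a <;> cases b <;> simp [ind]
theorem ind_mono {a b : Bool} (h : a = true → b = true) : ind a ≤ ind b := by
  cases a
  · exact (ind_false).le.trans (ind_nonneg b)
  · rw [h rfl]
theorem sg_mul_self (b : Bool) : sg b * sg b = 1 := by cases b <;> simp [sg]
theorem abs_sg (b : Bool) : |sg b| = 1 := by cases b <;> simp [sg]
theorem sg_not (b : Bool) : sg (!b) = - sg b := by cases b <;> simp [sg]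

/-! ## Averages -/

theorem Ex_congr {f g : Pt n → ℝ} (h : ∀ x, f x = g x) : Ex f = Ex g := by
  unfold Ex; rw [Finset.sum_congr rfl fun x _ => h x]
theorem Ex_add (f g : Pt n → ℝ) : Ex (fun x => f x + g x) = Ex f + Ex g := by
  unfold Ex; rw [Finset.sum_add_distrib, add_div]
theorem Ex_sub (f g : Pt n → ℝ) : Ex (fun x => f x - g x) = Ex f - Ex g := by
  unfold Ex; rw [Finset.sum_sub_distrib, sub_div]
theorem Ex_neg (f : Pt n → ℝ) : Ex (fun x => - f x) = - Ex f := by
  unfold Ex; rw [Finset.sum_neg_distrib, neg_div]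
theorem Ex_mul_left (c : ℝ) (f : Pt n → ℝ) : Ex (fun x => c * f x) = c * Ex f := by
  unfold Ex; rw [← Finset.mul_sum, mul_div_assoc]
theorem Ex_mul_right (c : ℝ) (f : Pt n → ℝ) : Ex (fun x => f x * c) = Ex f * c := by
  unfold Ex; rw [← Finset.sum_mul, div_mul_eq_mul_div]
theorem Ex_const (c : ℝ) : Ex (fun _ : Pt n => c) = c := by
  unfold Ex; simp
theorem Ex_mono {f g : Pt n → ℝ} (h : ∀ x, f x ≤ g x) : Ex f ≤ Ex g := by
  unfold Ex; gcongr with x _; exact h x
theorem Ex_nonneg {f : Pt n → ℝ} (h : ∀ x, 0 ≤ f x) : 0 ≤ Ex f := by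
  unfold Ex; exact div_nonneg (Finset.sum_nonneg fun x _ => h x) (by positivity)
theorem Ex_sum {ι : Type} (s : Finset ι) (f : ι → Pt n → ℝ) :
    Ex (fun x => ∑ i ∈ s, f i x) = ∑ i ∈ s, Ex (f i) := by
  unfold Ex; rw [Finset.sum_comm, Finset.sum_div]
theorem abs_Ex_le (f : Pt n → ℝ) : |Ex f| ≤ Ex (fun x => |f x|) := by
  unfold Ex
  rw [abs_div, abs_of_pos (show (0 : ℝ) < 2 ^ n by positivity)]
  gcongr
  exact Finset.abs_sum_le_sum_abs _ _
theorem Ex_zero : Ex (fun _ : Pt n => (0 : ℝ)) = 0 := Ex_const 0

/-- An average is positive when the function is nonnegative and positive somewhere. -/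
theorem Ex_pos {f : Pt n → ℝ} (h : ∀ x, 0 ≤ f x) {x : Pt n} (hx : 0 < f x) : 0 < Ex f := by
  unfold Ex
  exact div_pos (Finset.sum_pos' (fun x _ => h x) ⟨x, Finset.mem_univ x, hx⟩) (by positivity)

/-- A nonnegative function with positive average is positive somewhere. -/
theorem exists_of_Ex_pos {f : Pt n → ℝ} (h : 0 < Ex f) : ∃ x, 0 < f x := by
  by_contra hc
  push Not at hc
  have : Ex f ≤ 0 := by
    have := Ex_mono (f := f) (g := fun _ => 0) hc
    rwa [Ex_zero] at this
  linarith

/-! ## Terms and formulas -/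

theorem satT_iff {T : Tm n} {x : Pt n} : satT T x = true ↔ ∀ i b, T i = some b → x i = b := by
  simp [satT]

theorem satT_false_iff {T : Tm n} {x : Pt n} : satT T x = false ↔ ∃ i, T i = some (!(x i)) := by
  rw [← Bool.not_eq_true, satT_iff]
  constructor
  · intro h
    push Not at h
    obtain ⟨i, b, h1, h2⟩ := h
    refine ⟨i, ?_⟩
    rw [h1]
    cases b <;> cases h3 : x i <;> simp_all
  · rintro ⟨i, h⟩ hc
    have := hc i _ h
    cases h3 : x i <;> simp [h3] at this

theorem on_iff {F : Finset (Tm n)} {x : Pt n} : on F x = true ↔ ∃ T ∈ F, satT T x = true := by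
  simp [on]

theorem on_false_iff {F : Finset (Tm n)} {x : Pt n} : on F x = false ↔ ∀ T ∈ F, satT T x = false := by
  rw [← Bool.not_eq_true, on_iff]
  push Not
  simp

theorem on_mono {F G : Finset (Tm n)} (h : F ⊆ G) {x : Pt n} (hx : on F x = true) :
    on G x = true := by
  rw [on_iff] at hx ⊢
  obtain ⟨T, hT, h1⟩ := hx
  exact ⟨T, h hT, h1⟩

theorem mem_vars {T : Tm n} {i : Fin n} : i ∈ vars T ↔ T i ≠ none := by simp [vars]

theorem ReadK.mono {k : ℕ} {F G : Finset (Tm n)} (hF : ReadK k F) (h : G ⊆ F) : ReadK k G :=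
  fun i => (Finset.card_le_card (Finset.filter_subset_filter _ h)).trans (hF i)

theorem vars_cut (T : Tm n) (Y : Finset (Fin n)) : vars (cut T Y) = vars T \ Y := by
  ext i
  simp only [mem_vars, cut, Finset.mem_sdiff]
  by_cases h : i ∈ Y <;> simp [h]

theorem len_cut (T : Tm n) (Y : Finset (Fin n)) : len (cut T Y) = (vars T \ Y).card := by
  rw [len, vars_cut]

theorem len_cut_le (T : Tm n) (Y : Finset (Fin n)) : len (cut T Y) ≤ len T := by
  rw [len_cut, len]; exact Finset.card_le_card Finset.sdiff_subset

theorem cut_eq_self {T : Tm n} {Y : Finset (Fin n)} (h : Disjoint (vars T) Y) : cut T Y = T := by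
  funext i
  unfold cut
  split_ifs with hi
  · by_contra hc
    exact Finset.disjoint_left.1 h (mem_vars.2 (Ne.symm hc)) hi
  · rfl

/-- Cutting and forgetting: a read-k family remains one under images that cut variables. -/
theorem ReadK.image_cut {k : ℕ} {F : Finset (Tm n)} (hF : ReadK k F) (Y : Finset (Fin n)) :
    ReadK k (F.image (fun T => cut T Y)) := by
  intro i
  refine le_trans ?_ (hF i)
  refine le_trans (Finset.card_le_card ?_) (Finset.card_image_le (f := fun T => cut T Y))
  intro T hT
  simp only [Finset.mem_filter, Finset.mem_image] at hT ⊢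
  obtain ⟨⟨T0, h0, rfl⟩, h1⟩ := hT
  refine ⟨T0, ⟨h0, ?_⟩, rfl⟩
  intro h2
  apply h1
  unfold cut
  split_ifs <;> simp_all

/-- Satisfaction after overriding. -/
theorem satT_ov {T : Tm n} {Y : Finset (Fin n)} {y x : Pt n} :
    satT T (ov Y y x) = true ↔
      (∀ i ∈ Y, ∀ b, T i = some b → y i = b) ∧ satT (cut T Y) x = true := by
  rw [satT_iff, satT_iff]
  constructor
  · intro h
    refine ⟨fun i hi b hb => ?_, fun i b hb => ?_⟩
    · have := h i b hb
      simpa [ov, hi] using this
    · unfold cut at hb
      split_ifs at hb with hi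
      have := h i b hb
      simpa [ov, hi] using this
  · rintro ⟨h1, h2⟩ i b hb
    by_cases hi : i ∈ Y
    · simpa [ov, hi] using h1 i hi b hb
    · have := h2 i b (by simp [cut, hi, hb])
      simpa [ov, hi] using this

/-- A term inside `Y` after overriding. -/
theorem satT_ov_of_subset {T : Tm n} {Y : Finset (Fin n)} (h : vars T ⊆ Y) (y x : Pt n) :
    satT T (ov Y y x) = satT T y := by
  rw [Bool.eq_iff_iff, satT_iff, satT_iff]
  refine forall_congr' fun i => forall_congr' fun b => ?_
  constructor
  · intro h1 hb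
    have hi : i ∈ Y := h (mem_vars.2 (by simp [hb]))
    simpa [ov, hi] using h1 hb
  · intro h1 hb
    have hi : i ∈ Y := h (mem_vars.2 (by simp [hb]))
    simpa [ov, hi] using h1 hb

/-- A term outside `Y` after overriding. -/
theorem satT_ov_of_disjoint {T : Tm n} {Y : Finset (Fin n)} (h : Disjoint (vars T) Y)
    (y x : Pt n) : satT T (ov Y y x) = satT T x := by
  rw [Bool.eq_iff_iff, satT_iff, satT_iff]
  refine forall_congr' fun i => forall_congr' fun b => ?_
  have key : T i = some b → i ∉ Y := fun hb hi =>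
    Finset.disjoint_left.1 h (mem_vars.2 (by simp [hb])) hi
  constructor
  · intro h1 hb
    simpa [ov, key hb] using h1 hb
  · intro h1 hb
    simpa [ov, key hb] using h1 hb

/-! ## Dependence on coordinates -/

theorem Dep.mono {A B : Finset (Fin n)} {f : Pt n → ℝ} (h : Dep A f) (hAB : A ⊆ B) : Dep B f :=
  fun x y hxy => h x y fun i hi => hxy i (hAB hi)

theorem Dep.mul {A : Finset (Fin n)} {f g : Pt n → ℝ} (hf : Dep A f) (hg : Dep A g) :
    Dep A (fun x => f x * g x) := fun x y hxy => by
  show f x * g x = f y * g y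
  rw [hf x y hxy, hg x y hxy]

theorem satT_congr {T : Tm n} {x y : Pt n} (h : ∀ i ∈ vars T, x i = y i) : satT T x = satT T y := by
  rw [Bool.eq_iff_iff, satT_iff, satT_iff]
  refine forall_congr' fun i => forall_congr' fun b => ?_
  constructor
  · intro h1 hb
    rw [← h i (mem_vars.2 (by simp [hb]))]
    exact h1 hb
  · intro h1 hb
    rw [h i (mem_vars.2 (by simp [hb]))]
    exact h1 hb

theorem on_congr {F : Finset (Tm n)} {x y : Pt n} (h : ∀ T ∈ F, ∀ i ∈ vars T, x i = y i) :
    on F x = on F y := by
  rw [Bool.eq_iff_iff, on_iff, on_iff]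
  constructor
  · rintro ⟨T, hT, h1⟩
    exact ⟨T, hT, by rw [← satT_congr (h T hT)]; exact h1⟩
  · rintro ⟨T, hT, h1⟩
    exact ⟨T, hT, by rw [satT_congr (h T hT)]; exact h1⟩

theorem dep_satT (T : Tm n) : Dep (vars T) (fun x => ind (satT T x)) := fun x y h => by
  show ind (satT T x) = ind (satT T y)
  rw [satT_congr h]

theorem dep_on {F : Finset (Tm n)} {A : Finset (Fin n)} (h : ∀ T ∈ F, vars T ⊆ A) :
    Dep A (fun x => ind (on F x)) := fun x y hxy => by
  show ind (on F x) = ind (on F y)
  rw [on_congr fun T hT i hi => hxy i (h T hT hi)]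

theorem dep_off {F : Finset (Tm n)} {A : Finset (Fin n)} (h : ∀ T ∈ F, vars T ⊆ A) :
    Dep A (fun x => ind (!(on F x))) := fun x y hxy => by
  show ind (!(on F x)) = ind (!(on F y))
  rw [on_congr fun T hT i hi => hxy i (h T hT hi)]

theorem dep_sg (i : Fin n) : Dep {i} (fun x => sg (x i)) := fun x y h => by
  show sg (x i) = sg (y i)
  rw [h i (by simp)]

/-! ## Changing a coordinate -/

theorem flp_flp (x : Pt n) (i : Fin n) : flp (flp x i) i = x := by
  funext j
  unfold flp
  by_cases h : j = i
  · subst h; simp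
  · simp [h]

theorem flp_same (x : Pt n) (i : Fin n) : flp x i i = !(x i) := by simp [flp]
theorem flp_of_ne (x : Pt n) {i j : Fin n} (h : j ≠ i) : flp x i j = x j := by simp [flp, h]

/-- Averages are invariant under changing a coordinate. -/
theorem Ex_flp (i : Fin n) (f : Pt n → ℝ) : Ex (fun x => f (flp x i)) = Ex f := by
  unfold Ex
  congr 1
  exact Fintype.sum_bijective (fun x => flp x i)
    (Function.Involutive.bijective (fun x => flp_flp x i)) _ _ (fun x => rfl)

/-- A random sign is independent of what does not depend on its coordinate. -/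
theorem Ex_mul_sg (i : Fin n) (f : Pt n → ℝ) (hf : ∀ x, f (flp x i) = f x) :
    Ex (fun x => f x * sg (x i)) = 0 := by
  have h := Ex_flp i (fun x => f x * sg (x i))
  have h2 : Ex (fun x => f (flp x i) * sg (flp x i i)) = - Ex (fun x => f x * sg (x i)) := by
    rw [← Ex_neg]
    refine Ex_congr fun x => ?_
    rw [hf, flp_same, sg_not]
    ring
  rw [h2] at h
  linarith

/-! ## Two-step averages and independence -/

theorem ov_involutive (Y : Finset (Fin n)) :
    Function.Involutive (fun p : Pt n × Pt n => (ov Y p.1 p.2, ov Y p.2 p.1)) := by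
  rintro ⟨y, x⟩
  simp only [Prod.mk.injEq]
  constructor <;> · funext i; by_cases hi : i ∈ Y <;> simp [ov, hi]

theorem Ex_ov (Y : Finset (Fin n)) (f : Pt n → ℝ) :
    Ex f = Ex (fun y => Ex (fun x => f (ov Y y x))) := by
  have h1 : Ex (fun y => Ex (fun x => f (ov Y y x))) =
      (∑ p : Pt n × Pt n, f (ov Y p.1 p.2)) / (2 ^ n * 2 ^ n) := by
    unfold Ex
    rw [← Finset.sum_div, Fintype.sum_prod_type, div_div]
  have h2 : ∑ p : Pt n × Pt n, f (ov Y p.1 p.2) = ∑ p : Pt n × Pt n, f p.1 :=
    Fintype.sum_bijective (fun p : Pt n × Pt n => (ov Y p.1 p.2, ov Y p.2 p.1))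
      (ov_involutive Y).bijective _ _ (fun p => rfl)
  rw [h1, h2, Fintype.sum_prod_type]
  simp only [Finset.sum_const, Finset.card_univ, Fintype.card_fun, Fintype.card_bool,
    Fintype.card_fin, nsmul_eq_mul]
  unfold Ex
  rw [← Finset.mul_sum]
  push_cast
  field_simp

theorem t_OV : S_OV := fun _ Y f => Ex_ov Y f

theorem Ex_ind {A B : Finset (Fin n)} {f g : Pt n → ℝ} (hf : Dep A f) (hg : Dep B g)
    (h : Disjoint A B) : Ex (fun x => f x * g x) = Ex f * Ex g := by
  rw [Ex_ov A]
  have : ∀ y x : Pt n, f (ov A y x) * g (ov A y x) = f y * g x := by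
    intro y x
    rw [hf (ov A y x) y (fun i hi => by simp [ov, hi]),
      hg (ov A y x) x (fun i hi => by
        have : i ∉ A := fun hc => Finset.disjoint_left.1 h hc hi
        simp [ov, this])]
  simp only [this]
  have h2 : ∀ y : Pt n, Ex (fun x => f y * g x) = f y * Ex g := fun y => Ex_mul_left _ _
  simp only [h2]
  rw [Ex_mul_right]

theorem t_IND : S_IND := fun _ _ _ _ _ hf hg h => Ex_ind hf hg h

/-! ## The measure of a term -/

theorem vars_card_zero {T : Tm n} (h : len T = 0) (x : Pt n) : satT T x = true := by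
  rw [satT_iff]
  intro i b hb
  have : i ∈ vars T := mem_vars.2 (by simp [hb])
  rw [len, Finset.card_eq_zero] at h
  rw [h] at this
  simp at this

theorem Ex_satT (T : Tm n) : Ex (fun x => ind (satT T x)) = (1 / 2) ^ len T := by
  induction hm : len T generalizing T with
  | zero =>
    have : ∀ x, ind (satT T x) = 1 := fun x => by rw [vars_card_zero hm]; exact ind_true
    simp only [this]
    rw [Ex_const]; simp
  | succ m ih =>
    obtain ⟨i, hi⟩ : (vars T).Nonempty := by
      rw [← Finset.card_pos]
      show 0 < len T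
      omega
    obtain ⟨b, hb⟩ := Option.ne_none_iff_exists'.1 (mem_vars.1 hi)
    have hl : len (cut T {i}) = m := by
      rw [len_cut, Finset.card_sdiff_of_subset (by simpa using hi)]
      simp only [Finset.card_singleton]
      unfold len at hm
      omega
    have h1 : ∀ x, ind (satT T x) = ind (satT (cut T {i}) x) * ((1 + sg b * sg (x i)) / 2) := by
      intro x
      by_cases hx : x i = b
      · have : satT T x = satT (cut T {i}) x := by
          rw [Bool.eq_iff_iff, satT_iff, satT_iff]
          constructor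
          · intro h j c hc
            unfold cut at hc
            split_ifs at hc with hj
            exact h j c hc
          · intro h j c hc
            by_cases hj : j = i
            · subst hj
              rw [hb] at hc
              simp only [Option.some.injEq] at hc
              rw [hx, hc]
            · exact h j c (by simp [cut, hj, hc])
        rw [this, hx, sg_mul_self]
        ring
      · have h2 : satT T x = false := by
          rw [satT_false_iff]
          refine ⟨i, ?_⟩
          rw [hb]
          cases b <;> cases h3 : x i <;> simp_all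
        have h3 : sg b * sg (x i) = -1 := by
          have : x i = !b := by cases b <;> cases h3 : x i <;> simp_all
          rw [this, sg_not, mul_neg, sg_mul_self]
        rw [h2, h3, ind_false]
        ring
    have h2 : ∀ x, ind (satT T x) = 1 / 2 * ind (satT (cut T {i}) x) +
        sg b / 2 * (ind (satT (cut T {i}) x) * sg (x i)) := fun x => by rw [h1]; ring
    rw [Ex_congr h2, Ex_add, Ex_mul_left, Ex_mul_left, ih _ hl, Ex_mul_sg]
    · ring
    · intro x
      rw [satT_congr]
      intro j hj
      rw [vars_cut] at hj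
      refine flp_of_ne x ?_
      rintro rfl
      simp at hj

theorem t_TERM : S_TERM := fun _ T => Ex_satT T

/-! ## The fraction of the cube where no term is satisfied -/

theorem off_nonneg (F : Finset (Tm n)) : 0 ≤ off F := Ex_nonneg fun _ => ind_nonneg _

theorem off_le_one (F : Finset (Tm n)) : off F ≤ 1 := by
  have := Ex_mono (n := n) (f := fun x => ind (!(on F x))) (g := fun _ => 1) fun x => ind_le_one _
  rwa [Ex_const] at this

theorem off_anti {F G : Finset (Tm n)} (h : F ⊆ G) : off G ≤ off F := by
  refine Ex_mono fun x => ind_mono fun hx => ?_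
  simp only [Bool.not_eq_true'] at hx ⊢
  rw [on_false_iff] at hx ⊢
  exact fun T hT => hx T (h hT)

theorem off_empty : off (∅ : Finset (Tm n)) = 1 := by
  have : ∀ x : Pt n, ind (!(on (∅ : Finset (Tm n)) x)) = 1 := fun x => by
    have : on (∅ : Finset (Tm n)) x = false := on_false_iff.2 (by simp)
    rw [this]; exact ind_true
  unfold off
  rw [Ex_congr this, Ex_const]

theorem on_insert (T : Tm n) (F : Finset (Tm n)) (x : Pt n) :
    on (insert T F) x = (satT T x || on F x) := by
  rw [Bool.eq_iff_iff]
  simp only [on_iff, Finset.mem_insert, Bool.or_eq_true]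
  constructor
  · rintro ⟨T', rfl | h, h1⟩
    · exact Or.inl h1
    · exact Or.inr ⟨T', h, h1⟩
  · rintro (h | ⟨T', h, h1⟩)
    · exact ⟨T, Or.inl rfl, h⟩
    · exact ⟨T', Or.inr h, h1⟩

/-- Adding one term. -/
theorem off_insert (T : Tm n) (F : Finset (Tm n)) :
    off (insert T F) = off F - Ex (fun x => ind (satT T x) * ind (!(on F x))) := by
  unfold off
  rw [← Ex_sub]
  refine Ex_congr fun x => ?_
  rw [on_insert]
  cases satT T x <;> cases on F x <;> simp [ind]

end Pool.Agent.Q216.RK
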