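import Mathlib

/-!
# Read-k DNF formulas and uniform random examples: definitions

Points of the cube, terms (partial assignments), DNF formulas as finite sets of terms, averages over
the cube, and the learning algorithm on lists (samples, conjunctions as lists of literals, contexts
of a decision tree, candidate terms).
-/

namespace Pool.Agent.Q216.RK

/-! ## The cube -/

/-- Points of the cube. -/
abbrev Pt (n : ℕ) := Fin n → Bool

/-- Terms (conjunctions of literals) over `n` variables: `T i = some b` says that the term contains
the literal `x_i = b`, `T i = none` that it does not contain the variable `x_i`. -/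
abbrev Tm (n : ℕ) := Fin n → Option Bool

/-- The point `x` satisfies the term `T`. -/
def satT {n : ℕ} (T : Tm n) (x : Pt n) : Bool := decide (∀ i b, T i = some b → x i = b)

/-- The value of the DNF formula with the set of terms `F` at `x`. -/
def on {n : ℕ} (F : Finset (Tm n)) (x : Pt n) : Bool := decide (∃ T ∈ F, satT T x = true)

/-- Every variable occurs in at most `k` terms. -/
def ReadK (k : ℕ) {n : ℕ} (F : Finset (Tm n)) : Prop :=
  ∀ i, (F.filter (fun T => T i ≠ none)).card ≤ k

/-- The set of variables of a term. -/
def vars {n : ℕ} (T : Tm n) : Finset (Fin n) := Finset.univ.filter (fun i => T i ≠ none)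

/-- The number of literals of a term. -/
def len {n : ℕ} (T : Tm n) : ℕ := (vars T).card

/-- The term without its variables in `Y`. -/
def cut {n : ℕ} (T : Tm n) (Y : Finset (Fin n)) : Tm n := fun i => if i ∈ Y then none else T i

/-- The point equal to `y` on `Y` and to `x` elsewhere. -/
def ov {n : ℕ} (Y : Finset (Fin n)) (y x : Pt n) : Pt n := fun i => if i ∈ Y then y i else x i

/-- The point with the `i`-th coordinate changed. -/
def flp {n : ℕ} (x : Pt n) (i : Fin n) : Pt n := Function.update x i (!(x i))

/-- The indicator of a truth value. -/
def ind (b : Bool) : ℝ := if b = true then 1 else 0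

/-- The sign of a truth value. -/
def sg (b : Bool) : ℝ := if b = true then 1 else -1

/-- The average of a function over the cube. -/
noncomputable def Ex {n : ℕ} (f : Pt n → ℝ) : ℝ := (∑ x, f x) / 2 ^ n

/-- The function depends on the coordinates in `A` only. -/
def Dep {n : ℕ} (A : Finset (Fin n)) (f : Pt n → ℝ) : Prop :=
  ∀ x y : Pt n, (∀ i ∈ A, x i = y i) → f x = f y

/-- The fraction of the cube where no term is satisfied. -/
noncomputable def off {n : ℕ} (F : Finset (Tm n)) : ℝ := Ex (fun x => ind (!(on F x)))

/-! ## The algorithm, on lists -/

/-- Conjunctions as lists of literals: `(j, b)` is the literal `x_j = b`. -/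
abbrev Cj := List (ℕ × Bool)

/-- Samples: lists of labelled points. -/
abbrev Smp := List (List Bool × Bool)

/-- The literal `l` holds at `x`. -/
def litB (x : List Bool) (l : ℕ × Bool) : Bool := decide (x[l.1]? = some l.2)

/-- The conjunction `K` holds at `x`. -/
def satB (K : Cj) (x : List Bool) : Bool := K.all (fun l => litB x l)

/-- The number of examples with label `b` satisfying `K`. -/
def cnt (S : Smp) (K : Cj) (b : Bool) : ℕ :=
  (S.filter (fun p => satB K p.1 && decide (p.2 = b))).length

/-- All literals over `n` variables. -/
def lits (n : ℕ) : Cj := (List.range n).flatMap (fun j => [(j, false), (j, true)])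

/-- All lists of at most `m` elements of `l`. -/
def conjs (l : Cj) : ℕ → List Cj
  | 0 => [[]]
  | m + 1 => [] :: (conjs l m).flatMap (fun K => l.map (fun a => a :: K))

/-- The variable `j` occurs in `K`. -/
def hasVar (K : Cj) (j : ℕ) : Bool := K.any (fun l => decide (l.1 = j))

/-- The variables of `K` are distinct and do not occur in `π`. -/
def freshB (π K : Cj) : Bool :=
  K.all (fun l => !(hasVar π l.1) && decide ((K.filter (fun m => decide (m.1 = l.1))).length ≤ 1))

/-- The first conjunction of the list `C`, with variables distinct and outside the context `π`,
which is satisfied by no negative example in the context. -/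
def adm (S : Smp) (C : List Cj) (π : Cj) : Option Cj :=
  (C.filter (fun K => freshB π K && decide (cnt S (π ++ K) false = 0))).head?

/-- One step of the decision tree: in the context `π` ask for the values of the variables of
`A π`. -/
def stp (A : Cj → Option Cj) (x : List Bool) (π : Cj) : Cj :=
  match A π with
  | none => π
  | some K => π ++ K.map (fun l => (l.1, x.getD l.1 false))

/-- The context of the point `x` after `t` steps. -/
def path (A : Cj → Option Cj) (x : List Bool) (t : ℕ) : Cj := (stp A x)^[t] []

/-- The number of positive examples satisfying `K` for which the truth value of `x_i = x_j`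
is `b`. -/
def agr (S : Smp) (K : Cj) (i j : ℕ) (b : Bool) : ℕ :=
  cnt S (K ++ [(i, true), (j, b)]) true + cnt S (K ++ [(i, false), (j, !b)]) true

/-- The distance of two natural numbers. -/
def adf (a b : ℕ) : ℕ := (a - b) + (b - a)

/-- The literals correlated with the variable `i` among the positive examples satisfying the
context `π` and the conjunction `Q`. -/
def lam (S : Smp) (n : ℕ) (π Q : Cj) (i : ℕ) : Cj :=
  ((List.range n).filter (fun j => !(decide (j = i)) && !(hasVar π j) &&
    decide (adf (cnt S (π ++ Q ++ [(i, true)]) true) (cnt S (π ++ Q ++ [(i, false)]) true) ≤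
      2 * adf (agr S (π ++ Q) i j true) (agr S (π ++ Q) i j false)))).map
  (fun j => (j, decide (decide (cnt S (π ++ Q ++ [(i, false)]) true <
      cnt S (π ++ Q ++ [(i, true)]) true) =
    decide (agr S (π ++ Q) i j false < agr S (π ++ Q) i j true))))

/-- The candidates obtained from the context `π`, the conjunction `Q` and the variable `i`. -/
def cds (S : Smp) (n B : ℕ) (π Q : Cj) (i : ℕ) : List Cj :=
  if (lam S n π Q i).length ≤ B then
    S.map (fun p => π ++ (i, decide (cnt S (π ++ Q ++ [(i, false)]) true <
      cnt S (π ++ Q ++ [(i, true)]) true)) :: (lam S n π Q i).filter (fun l => litB p.1 l))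
  else []

/-- The number of variables of the examples. -/
def dimS (S : Smp) : ℕ := ((S.head?).getD ([], false)).1.length

/-- The contexts of the examples after `t` steps. -/
def ctxs (S : Smp) (m t : ℕ) : List Cj :=
  S.map (fun p => path (adm S (conjs (lits (dimS S)) m)) p.1 t)

/-- All candidates. -/
def cands (S : Smp) (m t k B : ℕ) : List Cj :=
  (ctxs S m t).flatMap (fun π => (conjs (lits (dimS S)) k).flatMap (fun Q =>
    (List.range (dimS S)).flatMap (fun i => cds S (dimS S) B π Q i)))

/-- The algorithm: the contexts with a small fraction of negative examples, and the candidates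
without negative examples.  Here `m` bounds the conjunctions asked for, `t` is the number of steps
of the decision tree, `k` bounds the conjunctions `Q` and `B` the lengths of the candidates. -/
def algG (m t k B e : ℕ) (S : Smp) : List Cj :=
  (ctxs S m t).filter (fun π => decide (8 * e * cnt S π false ≤ cnt S π false + cnt S π true)) ++
  (cands S m t k B).filter (fun K => decide (cnt S K false = 0))

/-- The bound on the lengths of candidates. -/
def bB (k n e : ℕ) : ℕ := 2 * (Nat.size (8 * (k * n + 1) * e) + k)

/-- The number of steps of the decision tree. -/
def tT (m e : ℕ) : ℕ := 2 ^ m * Nat.size (8 * e)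

/-- The algorithm for read-`k` formulas, `m` being a constant that depends on `k` only: its input
consists of `e = 1 / ε` in unary and of the sample. -/
def alg (k m : ℕ) (a : List Unit × Smp) : List Cj :=
  algG m (tT m a.1.length) k (bB k (dimS a.2) a.1.length) a.1.length a.2

/-- The sample of the points `xs` labelled by `F`. -/
def smp {n N : ℕ} (F : Finset (Tm n)) (xs : Fin N → Pt n) : Smp :=
  List.ofFn (fun j => (List.ofFn (xs j), on F (xs j)))

/-- The value of the hypothesis at a point. -/
def evalH {n : ℕ} (H : List Cj) (x : Pt n) : Bool := H.any (fun K => satB K (List.ofFn x))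

/-- The error of the hypothesis `H` with respect to `F`. -/
noncomputable def err {n : ℕ} (F : Finset (Tm n)) (H : List Cj) : ℝ :=
  Ex (fun x => if evalH H x = on F x then 0 else 1)

/-- The list of literals of a term. -/
def tl {n : ℕ} (T : Tm n) : Cj :=
  (List.finRange n).filterMap (fun i => (T i).map (fun b => ((i : ℕ), b)))

/-- The term of a list of literals. -/
def tm (n : ℕ) (K : Cj) : Tm n := fun i =>
  (K.find? (fun l => decide (l.1 = (i : ℕ)))).map (fun l => l.2)

end Pool.Agent.Q216.RK
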