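import Pool.Agent.Q216.RK.Stm

/-!
# Learning with noise: the algorithm for general statistics

The algorithm of `Defs.lean` with the numbers of examples replaced by an arbitrary statistic
`v : Cj → Bool → ℕ` and the test that a number of negative examples is zero replaced by an
arbitrary test `Z : Cj → Bool`; the statistic and the test for samples with random classification
noise of the rate `p / q`.
-/

namespace Pool.Agent.Q216.RK

/-- Statistics: a natural number for each conjunction and each label. -/
abbrev Sta := Cj → Bool → ℕ

/-- The first conjunction of the list `C`, with variables distinct and outside the context `π`,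
which passes the test `Z` in the context. -/
def admV (Z : Cj → Bool) (C : List Cj) (π : Cj) : Option Cj :=
  (C.filter (fun K => freshB π K && Z (π ++ K))).head?

/-- The statistic of the positive examples satisfying `K` for which the truth value of `x_i = x_j`
is `b`. -/
def agrV (v : Sta) (K : Cj) (i j : ℕ) (b : Bool) : ℕ :=
  v (K ++ [(i, true), (j, b)]) true + v (K ++ [(i, false), (j, !b)]) true

/-- The literals correlated with the variable `i` in the context `π` and on the conjunction
`Q`. -/
def lamV (v : Sta) (n : ℕ) (π Q : Cj) (i : ℕ) : Cj :=
  ((List.range n).filter (fun j => !(decide (j = i)) && !(hasVar π j) &&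
    decide (adf (v (π ++ Q ++ [(i, true)]) true) (v (π ++ Q ++ [(i, false)]) true) ≤
      2 * adf (agrV v (π ++ Q) i j true) (agrV v (π ++ Q) i j false)))).map
  (fun j => (j, decide (decide (v (π ++ Q ++ [(i, false)]) true < v (π ++ Q ++ [(i, true)]) true) =
    decide (agrV v (π ++ Q) i j false < agrV v (π ++ Q) i j true))))

/-- The candidates obtained from the context `π`, the conjunction `Q` and the variable `i`. -/
def cdsV (v : Sta) (X : List (List Bool)) (n B : ℕ) (π Q : Cj) (i : ℕ) : List Cj :=
  if (lamV v n π Q i).length ≤ B then
    X.map (fun x => π ++ (i, decide (v (π ++ Q ++ [(i, false)]) true <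
      v (π ++ Q ++ [(i, true)]) true)) :: (lamV v n π Q i).filter (fun l => litB x l))
  else []

/-- The contexts of the points `X` after `t` steps. -/
def ctxsV (Z : Cj → Bool) (X : List (List Bool)) (n m t : ℕ) : List Cj :=
  X.map (fun x => path (admV Z (conjs (lits n) m)) x t)

/-- All candidates. -/
def candsV (v : Sta) (Z : Cj → Bool) (X : List (List Bool)) (n m t k B : ℕ) : List Cj :=
  (ctxsV Z X n m t).flatMap (fun π => (conjs (lits n) k).flatMap (fun Q =>
    (List.range n).flatMap (fun i => cdsV v X n B π Q i)))

/-- The algorithm for a general statistic and test. -/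
def algV (v : Sta) (Z : Cj → Bool) (X : List (List Bool)) (n m t k B e : ℕ) : List Cj :=
  (ctxsV Z X n m t).filter (fun π => decide (8 * e * v π false ≤ v π false + v π true)) ++
  (candsV v Z X n m t k B).filter Z

/-- The statistic for noise of the rate `p / q`: up to the factor `q - 2 p` an estimate of the
number of examples which satisfy `K` and have the true label `b`. -/
def valS (p q : ℕ) (S : Smp) : Sta := fun K b =>
  q * cnt S K b - p * (cnt S K false + cnt S K true)

/-- The test that nearly no example satisfying `K` has the true label `false`. -/
def zerS (p q R : ℕ) (S : Smp) (K : Cj) : Bool :=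
  decide (R * valS p q S K false ≤ (q - 2 * p) * S.length)

/-- The algorithm for read-`k` formulas and samples with noise of the rate `p / q`, `m` being a
constant that depends on `k` only: its input consists of `e = 1 / ε` in unary, of `p` and `q`,
and of the sample. -/
def algN (k m : ℕ) (a : List Unit × (ℕ × ℕ) × Smp) : List Cj :=
  algV (valS a.2.1.1 a.2.1.2 a.2.2)
    (zerS a.2.1.1 a.2.1.2 (Rr k m (dimS a.2.2) a.1.length) a.2.2) (a.2.2.map Prod.fst)
    (dimS a.2.2) m (tT m a.1.length) k (bB k (dimS a.2.2) a.1.length) a.1.length

/-- The sample with the points `(xs j).1` labelled by `f`, the label being changed when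
`(xs j).2 < p`. -/
def smpN {n q N : ℕ} (p : ℕ) (f : Pt n → Bool) (xs : Fin N → Pt n × Fin q) : Smp :=
  List.ofFn (fun j => (List.ofFn (xs j).1, f (xs j).1 ^^ decide (((xs j).2 : ℕ) < p)))

/-- The error of the hypothesis `H` with respect to the function `f`. -/
noncomputable def errf {n : ℕ} (f : Pt n → Bool) (H : List Cj) : ℝ :=
  Ex (fun x => if evalH H x = f x then 0 else 1)

end Pool.Agent.Q216.RK
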