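import Pool.Agent.Q216.RK.Basic

/-!
# The error of the algorithm on good samples
-/

namespace Pool.Agent.Q216.RK

open Finset

variable {n N : ℕ}

theorem dimS_smp (F : Finset (Tm n)) (xs : Fin N → Pt n) (hN : 1 ≤ N) : dimS (smp F xs) = n := by
  obtain ⟨N, rfl⟩ := Nat.exists_eq_add_of_le' hN
  simp [dimS, smp, List.ofFn_succ]

theorem satB_append (K K' : Cj) (x : List Bool) : satB (K ++ K') x = (satB K x && satB K' x) := by
  simp [satB, List.all_append]

theorem Ex_satT_split (F : Finset (Tm n)) (T : Tm n) :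
    prb F T false + prb F T true = (1 / 2) ^ len T := by
  rw [← Ex_satT, prb, prb, ← Ex_add]
  refine Ex_congr fun x => ?_
  cases on F x <;> simp [ind]

theorem prb_nonneg (F : Finset (Tm n)) (T : Tm n) (b : Bool) : 0 ≤ prb F T b :=
  Ex_nonneg fun _ => mul_nonneg (ind_nonneg _) (ind_nonneg _)

/-- The members of the list of contexts. -/
theorem mem_ctxs {F : Finset (Tm n)} {xs : Fin N → Pt n} (hN : 1 ≤ N) {m t : ℕ} {π : Cj} :
    π ∈ ctxs (smp F xs) m t ↔
      ∃ j, path (adm (smp F xs) (conjs (lits n) m)) (List.ofFn (xs j)) t = π := by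
  unfold ctxs
  rw [dimS_smp F xs hN]
  simp only [List.mem_map]
  constructor
  · rintro ⟨p, hp, rfl⟩
    unfold smp at hp
    rw [List.mem_ofFn] at hp
    obtain ⟨j, rfl⟩ := hp
    exact ⟨j, rfl⟩
  · rintro ⟨j, rfl⟩
    refine ⟨(List.ofFn (xs j), on F (xs j)), ?_, rfl⟩
    unfold smp
    rw [List.mem_ofFn]
    exact ⟨j, rfl⟩

section Main

variable {k m e : ℕ} {F : Finset (Tm n)} {xs : Fin N → Pt n}

theorem Rr_pos (k m n e : ℕ) (he : 1 ≤ e) : 0 < Rr k m n e := by
  unfold Rr; positivity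

/-- `Rr` is at least `1024 e 2^D`. -/
theorem Rr_ge (k m n e : ℕ) : 1024 * e * 2 ^ (m * tT m e) ≤ Rr k m n e := by
  unfold Rr
  have h1 : 1 ≤ 4 ^ bB k n e := Nat.one_le_pow _ _ (by norm_num)
  have h2 : 1 ≤ (2 * n + 1) ^ k := Nat.one_le_pow _ _ (by omega)
  calc 1024 * e * 2 ^ (m * tT m e) = 1024 * e * 2 ^ (m * tT m e) * 1 * 1 * 1 := by ring
    _ ≤ _ := by gcongr; omega

theorem Rr_ge' (k m n e : ℕ) :
    1024 * e * (2 ^ (m * tT m e) * ((2 * n + 1) ^ k * (n * 2 ^ bB k n e))) ≤ Rr k m n e := by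
  unfold Rr
  have h1 : 2 ^ bB k n e ≤ 4 ^ bB k n e := Nat.pow_le_pow_left (by norm_num) _
  calc 1024 * e * (2 ^ (m * tT m e) * ((2 * n + 1) ^ k * (n * 2 ^ bB k n e)))
      = 1024 * e * 2 ^ (m * tT m e) * 2 ^ bB k n e * (2 * n + 1) ^ k * n := by ring
    _ ≤ 1024 * e * 2 ^ (m * tT m e) * 4 ^ bB k n e * (2 * n + 1) ^ k * (n + 1) := by
        gcongr; omega

/-- The count of a well-formed conjunction is close to its probability. -/
theorem cnt_close (h8 : S_BRI) (h9 : S_CNT) {τ : ℝ} (hG : Good τ F xs) {K : Cj} (hK : Wf n K)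
    (b : Bool) : |(cnt (smp F xs) K b : ℝ) / N - prb F (tm n K) b| ≤ τ := by
  have h1 := (h8.1 n K hK).2.1
  rw [h9 n N F xs K (tm n K) b h1]
  exact hG _ _

/-- No negative example satisfies a conjunction that implies the formula. -/
theorem cnt_eq_zero {K : Cj} (h : ∀ x : Pt n, satB K (List.ofFn x) = true → on F x = true) :
    cnt (smp F xs) K false = 0 := by
  unfold cnt
  rw [List.length_eq_zero_iff, List.filter_eq_nil_iff]
  intro p hp
  unfold smp at hp
  rw [List.mem_ofFn] at hp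
  obtain ⟨j, rfl⟩ := hp
  intro hc
  rw [Bool.and_eq_true, decide_eq_true_eq] at hc
  have := h (xs j) hc.1
  rw [this] at hc
  exact absurd hc.2 (by simp)

end Main

/-! ## The contexts -/

section Ctx

variable {m t : ℕ} {A : Cj → Option Cj}

theorem ctx_sum (h1 : S_TREE) (h8 : S_BRI) (hA : Fair n m A) (x : Pt n) :
    ∑ π ∈ (Finset.univ.image fun y : Pt n => path A (List.ofFn y) t), ind (satT (tm n π) x) = 1 := by
  obtain ⟨h2, h3⟩ := h1 n m A hA t
  rw [Finset.sum_eq_single (path A (List.ofFn x) t)]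
  · rw [← (h8.1 n _ (h2 x).1).2.1 x, (h2 x).2.2]; exact ind_true
  · intro π hπ hne
    simp only [Finset.mem_image, Finset.mem_univ, true_and] at hπ
    obtain ⟨y, rfl⟩ := hπ
    rw [← (h8.1 n _ (h2 y).1).2.1 x]
    cases h : satB (path A (List.ofFn y) t) (List.ofFn x)
    · exact ind_false
    · exact absurd (h3 x y h).symm hne
  · intro h
    exact absurd (Finset.mem_image_of_mem _ (Finset.mem_univ x)) h

theorem ctx_sum_Ex (h1 : S_TREE) (h8 : S_BRI) (hA : Fair n m A) :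
    ∑ π ∈ (Finset.univ.image fun y : Pt n => path A (List.ofFn y) t),
      (1 / 2 : ℝ) ^ len (tm n π) = 1 := by
  have : Ex (fun x : Pt n => ∑ π ∈ (Finset.univ.image fun y : Pt n => path A (List.ofFn y) t),
      ind (satT (tm n π) x)) = 1 := by
    rw [Ex_congr (ctx_sum h1 h8 hA), Ex_const]
  rw [Ex_sum] at this
  refine Eq.trans ?_ this
  exact Finset.sum_congr rfl fun π _ => (Ex_satT _).symm

theorem ctx_len (h1 : S_TREE) (h8 : S_BRI) (hA : Fair n m A) (y : Pt n) :
    (1 / 2 : ℝ) ^ (m * t) ≤ (1 / 2 : ℝ) ^ len (tm n (path A (List.ofFn y) t)) := by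
  obtain ⟨h2, h3⟩ := h1 n m A hA t
  rw [(h8.1 n _ (h2 y).1).1]
  exact pow_le_pow_of_le_one (by norm_num) (by norm_num) (h2 y).2.1

theorem ctx_card (h1 : S_TREE) (h8 : S_BRI) (hA : Fair n m A) :
    (Finset.univ.image fun y : Pt n => path A (List.ofFn y) t).card ≤ 2 ^ (m * t) := by
  have h2 := ctx_sum_Ex (t := t) h1 h8 hA
  have h3 : ((Finset.univ.image fun y : Pt n => path A (List.ofFn y) t).card : ℝ) *
      (1 / 2 : ℝ) ^ (m * t) ≤ 1 := by
    refine le_trans ?_ h2.le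
    rw [← nsmul_eq_mul]
    refine Finset.card_nsmul_le_sum _ _ _ fun π hπ => ?_
    simp only [Finset.mem_image, Finset.mem_univ, true_and] at hπ
    obtain ⟨y, rfl⟩ := hπ
    exact ctx_len h1 h8 hA y
  have h4 : ((Finset.univ.image fun y : Pt n => path A (List.ofFn y) t).card : ℝ) ≤
      (2 : ℝ) ^ (m * t) := by
    rw [one_div, inv_pow, ← div_eq_mul_inv, div_le_one (by positivity)] at h3
    exact h3
  exact_mod_cast h4

end Ctx

end Pool.Agent.Q216.RK
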