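import Pool.Agent.Q216.RK.Err

/-!
# The error of the algorithm on good samples, second part
-/

namespace Pool.Agent.Q216.RK

open Finset

variable {n N : ℕ} {k l m e : ℕ} {F : Finset (Tm n)} {xs : Fin N → Pt n}

theorem freshB_iff {π K : Cj} : freshB π K = true ↔
    ∀ l ∈ K, hasVar π l.1 = false ∧ (K.filter (fun m => decide (m.1 = l.1))).length ≤ 1 := by
  simp [freshB]

theorem hasVar_iff {K : Cj} {j : ℕ} : hasVar K j = true ↔ ∃ l ∈ K, l.1 = j := by
  simp [hasVar]

/-- In a list with distinct variables each variable occurs at most once. -/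
theorem filter_length_le {K : Cj} (h : (K.map Prod.fst).Nodup) (j : ℕ) :
    (K.filter (fun m => decide (m.1 = j))).length ≤ 1 := by
  have key : ∀ L : List ℕ, L.Nodup → (∀ a ∈ L, a = j) → L.length ≤ 1 := by
    intro L h2 h3
    match L with
    | [] => simp
    | [a] => simp
    | a :: b :: L =>
      have ha := h3 a (by simp)
      have hb := h3 b (by simp)
      subst ha
      simp [hb] at h2
  have h1 := key _ (h.sublist (List.Sublist.map _
    (List.filter_sublist (l := K) (p := fun m => decide (m.1 = j))))) (by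
      intro a ha
      simp only [List.mem_map, List.mem_filter, decide_eq_true_eq] at ha
      obtain ⟨b, hb, rfl⟩ := ha
      exact hb.2)
  simpa using h1

/-- The value of a hypothesis. -/
theorem evalH_iff {H : List Cj} {x : Pt n} :
    evalH H x = true ↔ ∃ K ∈ H, satB K (List.ofFn x) = true := by
  simp [evalH]

theorem alg_eq (hN : 1 ≤ N) : alg k m (List.replicate e (), smp F xs) =
    algG m (tT m e) k (bB k n e) e (smp F xs) := by
  unfold alg
  simp only [List.length_replicate]
  rw [dimS_smp F xs hN]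

/-- Every context contains an example. -/
theorem path_mem (h1 : S_TREE) (h2 : S_FAIR) (h8 : S_BRI) (h9 : S_CNT) (hN : 1 ≤ N) (he : 1 ≤ e)
    (hG : Good (1 / (Rr k m n e : ℝ)) F xs) (x : Pt n) :
    path (adm (smp F xs) (conjs (lits n) m)) (List.ofFn x) (tT m e) ∈
      ctxs (smp F xs) m (tT m e) := by
  have hA := h2 n m (smp F xs)
  obtain ⟨h3, h4⟩ := h1 n m _ hA (tT m e)
  rw [mem_ctxs hN]
  by_contra hc
  push Not at hc
  set π := path (adm (smp F xs) (conjs (lits n) m)) (List.ofFn x) (tT m e) with hπ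
  have h5 : ∀ j, satB π (List.ofFn (xs j)) = false := by
    intro j
    by_contra hj
    rw [Bool.not_eq_false] at hj
    exact hc j (h4 (xs j) x hj)
  have h6 : ∀ b, cnt (smp F xs) π b = 0 := by
    intro b
    unfold cnt
    rw [List.length_eq_zero_iff, List.filter_eq_nil_iff]
    intro p hp
    unfold smp at hp
    rw [List.mem_ofFn] at hp
    obtain ⟨j, rfl⟩ := hp
    simp [h5 j]
  have h7 := cnt_close h8 h9 hG (h3 x).1 false
  have h10 := cnt_close h8 h9 hG (h3 x).1 true
  have h11 := Ex_satT_split F (tm n π)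
  rw [← hπ] at h7 h10
  rw [h6] at h7 h10
  simp only [Nat.cast_zero, zero_div, zero_sub, abs_neg] at h7 h10
  rw [abs_of_nonneg (prb_nonneg _ _ _)] at h7 h10
  have h12 := ctx_len (t := tT m e) h1 h8 hA x
  rw [← hπ, ← h11] at h12
  have h13 : ((1024 * e * 2 ^ (m * tT m e) : ℕ) : ℝ) ≤ (Rr k m n e : ℝ) := by
    exact_mod_cast Rr_ge k m n e
  push_cast at h13
  have he' : (1 : ℝ) ≤ e := by exact_mod_cast he
  have h14 : (1 : ℝ) / (Rr k m n e : ℝ) ≤ 1 / 1024 * (1 / 2) ^ (m * tT m e) := by
    rw [div_le_iff₀ (by exact_mod_cast Rr_pos k m n e he)]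
    have h15 : (1 / 2 : ℝ) ^ (m * tT m e) * 2 ^ (m * tT m e) = 1 := by
      rw [← mul_pow]; norm_num
    have h16 : (1024 : ℝ) * 2 ^ (m * tT m e) ≤ Rr k m n e := by
      refine le_trans ?_ h13
      have : (0 : ℝ) < 2 ^ (m * tT m e) := by positivity
      nlinarith
    have h17 : (0 : ℝ) < (1 / 2) ^ (m * tT m e) := by positivity
    calc (1 : ℝ) = 1 / 1024 * (1 / 2) ^ (m * tT m e) * (1024 * 2 ^ (m * tT m e)) := by
          rw [show (1 / 1024 : ℝ) * (1 / 2) ^ (m * tT m e) * (1024 * 2 ^ (m * tT m e)) =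
            (1 / 2) ^ (m * tT m e) * 2 ^ (m * tT m e) by ring, h15]
      _ ≤ _ := by gcongr
  have h18 : (0 : ℝ) < (1 / 2) ^ (m * tT m e) := by positivity
  linarith

/-- Positive points which are not alive and satisfy no long term are accepted. -/
theorem accept (h0 : S_LEAF) (h1 : S_TREE) (h2 : S_FAIR) (h3 : S_STOP) (h5 : S_RES) (h8 : S_BRI)
    (h9 : S_CNT) (hk : 1 ≤ k) (hl : 1 ≤ l) (hkl : 10 * k * (3 / 4 : ℝ) ^ l ≤ 1)
    (hm : 4 * k * l ≤ m) (he : 1 ≤ e) (hN : 1 ≤ N) (hF : ReadK k F)
    (hG : Good (1 / (Rr k m n e : ℝ)) F xs) (x : Pt n) (hx : on F x = true)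
    (hal : aliveB (adm (smp F xs) (conjs (lits n) m)) (List.ofFn x) (tT m e) = false)
    (hsh : ∀ T ∈ F, Nat.size (8 * (k * n + 1) * e) ≤ len T → satT T x = false) :
    evalH (alg k m (List.replicate e (), smp F xs)) x = true := by
  have hA := h2 n m (smp F xs)
  obtain ⟨h4, h4'⟩ := h1 n m _ hA (tT m e)
  have hpm := path_mem h1 h2 h8 h9 hN he hG x
  set π := path (adm (smp F xs) (conjs (lits n) m)) (List.ofFn x) (tT m e) with hπ
  obtain ⟨hwf, hlen, hsat⟩ := h4 x
  rw [← hπ] at hwf hlen hsat
  rw [evalH_iff, alg_eq hN]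
  unfold algG
  by_cases hH : 8 * e * cnt (smp F xs) π false ≤ cnt (smp F xs) π false + cnt (smp F xs) π true
  · refine ⟨π, List.mem_append_left _ ?_, hsat⟩
    rw [List.mem_filter]
    exact ⟨hpm, by simpa using hH⟩
  · have hno : adm (smp F xs) (conjs (lits n) m) π = none := by
      rcases h3 (smp F xs) (lits n) m (tT m e) (List.ofFn x) hal with h | h
      · exact h
      · rw [← hπ] at h
        rw [h] at hH
        simp at hH
    obtain ⟨F', hF', hI, hd, hon, hlong⟩ := h5 k n F (tm n π) hF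
    have hsatπ : satT (tm n π) x = true := by rw [← (h8.1 n π hwf).2.1 x]; exact hsat
    have hlens : ∀ T ∈ F', m ≤ len T := by
      intro T hT
      by_contra hc
      push Not at hc
      obtain ⟨ht1, ht2, ht3, ht4⟩ := h8.2.2.1 n T
      have hmem : tl T ∈ conjs (lits n) m := h8.2.2.2 n m T hc.le
      have hfr : freshB π (tl T) = true := by
        rw [freshB_iff]
        intro a ha
        refine ⟨?_, filter_length_le ht3.1 _⟩
        by_contra hv
        rw [Bool.not_eq_false] at hv
        have hlt := ht3.2 a ha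
        have h10 := ((h8.1 n π hwf).2.2 ⟨a.1, hlt⟩).2 hv
        have h11 : T ⟨a.1, hlt⟩ = some a.2 := (ht4 ⟨a.1, hlt⟩ a.2).1 ha
        exact Finset.disjoint_left.1 (hd T hT) (mem_vars.2 (by rw [h11]; simp))
          (mem_vars.2 h10)
      have hc0 : cnt (smp F xs) (π ++ tl T) false = 0 := by
        refine cnt_eq_zero fun y hy => ?_
        rw [satB_append, Bool.and_eq_true] at hy
        have h12 : satT (tm n π) y = true := by rw [← (h8.1 n π hwf).2.1 y]; exact hy.1
        rw [hon y h12, on_iff]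
        exact ⟨T, hT, by rw [← ht1 y]; exact hy.2⟩
      unfold adm at hno
      rw [List.head?_eq_none_iff, List.filter_eq_nil_iff] at hno
      have := hno (tl T) hmem
      rw [hfr, hc0] at this
      simp at this
    have hon' : on F' x = true := by rw [← hon x hsatπ]; exact hx
    obtain ⟨T, hT, hTx⟩ := on_iff.1 hon'
    obtain ⟨T0, hT0, hle, heq⟩ := hlong T hT
    have hT0x : satT T0 x = true := by rw [← heq x hsatπ]; exact hTx
    have hlt : len T < Nat.size (8 * (k * n + 1) * e) := by
      by_contra hc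
      push Not at hc
      have := hsh T0 hT0 (hc.trans hle)
      rw [hT0x] at this
      exact absurd this (by simp)
    obtain ⟨K, hK, hKs⟩ := h0 k l m n e N F F' xs π T hk hl hkl hm he hN hG hpm hwf hlen hH hF' hI
      hd hon hlens hT hlt
    refine ⟨K, List.mem_append_right _ ?_, ?_⟩
    · rw [List.mem_filter]
      refine ⟨hK, ?_⟩
      have : cnt (smp F xs) K false = 0 := by
        refine cnt_eq_zero fun y hy => ?_
        rw [hKs y, Bool.and_eq_true] at hy
        rw [hon y hy.1, on_iff]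
        exact ⟨T, hT, hy.2⟩
      simp [this]
    · rw [hKs x, hsatπ, hTx]; rfl

end Pool.Agent.Q216.RK
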