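import Pool.Agent.Q216.RK.Err2

/-!
# The error of the algorithm on good samples, conclusion
-/

namespace Pool.Agent.Q216.RK

open Finset

variable {n N : ℕ} {k l m e : ℕ} {F : Finset (Tm n)} {xs : Fin N → Pt n}

theorem ctxs_subset (hN : 1 ≤ N) {t : ℕ} : (ctxs (smp F xs) m t).toFinset ⊆
    Finset.univ.image fun y : Pt n => path (adm (smp F xs) (conjs (lits n) m)) (List.ofFn y) t := by
  intro π hπ
  rw [List.mem_toFinset, mem_ctxs hN] at hπ
  obtain ⟨j, rfl⟩ := hπ
  exact Finset.mem_image_of_mem _ (Finset.mem_univ _)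

/-- The false positives of the first list. -/
theorem err_one (h1 : S_TREE) (h2 : S_FAIR) (h8 : S_BRI) (h9 : S_CNT) (hN : 1 ≤ N) (he : 1 ≤ e)
    (hG : Good (1 / (Rr k m n e : ℝ)) F xs) :
    ∑ π ∈ (ctxs (smp F xs) m (tT m e)).toFinset.filter (fun π => 8 * e * cnt (smp F xs) π false ≤
      cnt (smp F xs) π false + cnt (smp F xs) π true), prb F (tm n π) false ≤ 2 / (8 * e) := by
  have hA := h2 n m (smp F xs)
  obtain ⟨h3, h4⟩ := h1 n m _ hA (tT m e)
  have he' : (1 : ℝ) ≤ e := by exact_mod_cast he
  set τ := 1 / (Rr k m n e : ℝ) with hτ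
  have hR : (0 : ℝ) < Rr k m n e := by exact_mod_cast Rr_pos k m n e he
  have hτ0 : 0 < τ := by rw [hτ]; positivity
  have hN' : (0 : ℝ) < N := by exact_mod_cast hN
  have key : ∀ π ∈ (ctxs (smp F xs) m (tT m e)).toFinset.filter
      (fun π => 8 * e * cnt (smp F xs) π false ≤
      cnt (smp F xs) π false + cnt (smp F xs) π true),
      prb F (tm n π) false ≤ (1 / 2) ^ len (tm n π) / (8 * e) + 2 * τ := by
    intro π hπ
    rw [Finset.mem_filter] at hπ
    obtain ⟨hπ, hc⟩ := hπ
    obtain ⟨y, -, rfl⟩ := Finset.mem_image.1 (ctxs_subset hN hπ)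
    have h5 := cnt_close h8 h9 hG (h3 y).1 false
    have h6 := cnt_close h8 h9 hG (h3 y).1 true
    set π := path (adm (smp F xs) (conjs (lits n) m)) (List.ofFn y) (tT m e)
    rw [abs_le] at h5 h6
    have h7 := Ex_satT_split F (tm n π)
    have h8' : (8 * e : ℝ) * ((cnt (smp F xs) π false : ℝ) / N) ≤
        (cnt (smp F xs) π false : ℝ) / N + (cnt (smp F xs) π true : ℝ) / N := by
      rw [← add_div, ← mul_div_assoc]
      gcongr
      exact_mod_cast hc
    have h9' : (cnt (smp F xs) π false : ℝ) / N ≤ ((1 / 2) ^ len (tm n π) + 2 * τ) / (8 * e) := by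
      rw [le_div_iff₀ (by positivity), mul_comm]
      linarith
    have h10 : ((1 / 2) ^ len (tm n π) + 2 * τ) / (8 * e) =
      (1 / 2) ^ len (tm n π) / (8 * e) + 2 * τ / (8 * e) := add_div _ _ _
    have h11 : 2 * τ / (8 * e) ≤ τ := by
      rw [div_le_iff₀ (by positivity)]
      nlinarith
    linarith
  refine (Finset.sum_le_sum key).trans ?_
  rw [Finset.sum_add_distrib, ← Finset.sum_div, Finset.sum_const, nsmul_eq_mul]
  have h12 : ∑ π ∈ (ctxs (smp F xs) m (tT m e)).toFinset.filter
      (fun π => 8 * e * cnt (smp F xs) π false ≤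
      cnt (smp F xs) π false + cnt (smp F xs) π true), (1 / 2 : ℝ) ^ len (tm n π) ≤ 1 := by
    refine le_trans ?_ (ctx_sum_Ex (t := tT m e) h1 h8 hA).le
    refine Finset.sum_le_sum_of_subset_of_nonneg
      ((Finset.filter_subset _ _).trans (ctxs_subset hN)) fun _ _ _ => by positivity
  have h13 : (((ctxs (smp F xs) m (tT m e)).toFinset.filter
      (fun π => 8 * e * cnt (smp F xs) π false ≤
      cnt (smp F xs) π false + cnt (smp F xs) π true)).card : ℝ) ≤ 2 ^ (m * tT m e) := by
    have := (Finset.card_le_card ((Finset.filter_subset (fun π => 8 * e * cnt (smp F xs) π false ≤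
      cnt (smp F xs) π false + cnt (smp F xs) π true) _).trans (ctxs_subset hN))).trans
        (ctx_card (t := tT m e) h1 h8 hA)
    exact_mod_cast this
  have h14 : ((1024 * e * 2 ^ (m * tT m e) : ℕ) : ℝ) ≤ (Rr k m n e : ℝ) := by
    exact_mod_cast Rr_ge k m n e
  push_cast at h14
  have h15 : (2 : ℝ) ^ (m * tT m e) * (2 * τ) ≤ 1 / (8 * e) := by
    rw [hτ, le_div_iff₀ (by positivity)]
    rw [show (2 : ℝ) ^ (m * tT m e) * (2 * (1 / (Rr k m n e : ℝ))) * (8 * e) =
      (16 * e * 2 ^ (m * tT m e)) / (Rr k m n e : ℝ) by field_simp; ring]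
    rw [div_le_one hR]
    refine le_trans ?_ h14
    have : (0 : ℝ) < e * 2 ^ (m * tT m e) := by positivity
    nlinarith
  have h16 : (∑ π ∈ (ctxs (smp F xs) m (tT m e)).toFinset.filter
      (fun π => 8 * e * cnt (smp F xs) π false ≤
      cnt (smp F xs) π false + cnt (smp F xs) π true), (1 / 2 : ℝ) ^ len (tm n π)) / (8 * e) ≤
      1 / (8 * e) := by gcongr
  have h17 : (((ctxs (smp F xs) m (tT m e)).toFinset.filter
      (fun π => 8 * e * cnt (smp F xs) π false ≤
      cnt (smp F xs) π false + cnt (smp F xs) π true)).card : ℝ) * (2 * τ) ≤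
      2 ^ (m * tT m e) * (2 * τ) := by gcongr
  have h18 : (2 : ℝ) / (8 * e) = 1 / (8 * e) + 1 / (8 * e) := by ring
  rw [h18]
  linarith

/-- The false positives of the second list. -/
theorem err_two (h1 : S_TREE) (h2 : S_FAIR) (h7 : S_NCAND) (h8 : S_BRI) (h9 : S_CNT) (hN : 1 ≤ N)
    (he : 1 ≤ e) (hG : Good (1 / (Rr k m n e : ℝ)) F xs) :
    ∑ K ∈ (cands (smp F xs) m (tT m e) k (bB k n e)).toFinset.filter
      (fun K => cnt (smp F xs) K false = 0),
      Ex (fun x : Pt n => ind (satB K (List.ofFn x)) * ind (decide (on F x = false))) ≤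
      1 / (8 * e) := by
  have hA := h2 n m (smp F xs)
  have he' : (1 : ℝ) ≤ e := by exact_mod_cast he
  have hR : (0 : ℝ) < Rr k m n e := by exact_mod_cast Rr_pos k m n e he
  have key : ∀ K ∈ (cands (smp F xs) m (tT m e) k (bB k n e)).toFinset.filter
      (fun K => cnt (smp F xs) K false = 0),
      Ex (fun x : Pt n => ind (satB K (List.ofFn x)) * ind (decide (on F x = false))) ≤
        1 / (Rr k m n e : ℝ) := by
    intro K hK
    rw [Finset.mem_filter] at hK
    rcases h8.2.1 n K with h | ⟨T, h⟩
    · have : ∀ x : Pt n, ind (satB K (List.ofFn x)) * ind (decide (on F x = false)) = 0 := by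
        intro x; rw [h x, ind_false, zero_mul]
      rw [Ex_congr this, Ex_zero]
      positivity
    · have h3 := hG T false
      rw [← h9 n N F xs K T false h, hK.2, abs_le] at h3
      have h4 : Ex (fun x : Pt n => ind (satB K (List.ofFn x)) * ind (decide (on F x = false))) =
          prb F T false := Ex_congr fun x => by rw [h x]
      rw [h4]
      have := h3.1
      simp only [Nat.cast_zero, zero_div, zero_sub, neg_le_neg_iff] at this
      exact this
  refine (Finset.sum_le_sum key).trans ?_
  rw [Finset.sum_const, nsmul_eq_mul]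
  have h3 : ((cands (smp F xs) m (tT m e) k (bB k n e)).toFinset.filter
      (fun K => cnt (smp F xs) K false = 0)).card ≤
      2 ^ (m * tT m e) * ((2 * n + 1) ^ k * (n * 2 ^ bB k n e)) := by
    refine (Finset.card_le_card (Finset.filter_subset _ _)).trans ?_
    refine (h7 _ _ _ _ _).trans ?_
    rw [dimS_smp F xs hN]
    exact Nat.mul_le_mul_right _ ((Finset.card_le_card (ctxs_subset hN)).trans
      (ctx_card (t := tT m e) h1 h8 hA))
  have h4 := Rr_ge' k m n e
  have h5 : (1024 * e : ℝ) * ((cands (smp F xs) m (tT m e) k (bB k n e)).toFinset.filter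
      (fun K => cnt (smp F xs) K false = 0)).card ≤ Rr k m n e := by
    have : 1024 * e * ((cands (smp F xs) m (tT m e) k (bB k n e)).toFinset.filter
      (fun K => cnt (smp F xs) K false = 0)).card ≤ Rr k m n e :=
      (Nat.mul_le_mul_left _ h3).trans h4
    exact_mod_cast this
  rw [mul_one_div, div_le_div_iff₀ hR (by positivity), one_mul]
  refine le_trans ?_ h5
  have : (0 : ℝ) ≤ e * ((cands (smp F xs) m (tT m e) k (bB k n e)).toFinset.filter
      (fun K => cnt (smp F xs) K false = 0)).card := by positivity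
  nlinarith

/-- Few points are alive. -/
theorem err_three (h2 : S_FAIR) (h4 : S_DEPTH) (he : 1 ≤ e) :
    Ex (fun x : Pt n => ind (aliveB (adm (smp F xs) (conjs (lits n) m)) (List.ofFn x) (tT m e))) ≤
      1 / (8 * e) := by
  refine (h4 n m _ (h2 n m (smp F xs)) (tT m e)).trans ?_
  unfold tT
  rw [pow_mul]
  have h0 : (0 : ℝ) ≤ 1 - (1 / 2) ^ m := by
    have : (1 / 2 : ℝ) ^ m ≤ 1 := pow_le_one₀ (by norm_num) (by norm_num)
    linarith
  have h1 : (1 - (1 / 2 : ℝ) ^ m) ^ (2 ^ m) ≤ 1 / 2 := by
    have h3 : 1 - (1 / 2 : ℝ) ^ m ≤ Real.exp (-((1 / 2 : ℝ) ^ m)) := by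
      have := Real.add_one_le_exp (-((1 / 2 : ℝ) ^ m))
      linarith
    have h5 : (1 - (1 / 2 : ℝ) ^ m) ^ (2 ^ m) ≤ Real.exp (-((1 / 2 : ℝ) ^ m)) ^ (2 ^ m) :=
      pow_le_pow_left₀ h0 h3 _
    refine h5.trans ?_
    rw [← Real.exp_nat_mul]
    have h6 : ((2 ^ m : ℕ) : ℝ) * -((1 / 2 : ℝ) ^ m) = -1 := by
      push_cast
      rw [mul_neg, ← mul_pow]
      norm_num
    rw [h6, Real.exp_neg, one_div]
    have h7 : (2 : ℝ) ≤ Real.exp 1 := by
      have := Real.add_one_le_exp (1 : ℝ)
      linarith
    exact inv_anti₀ (by norm_num) h7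
  have h3 : ((1 - (1 / 2 : ℝ) ^ m) ^ (2 ^ m)) ^ Nat.size (8 * e) ≤ (1 / 2) ^ Nat.size (8 * e) :=
    pow_le_pow_left₀ (pow_nonneg h0 _) h1 _
  refine h3.trans ?_
  rw [one_div, inv_pow, one_div]
  refine inv_anti₀ (by positivity) ?_
  have : 8 * e < 2 ^ Nat.size (8 * e) := Nat.lt_size_self _
  exact_mod_cast this.le

/-- Long terms are rarely satisfied. -/
theorem err_four (h6 : S_CARD) (he : 1 ≤ e) (hF : ReadK k F) :
    Ex (fun x : Pt n => ∑ T ∈ F.filter (fun T => Nat.size (8 * (k * n + 1) * e) ≤ len T),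
      ind (satT T x)) ≤ 1 / (8 * e) := by
  rw [Ex_sum]
  set L := Nat.size (8 * (k * n + 1) * e) with hL
  have h1 : ∀ T ∈ F.filter (fun T => L ≤ len T), Ex (fun x => ind (satT T x)) ≤ (1 / 2) ^ L := by
    intro T hT
    rw [Ex_satT]
    exact pow_le_pow_of_le_one (by norm_num) (by norm_num) (Finset.mem_filter.1 hT).2
  refine (Finset.sum_le_sum h1).trans ?_
  rw [Finset.sum_const, nsmul_eq_mul]
  have h2 : ((F.filter (fun T => L ≤ len T)).card : ℝ) ≤ k * n + 1 := by
    have := (Finset.card_le_card (Finset.filter_subset (fun T => L ≤ len T) F)).trans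
      (h6 k n F hF)
    exact_mod_cast this
  have h3 : (8 * (k * n + 1) * e : ℝ) ≤ 2 ^ L := by
    have : 8 * (k * n + 1) * e < 2 ^ L := Nat.lt_size_self _
    exact_mod_cast this.le
  have he' : (1 : ℝ) ≤ e := by exact_mod_cast he
  calc ((F.filter (fun T => L ≤ len T)).card : ℝ) * (1 / 2) ^ L ≤ (k * n + 1) * (1 / 2) ^ L := by
        gcongr
    _ ≤ 1 / (8 * e) := by
        rw [one_div, inv_pow, ← div_eq_mul_inv, div_le_div_iff₀ (by positivity) (by positivity)]
        linarith

theorem t_ERR (h0 : S_LEAF) (h1 : S_TREE) (h2 : S_FAIR) (h3 : S_STOP) (h4 : S_DEPTH) (h5 : S_RES)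
    (h6 : S_CARD) (h7 : S_NCAND) (h8 : S_BRI) (h9 : S_CNT) : S_ERR := by
  intro k l m n e N F xs hk hl hkl hm he hN hF hG
  set H := alg k m (List.replicate e (), smp F xs) with hH
  have hpt : ∀ x : Pt n, (if evalH H x = on F x then (0 : ℝ) else 1) ≤
      (∑ π ∈ (ctxs (smp F xs) m (tT m e)).toFinset.filter (fun π =>
        8 * e * cnt (smp F xs) π false ≤ cnt (smp F xs) π false + cnt (smp F xs) π true),
        ind (satT (tm n π) x) * ind (decide (on F x = false))) +
      (∑ K ∈ (cands (smp F xs) m (tT m e) k (bB k n e)).toFinset.filter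
        (fun K => cnt (smp F xs) K false = 0),
        ind (satB K (List.ofFn x)) * ind (decide (on F x = false))) +
      ind (aliveB (adm (smp F xs) (conjs (lits n) m)) (List.ofFn x) (tT m e)) +
      ∑ T ∈ F.filter (fun T => Nat.size (8 * (k * n + 1) * e) ≤ len T), ind (satT T x) := by
    intro x
    have hp1 : 0 ≤ ∑ π ∈ (ctxs (smp F xs) m (tT m e)).toFinset.filter (fun π =>
        8 * e * cnt (smp F xs) π false ≤ cnt (smp F xs) π false + cnt (smp F xs) π true),
        ind (satT (tm n π) x) * ind (decide (on F x = false)) :=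
      Finset.sum_nonneg fun _ _ => mul_nonneg (ind_nonneg _) (ind_nonneg _)
    have hp2 : 0 ≤ ∑ K ∈ (cands (smp F xs) m (tT m e) k (bB k n e)).toFinset.filter
        (fun K => cnt (smp F xs) K false = 0),
        ind (satB K (List.ofFn x)) * ind (decide (on F x = false)) :=
      Finset.sum_nonneg fun _ _ => mul_nonneg (ind_nonneg _) (ind_nonneg _)
    have hp3 := ind_nonneg (aliveB (adm (smp F xs) (conjs (lits n) m)) (List.ofFn x) (tT m e))
    have hp4 : 0 ≤ ∑ T ∈ F.filter (fun T => Nat.size (8 * (k * n + 1) * e) ≤ len T),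
      ind (satT T x) := Finset.sum_nonneg fun _ _ => ind_nonneg _
    split_ifs with hc
    · linarith
    · cases hx : on F x
      · -- false positive
        have hev : evalH H x = true := by
          cases h : evalH H x
          · rw [h, hx] at hc; exact absurd rfl hc
          · rfl
        obtain ⟨K, hK, hKx⟩ := evalH_iff.1 hev
        rw [hH, alg_eq hN] at hK
        unfold algG at hK
        rw [List.mem_append, List.mem_filter, List.mem_filter] at hK
        rcases hK with ⟨hK, hK'⟩ | ⟨hK, hK'⟩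
        · have hmem : K ∈ (ctxs (smp F xs) m (tT m e)).toFinset.filter (fun π =>
              8 * e * cnt (smp F xs) π false ≤
                cnt (smp F xs) π false + cnt (smp F xs) π true) := by
            rw [Finset.mem_filter, List.mem_toFinset]
            exact ⟨hK, by simpa using hK'⟩
          obtain ⟨y, -, hy⟩ := Finset.mem_image.1 (ctxs_subset hN (Finset.mem_filter.1 hmem).1)
          have hwf : Wf n K := by
            rw [← hy]; exact ((h1 n m _ (h2 n m (smp F xs)) (tT m e)).1 y).1
          have hs : satT (tm n K) x = true := by rw [← (h8.1 n K hwf).2.1 x]; exact hKx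
          have h10 : (1 : ℝ) ≤ ∑ π ∈ (ctxs (smp F xs) m (tT m e)).toFinset.filter (fun π =>
              8 * e * cnt (smp F xs) π false ≤ cnt (smp F xs) π false + cnt (smp F xs) π true),
              ind (satT (tm n π) x) * ind (decide (on F x = false)) := by
            refine le_trans ?_ (Finset.single_le_sum (f := fun π =>
              ind (satT (tm n π) x) * ind (decide (on F x = false)))
              (fun _ _ => mul_nonneg (ind_nonneg _) (ind_nonneg _)) hmem)
            simp [hs, hx, ind]
          rw [hx] at hp2 h10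
          linarith
        · have hmem : K ∈ (cands (smp F xs) m (tT m e) k (bB k n e)).toFinset.filter
              (fun K => cnt (smp F xs) K false = 0) := by
            rw [Finset.mem_filter, List.mem_toFinset]
            exact ⟨hK, by simpa using hK'⟩
          have h10 : (1 : ℝ) ≤ ∑ K ∈ (cands (smp F xs) m (tT m e) k (bB k n e)).toFinset.filter
              (fun K => cnt (smp F xs) K false = 0),
              ind (satB K (List.ofFn x)) * ind (decide (on F x = false)) := by
            refine le_trans ?_ (Finset.single_le_sum (f := fun K : Cj =>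
              ind (satB K (List.ofFn x)) * ind (decide (on F x = false)))
              (fun _ _ => mul_nonneg (ind_nonneg _) (ind_nonneg _)) hmem)
            simp [hKx, hx, ind]
          rw [hx] at hp1 h10
          linarith
      · -- false negative
        by_cases hal : aliveB (adm (smp F xs) (conjs (lits n) m)) (List.ofFn x) (tT m e) = true
        · rw [hal, ind_true]
          rw [hx] at hp1 hp2
          linarith
        · rw [Bool.not_eq_true] at hal
          by_cases hsh : ∀ T ∈ F, Nat.size (8 * (k * n + 1) * e) ≤ len T → satT T x = false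
          · have := accept h0 h1 h2 h3 h5 h8 h9 hk hl hkl hm he hN hF hG x hx hal hsh
            exact absurd (this.trans hx.symm) hc
          · push Not at hsh
            obtain ⟨T, hT, hT1, hT2⟩ := hsh
            rw [ne_eq, Bool.not_eq_false] at hT2
            have h10 : (1 : ℝ) ≤ ∑ T ∈ F.filter
                (fun T => Nat.size (8 * (k * n + 1) * e) ≤ len T), ind (satT T x) := by
              refine le_trans ?_ (Finset.single_le_sum (f := fun T : Tm n => ind (satT T x))
                (fun _ _ => ind_nonneg _) (Finset.mem_filter.2 ⟨hT, hT1⟩))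
              simp [hT2, ind]
            rw [hx] at hp1 hp2
            linarith
  have h10 := Ex_mono hpt
  rw [Ex_add, Ex_add, Ex_add, Ex_sum, Ex_sum] at h10
  have e1 := err_one (k := k) (m := m) h1 h2 h8 h9 hN he hG
  have e2 := err_two h1 h2 h7 h8 h9 hN he hG
  have e3 := err_three (n := n) (N := N) (m := m) (F := F) (xs := xs) h2 h4 he
  have e4 := err_four (k := k) h6 he hF
  have he' : (0 : ℝ) < e := by exact_mod_cast he
  have h11 : 2 / (8 * (e : ℝ)) + 1 / (8 * e) + 1 / (8 * e) + 1 / (8 * e) ≤ 1 / e := by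
    have : 2 / (8 * (e : ℝ)) + 1 / (8 * e) + 1 / (8 * e) + 1 / (8 * e) = 5 / 8 * (1 / e) := by
      field_simp; norm_num
    rw [this]
    have : 0 < 1 / (e : ℝ) := by positivity
    linarith
  refine le_trans ?_ h11
  unfold err
  refine h10.trans ?_
  unfold prb at e1
  linarith

end Pool.Agent.Q216.RK
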