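import Pool.Agent.Q216.RK.Err3
import Pool.Agent.Q216.RK.Stm2

/-!
# The error of the algorithm on good statistics
-/

namespace Pool.Agent.Q216.RK

open Finset

variable {n : ℕ} {k l m e : ℕ} {F : Finset (Tm n)} {v : Sta} {Z : Cj → Bool} {M : ℝ}
  {X : List (List Bool)}

/-- The members of the list of contexts. -/
theorem mem_ctxsV {τ : ℝ} (hG : GoodV τ F v Z M X) {t : ℕ} {π : Cj} (h : π ∈ ctxsV Z X n m t) :
    ∃ y : Pt n, path (admV Z (conjs (lits n) m)) (List.ofFn y) t = π := by
  unfold ctxsV at h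
  simp only [List.mem_map] at h
  obtain ⟨x, hx, rfl⟩ := h
  obtain ⟨y, rfl⟩ := hG.2.2.2.2.1 x hx
  exact ⟨y, rfl⟩

theorem ctxsV_subset {τ : ℝ} (hG : GoodV τ F v Z M X) {t : ℕ} : (ctxsV Z X n m t).toFinset ⊆
    Finset.univ.image fun y : Pt n => path (admV Z (conjs (lits n) m)) (List.ofFn y) t := by
  intro π hπ
  rw [List.mem_toFinset] at hπ
  obtain ⟨j, rfl⟩ := mem_ctxsV hG hπ
  exact Finset.mem_image_of_mem _ (Finset.mem_univ _)

/-- The statistic of a well-formed conjunction is close to its probability. -/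
theorem v_close (h8 : S_BRI) {τ : ℝ} (hG : GoodV τ F v Z M X) {K : Cj} (hK : Wf n K)
    (b : Bool) : |(v K b : ℝ) / M - prb F (tm n K) b| ≤ τ :=
  hG.2.1 K _ b (h8.1 n K hK).2.1

theorem tau_le (k m n e : ℕ) (he : 1 ≤ e) :
    1024 * e * (1 / (Rr k m n e : ℝ)) ≤ (1 / 2) ^ (m * tT m e) := by
  have hR : (0 : ℝ) < Rr k m n e := by exact_mod_cast Rr_pos k m n e he
  have h13 : ((1024 * e * 2 ^ (m * tT m e) : ℕ) : ℝ) ≤ (Rr k m n e : ℝ) := by
    exact_mod_cast Rr_ge k m n e
  push_cast at h13
  rw [mul_one_div, div_le_iff₀ hR]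
  have h15 : (1 / 2 : ℝ) ^ (m * tT m e) * 2 ^ (m * tT m e) = 1 := by
    rw [← mul_pow]; norm_num
  have h17 : (0 : ℝ) < (1 / 2) ^ (m * tT m e) := by positivity
  calc (1024 * e : ℝ) = (1 / 2) ^ (m * tT m e) * (1024 * e * 2 ^ (m * tT m e)) := by
        rw [show (1 / 2 : ℝ) ^ (m * tT m e) * (1024 * e * 2 ^ (m * tT m e)) =
          1024 * e * ((1 / 2) ^ (m * tT m e) * 2 ^ (m * tT m e)) by ring, h15, mul_one]
    _ ≤ _ := by gcongr

/-- Every context contains an example. -/
theorem path_memV (h1 : S_TREE) (h2 : S_FAIR2) (h8 : S_BRI) (he : 1 ≤ e)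
    (hG : GoodV (1 / (Rr k m n e : ℝ)) F v Z M X) (x : Pt n) :
    path (admV Z (conjs (lits n) m)) (List.ofFn x) (tT m e) ∈ ctxsV Z X n m (tT m e) := by
  have hA := h2 n m Z
  obtain ⟨h3, h4⟩ := h1 n m _ hA (tT m e)
  have h12 := ctx_len (t := tT m e) h1 h8 hA x
  have h13 := tau_le k m n e he
  have he' : (1 : ℝ) ≤ e := by exact_mod_cast he
  have hR : (0 : ℝ) < Rr k m n e := by exact_mod_cast Rr_pos k m n e he
  have hτ : (0 : ℝ) < 1 / (Rr k m n e : ℝ) := by positivity
  obtain ⟨y, hy, hys⟩ := hG.2.2.2.1 (tm n (path (admV Z (conjs (lits n) m)) (List.ofFn x) (tT m e)))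
    (by nlinarith)
  have h5 : satB (path (admV Z (conjs (lits n) m)) (List.ofFn x) (tT m e)) (List.ofFn y) = true := by
    rw [(h8.1 n _ (h3 x).1).2.1 y]; exact hys
  have h6 := h4 y x h5
  unfold ctxsV
  rw [List.mem_map]
  exact ⟨_, hy, h6⟩

/-- Conjunctions implying the formula pass the test. -/
theorem Z_of_imp {τ : ℝ} (hG : GoodV τ F v Z M X) {K : Cj} {T : Tm n}
    (hK : ∀ x : Pt n, satB K (List.ofFn x) = satT T x)
    (h : ∀ x : Pt n, satB K (List.ofFn x) = true → on F x = true) : Z K = true := by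
  rw [hG.2.2.1 K T hK]
  have h1 := hG.2.1 K T false hK
  have h2 : prb F T false = 0 := by
    unfold prb
    rw [← Ex_zero (n := n)]
    refine Ex_congr fun x => ?_
    cases hT : satT T x
    · rw [ind_false, zero_mul]
    · have := h x (by rw [hK x]; exact hT)
      rw [this]
      simp [ind]
  rw [h2, sub_zero] at h1
  exact (le_abs_self _).trans h1

/-- Positive points which are not alive and satisfy no long term are accepted. -/
theorem acceptV (h0 : S_LEAF2) (h1 : S_TREE) (h2 : S_FAIR2) (h3 : S_STOP2) (h5 : S_RES)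
    (h8 : S_BRI) (hk : 1 ≤ k) (hl : 1 ≤ l) (hkl : 10 * k * (3 / 4 : ℝ) ^ l ≤ 1)
    (hm : 4 * k * l ≤ m) (he : 1 ≤ e) (hF : ReadK k F)
    (hG : GoodV (1 / (Rr k m n e : ℝ)) F v Z M X) (x : Pt n) (hx : on F x = true)
    (hal : aliveB (admV Z (conjs (lits n) m)) (List.ofFn x) (tT m e) = false)
    (hsh : ∀ T ∈ F, Nat.size (8 * (k * n + 1) * e) ≤ len T → satT T x = false) :
    evalH (algV v Z X n m (tT m e) k (bB k n e) e) x = true := by
  have hA := h2 n m Z
  have hlenπ := ctx_len (t := tT m e) h1 h8 hA x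
  obtain ⟨h4, h4'⟩ := h1 n m _ hA (tT m e)
  have hpm := path_memV h1 h2 h8 he hG x
  set π := path (admV Z (conjs (lits n) m)) (List.ofFn x) (tT m e) with hπ
  obtain ⟨hwf, hlen, hsat⟩ := h4 x
  rw [← hπ] at hwf hlen hsat
  rw [evalH_iff]
  unfold algV
  have hM := hG.1
  have he' : (1 : ℝ) ≤ e := by exact_mod_cast he
  have hR : (0 : ℝ) < Rr k m n e := by exact_mod_cast Rr_pos k m n e he
  have hτ : (0 : ℝ) < 1 / (Rr k m n e : ℝ) := by positivity
  by_cases hH : 8 * e * v π false ≤ v π false + v π true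
  · refine ⟨π, List.mem_append_left _ ?_, hsat⟩
    rw [List.mem_filter]
    exact ⟨hpm, by simpa using hH⟩
  · have hno : admV Z (conjs (lits n) m) π = none := by
      rcases h3 Z (lits n) m (tT m e) (List.ofFn x) hal with h | h
      · exact h
      · exfalso
        apply hH
        rw [← hπ] at h
        have h6 := (hG.2.2.1 π (tm n π) (h8.1 n π hwf).2.1).1 h
        have h7 := v_close h8 hG hwf false
        have h9 := v_close h8 hG hwf true
        have h10 := Ex_satT_split F (tm n π)
        have h11 := tau_le k m n e he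
        rw [abs_le] at h7 h9
        have h12 : (8 * e : ℝ) * ((v π false : ℝ) / M) ≤
            (v π false : ℝ) / M + (v π true : ℝ) / M := by
          have h13 : (8 * e : ℝ) * ((v π false : ℝ) / M) ≤ 8 * e * (1 / (Rr k m n e : ℝ)) := by
            gcongr
          nlinarith
        rw [← add_div, ← mul_div_assoc, div_le_div_iff_of_pos_right hM] at h12
        exact_mod_cast h12
    obtain ⟨F', hF', hI, hd, hon, hlong⟩ := h5 k n F (tm n π) hF
    have hsatπ : satT (tm n π) x = true := by rw [← (h8.1 n π hwf).2.1 x]; exact hsat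
    have hlens : ∀ T ∈ F', m ≤ len T := by
      intro T hT
      by_contra hc
      push Not at hc
      obtain ⟨ht1, ht2, ht3, ht4⟩ := h8.2.2.1 n T
      have hmem : tl T ∈ conjs (lits n) m := h8.2.2.2 n m T hc.le
      have hvar : ∀ a ∈ tl T, hasVar π a.1 = false := by
        intro a ha
        by_contra hv
        rw [Bool.not_eq_false] at hv
        have hlt := ht3.2 a ha
        have h10 := ((h8.1 n π hwf).2.2 ⟨a.1, hlt⟩).2 hv
        have h11 : T ⟨a.1, hlt⟩ = some a.2 := (ht4 ⟨a.1, hlt⟩ a.2).1 ha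
        exact Finset.disjoint_left.1 (hd T hT) (mem_vars.2 (by rw [h11]; simp))
          (mem_vars.2 h10)
      have hfr : freshB π (tl T) = true := by
        rw [freshB_iff]
        intro a ha
        exact ⟨hvar a ha, filter_length_le ht3.1 _⟩
      have hwf' : Wf n (π ++ tl T) := by
        refine ⟨?_, ?_⟩
        · rw [List.map_append]
          refine List.Nodup.append hwf.1 ht3.1 ?_
          intro a ha hb
          rw [List.mem_map] at ha hb
          obtain ⟨c, hc1, hc2⟩ := ha
          obtain ⟨d, hd1, hd2⟩ := hb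
          have := hvar d hd1
          rw [← Bool.not_eq_true, hasVar_iff] at this
          exact this ⟨c, hc1, by rw [hc2, hd2]⟩
        · intro a ha
          rw [List.mem_append] at ha
          rcases ha with ha | ha
          · exact hwf.2 a ha
          · exact ht3.2 a ha
      have hc0 : Z (π ++ tl T) = true := by
        refine Z_of_imp hG (h8.1 n _ hwf').2.1 fun y hy => ?_
        rw [satB_append, Bool.and_eq_true] at hy
        have h12 : satT (tm n π) y = true := by rw [← (h8.1 n π hwf).2.1 y]; exact hy.1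
        rw [hon y h12, on_iff]
        exact ⟨T, hT, by rw [← ht1 y]; exact hy.2⟩
      unfold admV at hno
      rw [List.head?_eq_none_iff, List.filter_eq_nil_iff] at hno
      have := hno (tl T) hmem
      rw [hfr, hc0] at this
      simp at this
    have hon' : on F' x = true := by rw [← hon x hsatπ]; exact hx
    obtain ⟨T, hT, hTx⟩ := on_iff.1 hon'
    obtain ⟨T0, hT0, hle, heq⟩ := hlong T hT
    have hT0x : satT T0 x = true := by rw [← heq x hsatπ]; exact hTx
    have hlt : len T < Nat.size (8 * (k * n + 1) * e) := by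
      by_contra hc
      push Not at hc
      have := hsh T0 hT0 (hc.trans hle)
      rw [hT0x] at this
      exact absurd this (by simp)
    obtain ⟨K, hK, hKs⟩ := h0 k l m n e F F' v Z M X π T hk hl hkl hm he hG hpm hwf hlen hH hF' hI
      hd hon hlens hT hlt
    have hKx : satB K (List.ofFn x) = true := by rw [hKs x, hsatπ, hTx]; rfl
    refine ⟨K, List.mem_append_right _ ?_, hKx⟩
    rw [List.mem_filter]
    refine ⟨hK, ?_⟩
    rcases h8.2.1 n K with h | ⟨T', h⟩
    · rw [h x] at hKx
      exact absurd hKx (by simp)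
    · refine Z_of_imp hG h fun y hy => ?_
      rw [hKs y, Bool.and_eq_true] at hy
      rw [hon y hy.1, on_iff]
      exact ⟨T, hT, hy.2⟩

/-- The false positives of the first list. -/
theorem errV_one (h1 : S_TREE) (h2 : S_FAIR2) (h8 : S_BRI) (he : 1 ≤ e)
    (hG : GoodV (1 / (Rr k m n e : ℝ)) F v Z M X) :
    ∑ π ∈ (ctxsV Z X n m (tT m e)).toFinset.filter (fun π => 8 * e * v π false ≤
      v π false + v π true), prb F (tm n π) false ≤ 2 / (8 * e) := by
  have hA := h2 n m Z
  obtain ⟨h3, h4⟩ := h1 n m _ hA (tT m e)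
  have he' : (1 : ℝ) ≤ e := by exact_mod_cast he
  have hM := hG.1
  set τ := 1 / (Rr k m n e : ℝ) with hτ
  have hR : (0 : ℝ) < Rr k m n e := by exact_mod_cast Rr_pos k m n e he
  have hτ0 : 0 < τ := by rw [hτ]; positivity
  have key : ∀ π ∈ (ctxsV Z X n m (tT m e)).toFinset.filter
      (fun π => 8 * e * v π false ≤ v π false + v π true),
      prb F (tm n π) false ≤ (1 / 2) ^ len (tm n π) / (8 * e) + 2 * τ := by
    intro π hπ
    rw [Finset.mem_filter] at hπ
    obtain ⟨hπ, hc⟩ := hπ
    obtain ⟨y, -, rfl⟩ := Finset.mem_image.1 (ctxsV_subset hG hπ)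
    have h5 := v_close h8 hG (h3 y).1 false
    have h6 := v_close h8 hG (h3 y).1 true
    set π := path (admV Z (conjs (lits n) m)) (List.ofFn y) (tT m e)
    rw [abs_le] at h5 h6
    have h7 := Ex_satT_split F (tm n π)
    have h8' : (8 * e : ℝ) * ((v π false : ℝ) / M) ≤
        (v π false : ℝ) / M + (v π true : ℝ) / M := by
      rw [← add_div, ← mul_div_assoc]
      gcongr
      exact_mod_cast hc
    have h9' : (v π false : ℝ) / M ≤ ((1 / 2) ^ len (tm n π) + 2 * τ) / (8 * e) := by
      rw [le_div_iff₀ (by positivity), mul_comm]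
      linarith
    have h10 : ((1 / 2) ^ len (tm n π) + 2 * τ) / (8 * e) =
      (1 / 2) ^ len (tm n π) / (8 * e) + 2 * τ / (8 * e) := add_div _ _ _
    have h11 : 2 * τ / (8 * e) ≤ τ := by
      rw [div_le_iff₀ (by positivity)]
      nlinarith
    linarith
  refine (Finset.sum_le_sum key).trans ?_
  rw [Finset.sum_add_distrib, ← Finset.sum_div, Finset.sum_const, nsmul_eq_mul]
  have h12 : ∑ π ∈ (ctxsV Z X n m (tT m e)).toFinset.filter
      (fun π => 8 * e * v π false ≤ v π false + v π true), (1 / 2 : ℝ) ^ len (tm n π) ≤ 1 := by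
    refine le_trans ?_ (ctx_sum_Ex (t := tT m e) h1 h8 hA).le
    refine Finset.sum_le_sum_of_subset_of_nonneg
      ((Finset.filter_subset _ _).trans (ctxsV_subset hG)) fun _ _ _ => by positivity
  have h13 : (((ctxsV Z X n m (tT m e)).toFinset.filter
      (fun π => 8 * e * v π false ≤ v π false + v π true)).card : ℝ) ≤ 2 ^ (m * tT m e) := by
    have := (Finset.card_le_card ((Finset.filter_subset (fun π => 8 * e * v π false ≤
      v π false + v π true) _).trans (ctxsV_subset hG))).trans
        (ctx_card (t := tT m e) h1 h8 hA)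
    exact_mod_cast this
  have h14 := tau_le k m n e he
  rw [← hτ] at h14
  have h15 : (2 : ℝ) ^ (m * tT m e) * (2 * τ) ≤ 1 / (8 * e) := by
    rw [le_div_iff₀ (by positivity)]
    have h16 : (1 / 2 : ℝ) ^ (m * tT m e) * 2 ^ (m * tT m e) = 1 := by
      rw [← mul_pow]; norm_num
    have h17 : (0 : ℝ) < 2 ^ (m * tT m e) := by positivity
    calc (2 : ℝ) ^ (m * tT m e) * (2 * τ) * (8 * e) = 1 / 64 * (1024 * e * τ * 2 ^ (m * tT m e)) := by
          ring
      _ ≤ 1 / 64 * ((1 / 2) ^ (m * tT m e) * 2 ^ (m * tT m e)) := by gcongr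
      _ ≤ 1 := by rw [h16]; norm_num
  have h16 : (∑ π ∈ (ctxsV Z X n m (tT m e)).toFinset.filter
      (fun π => 8 * e * v π false ≤ v π false + v π true), (1 / 2 : ℝ) ^ len (tm n π)) / (8 * e) ≤
      1 / (8 * e) := by gcongr
  have h17 : (((ctxsV Z X n m (tT m e)).toFinset.filter
      (fun π => 8 * e * v π false ≤ v π false + v π true)).card : ℝ) * (2 * τ) ≤
      2 ^ (m * tT m e) * (2 * τ) := by gcongr
  have h18 : (2 : ℝ) / (8 * e) = 1 / (8 * e) + 1 / (8 * e) := by ring
  rw [h18]
  linarith

/-- The false positives of the second list. -/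
theorem errV_two (h1 : S_TREE) (h2 : S_FAIR2) (h7 : S_NCAND2) (h8 : S_BRI)
    (he : 1 ≤ e) (hG : GoodV (1 / (Rr k m n e : ℝ)) F v Z M X) :
    ∑ K ∈ (candsV v Z X n m (tT m e) k (bB k n e)).toFinset.filter (fun K => Z K = true),
      Ex (fun x : Pt n => ind (satB K (List.ofFn x)) * ind (decide (on F x = false))) ≤
      1 / (8 * e) := by
  have hA := h2 n m Z
  have he' : (1 : ℝ) ≤ e := by exact_mod_cast he
  have hR : (0 : ℝ) < Rr k m n e := by exact_mod_cast Rr_pos k m n e he
  have key : ∀ K ∈ (candsV v Z X n m (tT m e) k (bB k n e)).toFinset.filter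
      (fun K => Z K = true),
      Ex (fun x : Pt n => ind (satB K (List.ofFn x)) * ind (decide (on F x = false))) ≤
        2 / (Rr k m n e : ℝ) := by
    intro K hK
    rw [Finset.mem_filter] at hK
    rcases h8.2.1 n K with h | ⟨T, h⟩
    · have : ∀ x : Pt n, ind (satB K (List.ofFn x)) * ind (decide (on F x = false)) = 0 := by
        intro x; rw [h x, ind_false, zero_mul]
      rw [Ex_congr this, Ex_zero]
      positivity
    · have h3 := hG.2.1 K T false h
      have h5 := (hG.2.2.1 K T h).1 hK.2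
      rw [abs_le] at h3
      have h4 : Ex (fun x : Pt n => ind (satB K (List.ofFn x)) * ind (decide (on F x = false))) =
          prb F T false := Ex_congr fun x => by rw [h x]
      rw [h4]
      have h6 : (2 : ℝ) / (Rr k m n e : ℝ) = 1 / (Rr k m n e : ℝ) + 1 / (Rr k m n e : ℝ) := by ring
      rw [h6]
      linarith
  refine (Finset.sum_le_sum key).trans ?_
  rw [Finset.sum_const, nsmul_eq_mul]
  have h3 : ((candsV v Z X n m (tT m e) k (bB k n e)).toFinset.filter
      (fun K => Z K = true)).card ≤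
      2 ^ (m * tT m e) * ((2 * n + 1) ^ k * (n * 2 ^ bB k n e)) := by
    refine (Finset.card_le_card (Finset.filter_subset _ _)).trans ?_
    refine (h7 _ _ _ _ _ _ _ _).trans ?_
    exact Nat.mul_le_mul_right _ ((Finset.card_le_card (ctxsV_subset hG)).trans
      (ctx_card (t := tT m e) h1 h8 hA))
  have h4 := Rr_ge' k m n e
  have h5 : (1024 * e : ℝ) * ((candsV v Z X n m (tT m e) k (bB k n e)).toFinset.filter
      (fun K => Z K = true)).card ≤ Rr k m n e := by
    have : 1024 * e * ((candsV v Z X n m (tT m e) k (bB k n e)).toFinset.filter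
      (fun K => Z K = true)).card ≤ Rr k m n e :=
      (Nat.mul_le_mul_left _ h3).trans h4
    exact_mod_cast this
  rw [mul_div_assoc', div_le_div_iff₀ hR (by positivity), one_mul]
  refine le_trans ?_ h5
  have : (0 : ℝ) ≤ e * ((candsV v Z X n m (tT m e) k (bB k n e)).toFinset.filter
      (fun K => Z K = true)).card := by positivity
  nlinarith

/-- Few points are alive. -/
theorem errV_three (h2 : S_FAIR2) (h4 : S_DEPTH) (he : 1 ≤ e) :
    Ex (fun x : Pt n => ind (aliveB (admV Z (conjs (lits n) m)) (List.ofFn x) (tT m e))) ≤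
      1 / (8 * e) := by
  refine (h4 n m _ (h2 n m Z) (tT m e)).trans ?_
  unfold tT
  rw [pow_mul]
  have h0 : (0 : ℝ) ≤ 1 - (1 / 2) ^ m := by
    have : (1 / 2 : ℝ) ^ m ≤ 1 := pow_le_one₀ (by norm_num) (by norm_num)
    linarith
  have h1 : (1 - (1 / 2 : ℝ) ^ m) ^ (2 ^ m) ≤ 1 / 2 := by
    have h3 : 1 - (1 / 2 : ℝ) ^ m ≤ Real.exp (-((1 / 2 : ℝ) ^ m)) := by
      have := Real.add_one_le_exp (-((1 / 2 : ℝ) ^ m))
      linarith
    have h5 : (1 - (1 / 2 : ℝ) ^ m) ^ (2 ^ m) ≤ Real.exp (-((1 / 2 : ℝ) ^ m)) ^ (2 ^ m) :=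
      pow_le_pow_left₀ h0 h3 _
    refine h5.trans ?_
    rw [← Real.exp_nat_mul]
    have h6 : ((2 ^ m : ℕ) : ℝ) * -((1 / 2 : ℝ) ^ m) = -1 := by
      push_cast
      rw [mul_neg, ← mul_pow]
      norm_num
    rw [h6, Real.exp_neg, one_div]
    have h7 : (2 : ℝ) ≤ Real.exp 1 := by
      have := Real.add_one_le_exp (1 : ℝ)
      linarith
    exact inv_anti₀ (by norm_num) h7
  have h3 : ((1 - (1 / 2 : ℝ) ^ m) ^ (2 ^ m)) ^ Nat.size (8 * e) ≤ (1 / 2) ^ Nat.size (8 * e) :=
    pow_le_pow_left₀ (pow_nonneg h0 _) h1 _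
  refine h3.trans ?_
  rw [one_div, inv_pow, one_div]
  refine inv_anti₀ (by positivity) ?_
  have : 8 * e < 2 ^ Nat.size (8 * e) := Nat.lt_size_self _
  exact_mod_cast this.le

theorem t_ERR2 (h0 : S_LEAF2) (h1 : S_TREE) (h2 : S_FAIR2) (h3 : S_STOP2) (h4 : S_DEPTH)
    (h5 : S_RES) (h6 : S_CARD) (h7 : S_NCAND2) (h8 : S_BRI) : S_ERR2 := by
  intro k l m n e F v Z M X hk hl hkl hm he hF hG
  set H := algV v Z X n m (tT m e) k (bB k n e) e with hH
  have hpt : ∀ x : Pt n, (if evalH H x = on F x then (0 : ℝ) else 1) ≤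
      (∑ π ∈ (ctxsV Z X n m (tT m e)).toFinset.filter (fun π =>
        8 * e * v π false ≤ v π false + v π true),
        ind (satT (tm n π) x) * ind (decide (on F x = false))) +
      (∑ K ∈ (candsV v Z X n m (tT m e) k (bB k n e)).toFinset.filter
        (fun K => Z K = true),
        ind (satB K (List.ofFn x)) * ind (decide (on F x = false))) +
      ind (aliveB (admV Z (conjs (lits n) m)) (List.ofFn x) (tT m e)) +
      ∑ T ∈ F.filter (fun T => Nat.size (8 * (k * n + 1) * e) ≤ len T), ind (satT T x) := by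
    intro x
    have hp1 : 0 ≤ ∑ π ∈ (ctxsV Z X n m (tT m e)).toFinset.filter (fun π =>
        8 * e * v π false ≤ v π false + v π true),
        ind (satT (tm n π) x) * ind (decide (on F x = false)) :=
      Finset.sum_nonneg fun _ _ => mul_nonneg (ind_nonneg _) (ind_nonneg _)
    have hp2 : 0 ≤ ∑ K ∈ (candsV v Z X n m (tT m e) k (bB k n e)).toFinset.filter
        (fun K => Z K = true),
        ind (satB K (List.ofFn x)) * ind (decide (on F x = false)) :=
      Finset.sum_nonneg fun _ _ => mul_nonneg (ind_nonneg _) (ind_nonneg _)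
    have hp3 := ind_nonneg (aliveB (admV Z (conjs (lits n) m)) (List.ofFn x) (tT m e))
    have hp4 : 0 ≤ ∑ T ∈ F.filter (fun T => Nat.size (8 * (k * n + 1) * e) ≤ len T),
      ind (satT T x) := Finset.sum_nonneg fun _ _ => ind_nonneg _
    split_ifs with hc
    · linarith
    · cases hx : on F x
      · -- false positive
        have hev : evalH H x = true := by
          cases h : evalH H x
          · rw [h, hx] at hc; exact absurd rfl hc
          · rfl
        obtain ⟨K, hK, hKx⟩ := evalH_iff.1 hev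
        rw [hH] at hK
        unfold algV at hK
        rw [List.mem_append, List.mem_filter, List.mem_filter] at hK
        rcases hK with ⟨hK, hK'⟩ | ⟨hK, hK'⟩
        · have hmem : K ∈ (ctxsV Z X n m (tT m e)).toFinset.filter (fun π =>
              8 * e * v π false ≤ v π false + v π true) := by
            rw [Finset.mem_filter, List.mem_toFinset]
            exact ⟨hK, by simpa using hK'⟩
          obtain ⟨y, -, hy⟩ := Finset.mem_image.1 (ctxsV_subset hG (Finset.mem_filter.1 hmem).1)
          have hwf : Wf n K := by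
            rw [← hy]; exact ((h1 n m _ (h2 n m Z) (tT m e)).1 y).1
          have hs : satT (tm n K) x = true := by rw [← (h8.1 n K hwf).2.1 x]; exact hKx
          have h10 : (1 : ℝ) ≤ ∑ π ∈ (ctxsV Z X n m (tT m e)).toFinset.filter (fun π =>
              8 * e * v π false ≤ v π false + v π true),
              ind (satT (tm n π) x) * ind (decide (on F x = false)) := by
            refine le_trans ?_ (Finset.single_le_sum (f := fun π =>
              ind (satT (tm n π) x) * ind (decide (on F x = false)))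
              (fun _ _ => mul_nonneg (ind_nonneg _) (ind_nonneg _)) hmem)
            simp [hs, hx, ind]
          rw [hx] at hp2 h10
          linarith
        · have hmem : K ∈ (candsV v Z X n m (tT m e) k (bB k n e)).toFinset.filter
              (fun K => Z K = true) := by
            rw [Finset.mem_filter, List.mem_toFinset]
            exact ⟨hK, hK'⟩
          have h10 : (1 : ℝ) ≤ ∑ K ∈ (candsV v Z X n m (tT m e) k (bB k n e)).toFinset.filter
              (fun K => Z K = true),
              ind (satB K (List.ofFn x)) * ind (decide (on F x = false)) := by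
            refine le_trans ?_ (Finset.single_le_sum (f := fun K : Cj =>
              ind (satB K (List.ofFn x)) * ind (decide (on F x = false)))
              (fun _ _ => mul_nonneg (ind_nonneg _) (ind_nonneg _)) hmem)
            simp [hKx, hx, ind]
          rw [hx] at hp1 h10
          linarith
      · -- false negative
        by_cases hal : aliveB (admV Z (conjs (lits n) m)) (List.ofFn x) (tT m e) = true
        · rw [hal, ind_true]
          rw [hx] at hp1 hp2
          linarith
        · rw [Bool.not_eq_true] at hal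
          by_cases hsh : ∀ T ∈ F, Nat.size (8 * (k * n + 1) * e) ≤ len T → satT T x = false
          · have := acceptV h0 h1 h2 h3 h5 h8 hk hl hkl hm he hF hG x hx hal hsh
            exact absurd (this.trans hx.symm) hc
          · push Not at hsh
            obtain ⟨T, hT, hT1, hT2⟩ := hsh
            rw [ne_eq, Bool.not_eq_false] at hT2
            have h10 : (1 : ℝ) ≤ ∑ T ∈ F.filter
                (fun T => Nat.size (8 * (k * n + 1) * e) ≤ len T), ind (satT T x) := by
              refine le_trans ?_ (Finset.single_le_sum (f := fun T : Tm n => ind (satT T x))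
                (fun _ _ => ind_nonneg _) (Finset.mem_filter.2 ⟨hT, hT1⟩))
              simp [hT2, ind]
            rw [hx] at hp1 hp2
            linarith
  have h10 := Ex_mono hpt
  rw [Ex_add, Ex_add, Ex_add, Ex_sum, Ex_sum] at h10
  have e1 := errV_one (k := k) (m := m) h1 h2 h8 he hG
  have e2 := errV_two h1 h2 h7 h8 he hG
  have e3 := errV_three (n := n) (m := m) (Z := Z) h2 h4 he
  have e4 := err_four (k := k) h6 he hF
  have he' : (0 : ℝ) < e := by exact_mod_cast he
  have h11 : 2 / (8 * (e : ℝ)) + 1 / (8 * e) + 1 / (8 * e) + 1 / (8 * e) ≤ 3 / (4 * e) := by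
    have : 2 / (8 * (e : ℝ)) + 1 / (8 * e) + 1 / (8 * e) + 1 / (8 * e) = 5 / 8 * (1 / e) := by
      field_simp; norm_num
    rw [this]
    have h12 : 3 / (4 * (e : ℝ)) = 3 / 4 * (1 / e) := by field_simp
    rw [h12]
    have : 0 < 1 / (e : ℝ) := by positivity
    linarith
  refine le_trans ?_ h11
  unfold err
  refine h10.trans ?_
  unfold prb at e1
  linarith

end Pool.Agent.Q216.RK
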