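import Pool.Agent.Q216.RK.ErrN

/-!
# Learning read-k DNF formulas with noise: the main theorem from the lemmas
-/

namespace Pool.Agent.Q216.RK

open Finset

theorem dimS_smpN {n q N : ℕ} (p : ℕ) (f : Pt n → Bool) (xs : Fin N → Pt n × Fin q)
    (hN : 1 ≤ N) : dimS (smpN p f xs) = n := by
  obtain ⟨N, rfl⟩ := Nat.exists_eq_add_of_le' hN
  simp [dimS, smpN, List.ofFn_succ]

theorem algN_eq {k m n q N e : ℕ} (p : ℕ) (f : Pt n → Bool) (xs : Fin N → Pt n × Fin q)
    (hN : 1 ≤ N) : algN k m (List.replicate e (), (p, q), smpN p f xs) =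
    algV (valS p q (smpN p f xs)) (zerS p q (Rr k m n e) (smpN p f xs))
      ((smpN p f xs).map Prod.fst) n m (tT m e) k (bB k n e) e := by
  unfold algN
  simp only [List.length_replicate]
  rw [dimS_smpN p f xs hN]

/-- Changing the target function. -/
theorem errf_le {n : ℕ} (F : Finset (Tm n)) (f : Pt n → Bool) (H : List Cj) :
    errf f H ≤ err F H + (Finset.univ.filter (fun x => f x ≠ on F x)).card / 2 ^ n := by
  have h1 : ((Finset.univ.filter (fun x => f x ≠ on F x)).card : ℝ) / 2 ^ n =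
      Ex (fun x => if f x ≠ on F x then 1 else 0) := by
    unfold Ex
    rw [Finset.sum_boole]
  rw [h1]
  unfold errf err
  rw [← Ex_add]
  refine Ex_mono fun x => ?_
  by_cases h2 : f x = on F x
  · rw [h2]; simp
  · have h3 : (if evalH H x = on F x then (0 : ℝ) else 1) ≥ 0 := by split_ifs <;> norm_num
    have h4 : (if evalH H x = f x then (0 : ℝ) else 1) ≤ 1 := by split_ifs <;> norm_num
    rw [if_pos h2]
    linarith

theorem exists_l (k : ℕ) : ∃ l : ℕ, 1 ≤ l ∧ 10 * k * (3 / 4 : ℝ) ^ l ≤ 1 := by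
  have h := tendsto_pow_atTop_nhds_zero_of_lt_one (r := (3 / 4 : ℝ)) (by norm_num) (by norm_num)
  have h2 : Filter.Tendsto (fun l : ℕ => 10 * (k : ℝ) * (3 / 4 : ℝ) ^ l) Filter.atTop
      (nhds (10 * k * 0)) := h.const_mul _
  rw [mul_zero] at h2
  have h3 := (h2.eventually (ge_mem_nhds (show (0 : ℝ) < 1 by norm_num))).and
    (Filter.eventually_ge_atTop 1)
  obtain ⟨l, h4, h5⟩ := h3.exists
  exact ⟨l, h5, h4⟩

theorem t_MAIN (h1 : S_ERR2) (h2 : S_GOOD2) (h3 : S_NUM) (h4 : S_POLY2) : S_MAIN := by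
  intro k
  obtain ⟨l, hl, hkl⟩ := exists_l (k + 1)
  set m := 4 * (k + 1) * l with hm
  obtain ⟨c, hc⟩ := h3 (k + 1) m
  refine ⟨algN (k + 1) m, c + 4, h4 (k + 1) m, ?_⟩
  intro n e d w p q N he hpq hw hN F hF f hf
  set R := Rr (k + 1) m n e with hR
  have hR1 : 1 ≤ R := Rr_pos (k + 1) m n e he
  have hF' : ReadK (k + 1) F := fun i => (hF i).trans (Nat.le_succ k)
  have hN1 : 1 ≤ N := le_trans (Nat.one_le_pow _ _ (by omega)) hN
  have hw1 : 1 ≤ w := by
    rcases Nat.eq_zero_or_pos w with h | h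
    · subst h; omega
    · exact h
  have e1 : 2 * R ≤ (n + e + 2) ^ (c + 4) := by
    have h5 := hc n e 0 he
    rw [← hR] at h5
    calc 2 * R ≤ 8 * (2 * n + 0 + 4) * R ^ 2 := by nlinarith
      _ ≤ (n + e + 0 + 2) ^ c := h5
      _ ≤ (n + e + 2) ^ (c + 4) := Nat.pow_le_pow_right (by omega) (by omega)
  have e2 : 2 * R * (Finset.univ.filter (fun x => f x ≠ on F x)).card ≤ 2 ^ n :=
    (Nat.mul_le_mul_right _ e1).trans hf
  have e3 : 32 * w ^ 2 * R ^ 2 * (2 * n + d + 4) ≤ N := by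
    have h5 := hc n e d he
    rw [← hR] at h5
    refine le_trans ?_ hN
    have h6 : w ^ 2 ≤ (n + e + d + w + 2) ^ 2 := Nat.pow_le_pow_left (by omega) 2
    have h7 : 4 ≤ (n + e + d + w + 2) ^ 2 := by nlinarith
    have h8 : (n + e + d + 2) ^ c ≤ (n + e + d + w + 2) ^ c := Nat.pow_le_pow_left (by omega) c
    calc 32 * w ^ 2 * R ^ 2 * (2 * n + d + 4) = 4 * w ^ 2 * (8 * (2 * n + d + 4) * R ^ 2) := by ring
      _ ≤ (n + e + d + w + 2) ^ 2 * (n + e + d + w + 2) ^ 2 * (n + e + d + w + 2) ^ c := by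
          gcongr
          exact h5.trans h8
      _ = (n + e + d + w + 2) ^ (c + 4) := by ring
  have h5 := h2 n N d p q w R F f hpq hw hR1 e2 e3
  refine le_trans (Nat.mul_le_mul_left _ ?_) h5
  refine Nat.card_le_card_of_injective (fun xs => ⟨xs.1, fun hg => ?_⟩)
    (fun a b hab => Subtype.ext (by simpa using hab))
  have h6 := h1 (k + 1) l m n e F _ _ _ _ (by omega) hl hkl le_rfl he hF' hg
  rw [← algN_eq p f xs.1 hN1] at h6
  have h7 := errf_le F f (algN (k + 1) m (List.replicate e (), (p, q), smpN p f xs.1))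
  have he' : (1 : ℝ) ≤ e := by exact_mod_cast he
  have hRpos : (0 : ℝ) < R := by exact_mod_cast hR1
  have h8 : ((Finset.univ.filter (fun x => f x ≠ on F x)).card : ℝ) / 2 ^ n ≤ 1 / (4 * e) := by
    have h9 : ((2 * R * (Finset.univ.filter (fun x => f x ≠ on F x)).card : ℕ) : ℝ) ≤
        ((2 ^ n : ℕ) : ℝ) := by exact_mod_cast e2
    push_cast at h9
    have h10 : ((1024 * e * 2 ^ (m * tT m e) : ℕ) : ℝ) ≤ (R : ℝ) := by
      exact_mod_cast Rr_ge (k + 1) m n e
    push_cast at h10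
    have h11 : (1 : ℝ) ≤ 2 ^ (m * tT m e) := one_le_pow₀ (by norm_num)
    have h12 : (1024 * e : ℝ) ≤ R := by nlinarith
    rw [div_le_div_iff₀ (by positivity) (by positivity)]
    have h13 : (0 : ℝ) ≤ ((Finset.univ.filter (fun x => f x ≠ on F x)).card : ℝ) := by positivity
    nlinarith
  have h9 : 3 / (4 * (e : ℝ)) + 1 / (4 * e) = 1 / e := by field_simp; norm_num
  have h10 := xs.2
  linarith

end Pool.Agent.Q216.RK
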